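import Pool.Agent.H42.NC.Nec

/-!
Module NC-C9 (availability).  `N = n + 1` positions, `ε = if L n then 1 else 0`.
Let `y₀` be the position of `c` in `u` (`Arr.pos`; the only one).  `h2` gives (together with `h1`) a boundary `q₀` with `y₀ < q₀ ≤ n` and
`H L n u c q₀ < 0`; in fact `q₀ < n` (`H_top`), `y₀ < n`, `u n ≠ c`, so `u n < c`.  Hence `H L N u c q₀ = H L n u c q₀ + 1 - ε ≤ -ε`.
There is a value `t ≥ c` (so `> c`, since `y₀ < q₀`) at a position `≥ q₀` in `u`: otherwise all `u k < c` for `q₀ ≤ k ≤ n` and then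
`chi u c k = 1 - [L k] ≥ 0` for all these `k` and `= 1 - ε` for `k = n`, so `H L N u c q₀ ≥ 1 - ε`, contradiction.
Let `d > c` be the smallest value whose position in `u` is `≥ q₀`.  For `c < t < d` with `t ∈ V` the position of `t` in `u` is `< q₀`; by
`H_thr` `H L N u t q₀ = H L N u c q₀ ≤ -ε` for all `c ≤ t ≤ d`.
Now let `w ≤ u` with `AvUp L n w c`.  `w n ≠ c` (else `AvDown L n u c` by `nec_down`), so `w n > c`.
Claim 1: for all `c < t ≤ d` and `q₀ ≤ q ≤ n`: `H L N w t q ≤ -ε`.  Induction on `t`.  `t = c+1`: let `x` be the position of `c` in `w`.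
 If `x < q`: `H w (c+1) q = H w c q = H L n w c q + 0 - ε ≤ -ε` (AvUp).  If `q ≤ x`: (-) of `Cr` with boundaries `y₀ < q₀ ≤ q ≤ x`:
 `H w c q + 1 ≤ H u c q₀ ≤ -ε` and `H w (c+1) q = H w c q + 1`.
 Step `t → t+1` (`c < t < d`): by `H_thr` only if the value `t` is at a position `x_t ≥ q` in `w`; then its position in `u` is `y_t < q₀`, (-) with
 `y_t < q₀ ≤ q ≤ x_t`: `H w t q + 1 ≤ H u t q₀ ≤ -ε`.
Claim 1 with `t = d`, `q = n`: `[w n < d] - ε ≤ -ε`, so `d ≤ w n`.
Claim 2: `AvUp L n w d`: let `x` = position of `d` in `w` and `x < q ≤ n`.  `H L n w d q = H L N w d q - [w n < d] + ε = H L N w d q + ε`, so we need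
 `H L N w d q ≤ -ε`.  `q₀ ≤ q`: Claim 1.  `q < q₀`: (+) of `Cr` for the value `d` with `x < q ≤ q₀ ≤ y_d`: `H w d q ≤ H u d q₀ ≤ -ε`.
-/

namespace H42.NC

variable {L : ℕ → Bool} {n : ℕ} {w u : ℕ → ℕ}

theorem avail {V : Finset ℕ} (hu : Arr (n + 1) V u) {c : ℕ} (hc : c ∈ V) (h1 : u n ≤ c)
    (h2 : ¬ AvDown L n u c) :
    ∃ d ∈ V, c < d ∧ ∀ w, Arr (n + 1) V w → Cr L (n + 1) w u → AvUp L n w c →
      AvUp L n w d := by
  obtain ⟨y0, hy0, huy0⟩ := hu.pos hc
  -- the boundary `q0`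
  have hq : ∃ q, y0 < q ∧ q ≤ n ∧ H L n u c q < 0 := by
    by_contra hcon
    push Not at hcon
    apply h2
    intro y hy huy
    have hyy : y = y0 := hu.inj (by omega) hy0 (huy.trans huy0.symm)
    subst hyy
    exact ⟨h1, fun q h3 h4 => hcon q h3 h4⟩
  obtain ⟨q0, hyq, hq0n, hneg⟩ := hq
  have hq0 : q0 < n := by
    rcases Nat.lt_or_ge q0 n with h | h
    · exact h
    · rw [H_ge h] at hneg
      omega
  have hun : u n < c := by
    rcases Nat.lt_or_ge (u n) c with h | h
    · exact h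
    · have h3 : u n = u y0 := by omega
      have h4 := hu.inj (by omega) hy0 h3
      omega
  have hchin : ∀ (v : ℕ → ℕ) (t : ℕ), chi L v t n =
      (if v n < t then (1 : ℤ) else 0) - (if L n = true then (1 : ℤ) else 0) := fun v t => rfl
  obtain ⟨e, he⟩ : ∃ e : ℤ, e = if L n = true then (1 : ℤ) else 0 := ⟨_, rfl⟩
  have hUc : H L (n + 1) u c q0 ≤ -e := by
    rw [H_snoc hq0.le, hchin, if_pos hun, ← he]
    omega
  -- a value above `c` at a position `≥ q0`
  have hex : ∃ v, c < v ∧ ∃ k, q0 ≤ k ∧ k ≤ n ∧ u k = v := by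
    by_contra hcon
    push Not at hcon
    have h3 : ∀ k, q0 ≤ k → k ≤ n → u k < c := by
      intro k hk1 hk2
      rcases Nat.lt_trichotomy (u k) c with h | h | h
      · exact h
      · have h4 := hu.inj (by omega) hy0 (h.trans huy0.symm)
        omega
      · exact absurd rfl (hcon (u k) h k hk1 hk2)
    have h4 : 0 ≤ H L n u c q0 := by
      unfold H
      refine Finset.sum_nonneg (fun k hk => ?_)
      have hk' := Finset.mem_Ico.mp hk
      unfold chi
      rw [if_pos (h3 k hk'.1 (by omega))]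
      split_ifs <;> norm_num
    omega
  obtain ⟨d, ⟨hcd, kd, hkd1, hkd2, hukd⟩, hmin⟩ : ∃ d, (c < d ∧ ∃ k, q0 ≤ k ∧ k ≤ n ∧ u k = d) ∧
      ∀ v, v < d → ¬ (c < v ∧ ∃ k, q0 ≤ k ∧ k ≤ n ∧ u k = v) := by
    classical
    exact ⟨Nat.find hex, Nat.find_spec hex, fun v hv => Nat.find_min hex hv⟩
  have hUt : ∀ t, c ≤ t → t ≤ d → H L (n + 1) u t q0 = H L (n + 1) u c q0 := by
    intro t ht
    induction t, ht using Nat.le_induction with
    | base => exact fun _ => rfl
    | succ t ht ih =>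
      intro htd
      rw [← ih (by omega)]
      refine H_thr_of_ne (fun k hk1 hk2 hk => ?_)
      rcases Nat.lt_or_ge c t with h | h
      · exact hmin t (by omega) ⟨h, k, hk1, by omega, hk⟩
      · have h3 : t = c := by omega
        have h4 := hu.inj hk2 hy0 (hk.trans (h3.trans huy0.symm))
        omega
  refine ⟨d, hukd ▸ hu.mem (by omega), hcd, fun w hw hcr hav => ?_⟩
  have hwn : w n ≠ c := by
    intro h
    apply h2
    have h3 := nec_down hw hu hcr
    rw [h] at h3
    exact h3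
  obtain ⟨x0, hx0, hwx0⟩ := hw.pos hc
  obtain ⟨hcw, havq⟩ := hav x0 (by omega) hwx0
  -- claim 1
  have hcl : ∀ t, c + 1 ≤ t → t ≤ d → ∀ q, q0 ≤ q → q ≤ n → H L (n + 1) w t q ≤ -e := by
    intro t ht
    induction t, ht using Nat.le_induction with
    | base =>
      intro _ q hq1 hq2
      rcases Nat.lt_or_ge x0 q with h | h
      · rw [H_thr_of_gt hw.1 hx0 hwx0 h, H_snoc hq2, hchin, if_neg (by omega), ← he]
        have := havq q h hq2
        omega
      · rw [H_thr_of_le hw.1 hx0 hwx0 h]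
        have h3 := (hcr x0 y0 hx0 hy0 (hwx0.trans huy0.symm)).1 q0 q hyq hq1 h
        rw [hwx0] at h3
        omega
    | succ t ht ih =>
      intro htd q hq1 hq2
      have ih' := ih (by omega) q hq1 hq2
      rcases H_thr (L := L) hw t q with ⟨h3, -⟩ | ⟨h3, x, hx, hwx, hqx⟩
      · rw [h3]
        exact ih'
      · rw [h3]
        have htV : t ∈ V := hwx ▸ hw.mem hx
        obtain ⟨y, hy, huy⟩ := hu.pos htV
        have hyq0 : y < q0 := by
          by_contra hcon
          exact hmin t (by omega) ⟨by omega, y, by omega, by omega, huy⟩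
        have h4 := (hcr x y hx hy (hwx.trans huy.symm)).1 q0 q hyq0 hq1 hqx
        rw [hwx, hUt t (by omega) (by omega)] at h4
        omega
  have hdw : d ≤ w n := by
    have h3 := hcl d hcd le_rfl n hq0.le le_rfl
    rw [H_snoc le_rfl, H_top, hchin, ← he] at h3
    by_contra hcon
    rw [if_pos (by omega)] at h3
    omega
  intro x hx hwx
  refine ⟨hdw, fun q hq1 hq2 => ?_⟩
  have h3 : H L (n + 1) w d q ≤ -e := by
    rcases Nat.lt_or_ge q q0 with h | h
    · have h4 := (hcr x kd (by omega) (by omega) (hwx.trans hukd.symm)).2 q q0 hq1 h.le hkd1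
      rw [hwx, hUt d hcd.le le_rfl] at h4
      omega
    · exact hcl d hcd le_rfl q h hq2
  rw [H_snoc hq2, hchin, if_neg (by omega), ← he] at h3
  omega

end H42.NC
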