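import Pool.Agent.H42.NC.Basic

/-!
# Braid part, definitions (abstract group, permutations of `ℕ` fixing all `k > m`)

Positions are `0, ..., m`; the generator `s i` (`i < m`) exchanges the positions `i`, `i + 1`.
Right multiplication `w * Equiv.swap i j` exchanges the values at the positions `i`, `j`.
-/

namespace H42.NC

/-- Artin relations of type `A_m` for `s 0, ..., s (m - 1)` -/
structure Artin {G : Type*} [Group G] (m : ℕ) (s : ℕ → G) : Prop where
  comm : ∀ i j, i + 1 < j → j < m → s i * s j = s j * s i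
  braid : ∀ i, i + 1 < m → s i * s (i + 1) * s i = s (i + 1) * s i * s (i + 1)

/-- `Lf m s w g`: `g` is the positive lift of `w` along some reduced word -/
inductive Lf {G : Type*} [Group G] (m : ℕ) (s : ℕ → G) : Equiv.Perm ℕ → G → Prop
  | one : Lf m s 1 1
  | step {w : Equiv.Perm ℕ} {g : G} {i : ℕ} : Lf m s w g → i < m → w i < w (i + 1) →
      Lf m s (w * Equiv.swap i (i + 1)) (g * s i)

/-- `w` fixes all numbers `≥ n` -/
def Fix (n : ℕ) (w : Equiv.Perm ℕ) : Prop := ∀ k, n ≤ k → w k = k

/-- number of inversions on the positions `< n` -/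
def inv (n : ℕ) (w : Equiv.Perm ℕ) : ℕ :=
  ((Finset.range n ×ˢ Finset.range n).filter (fun p => p.1 < p.2 ∧ w p.2 < w p.1)).card

/-- the generator attached to the positions `i < i + d + 1` -/
def tau {G : Type*} [Group G] (L : ℕ → Bool) (s : ℕ → G) (i : ℕ) : ℕ → G
  | 0 => s i
  | d + 1 => if L (i + d + 1) = true then s (i + d + 1) * tau L s i d * (s (i + d + 1))⁻¹
      else (s (i + d + 1))⁻¹ * tau L s i d * s (i + d + 1)

/-- a Hurwitz move on lists of elements of a group -/
inductive HurwitzMove {G : Type*} [Group G] : List G → List G → Prop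
  | move (l r : List G) (a b : G) : HurwitzMove (l ++ a :: b :: r) (l ++ b :: (b⁻¹ * a * b) :: r)

/-- Hurwitz moves and their inverses -/
def Hz {G : Type*} [Group G] : List G → List G → Prop := Relation.EqvGen HurwitzMove

/-- label of the position `k`: lower iff the generator `k` is before the generator `k - 1` -/
def lab (l : List ℕ) (k : ℕ) : Bool := decide (l.idxOf k < l.idxOf (k - 1))

/-- the exponents -/
def al (L : ℕ → Bool) (t : ℝ) (i : ℕ) : ℝ := if L i = true then t else 1

def be (L : ℕ → Bool) (t : ℝ) (i : ℕ) : ℝ := if L i = true then 1 else t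

/-- one generator of the twisted Burau representation on functions -/
def burF (L : ℕ → Bool) (t : ℝ) (i : ℕ) (a : ℕ → ℝ) : ℕ → ℝ := fun k =>
  if k = i then (1 - t) * a i + al L t i * a (i + 1)
  else if k = i + 1 then be L t i * a i else a k

/-- the basic vectors -/
def gh (L : ℕ → Bool) (n : ℕ) (t : ℝ) (p : ℕ) : ℕ → ℝ := fun k =>
  if p ≤ k ∧ k < n then ∏ j ∈ Finset.Ico p k, be L t j else 0

/-- the image of `gh p` under the lift of `v` -/
noncomputable def Psi (L : ℕ → Bool) (n : ℕ) (t : ℝ) (v : Equiv.Perm ℕ) (p : ℕ) : ℕ → ℝ :=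
  fun x => if x < n ∧ p ≤ v⁻¹ x then
    t ^ (H L n v (x + 1) p - H L n (1 : Equiv.Perm ℕ) (x + 1) x) else 0

/-- the exponent of the kernel -/
def Dx (L : ℕ → Bool) (n : ℕ) (u v : Equiv.Perm ℕ) (p z k : ℕ) : ℤ :=
  H L n v (z + 1) p - H L n u (z + 1) k

/-- the kernel: the vector `(lift u)⁻¹ (lift v) (gh p)` -/
noncomputable def Phi (L : ℕ → Bool) (n : ℕ) (t : ℝ) (u v : Equiv.Perm ℕ) (p : ℕ) : ℕ → ℝ :=
  fun k => if k < n then
    (if p ≤ v⁻¹ (u k) then t ^ (Dx L n u v p (u k) k) else 0) -
      (1 - t) * ∑ z ∈ (Finset.range n).filter (fun z => u k < z ∧ u⁻¹ z < k ∧ p ≤ v⁻¹ z),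
        t ^ (Dx L n u v p (z - 1) k) else 0

end H42.NC
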