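import Pool.Agent.H42.NC.BDefs

/-!
# The braid group of type `A_m`, positive lifts, dual generators, the order
-/

namespace H42.NC

open Relation

/-- Artin relations -/
def braidRels (m : ℕ) : Set (FreeGroup (Fin m)) :=
  {r | ∃ i j : Fin m,
    (i.val + 1 < j.val ∧ r = FreeGroup.of i * FreeGroup.of j *
      (FreeGroup.of j * FreeGroup.of i)⁻¹) ∨
    (i.val + 1 = j.val ∧ r = FreeGroup.of i * FreeGroup.of j * FreeGroup.of i *
      (FreeGroup.of j * FreeGroup.of i * FreeGroup.of j)⁻¹)}

/-- the braid group of type `A_m` (braids on `m + 1` strands) -/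
abbrev Braid (m : ℕ) := PresentedGroup (braidRels m)

/-- the generators of the braid group -/
def sig {m : ℕ} (i : Fin m) : Braid m := PresentedGroup.of i

/-- the simple reflections of the symmetric group `S_{m+1}` -/
def sref {m : ℕ} (i : Fin m) : Equiv.Perm (Fin (m + 1)) := Equiv.swap i.castSucc i.succ

/-- a word in the simple reflections is reduced -/
def IsReduced {m : ℕ} (ω : List (Fin m)) : Prop :=
  ∀ ω' : List (Fin m), (ω'.map sref).prod = (ω.map sref).prod → ω.length ≤ ω'.length

/-- `b` is the product of the braid generators along some reduced word of `w` -/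
def IsLift {m : ℕ} (w : Equiv.Perm (Fin (m + 1))) (b : Braid m) : Prop :=
  ∃ ω : List (Fin m), IsReduced ω ∧ (ω.map sref).prod = w ∧ (ω.map sig).prod = b

/-- the dual generators: all entries of the tuples in the Hurwitz orbit of `(s_1, ..., s_r)` -/
def dualGens {m : ℕ} (c : List (Fin m)) : Set (Braid m) :=
  {t | ∃ τ : List (Braid m), EqvGen HurwitzMove (c.map sig) τ ∧ t ∈ τ}

/-- the positive monoid -/
def BPos (m : ℕ) : Submonoid (Braid m) := Submonoid.closure (Set.range sig)

/-- the generating relations of the c-noncrossing weak order on the positive monoid -/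
def PStep {m : ℕ} (c : List (Fin m)) (b b' : Braid m) : Prop :=
  b ∈ BPos m ∧ b' ∈ BPos m ∧ ∃ t ∈ dualGens c, b' = b * t

end H42.NC
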