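import Pool.Agent.H42.NC.Defs

namespace H42.NC

variable {L : ℕ → Bool} {n : ℕ} {w u : ℕ → ℕ}

theorem H_step {t p : ℕ} (hp : p < n) : H L n w t p = chi L w t p + H L n w t (p + 1) := by
  unfold H
  rw [Finset.sum_eq_sum_Ico_succ_bot hp]

theorem H_top (t : ℕ) : H L n w t n = 0 := by
  simp [H]

theorem H_ge {t p : ℕ} (hp : n ≤ p) : H L n w t p = 0 := by
  simp [H, Finset.Ico_eq_empty_of_le hp]

theorem H_snoc {t p : ℕ} (hp : p ≤ n) : H L (n + 1) w t p = H L n w t p + chi L w t n := by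
  unfold H
  rw [Finset.sum_Ico_succ_top hp]

theorem chi_congr {t k : ℕ} (h : w k = u k) : chi L w t k = chi L u t k := by
  simp [chi, h]

theorem H_congr (h : ∀ k < n, w k = u k) (t p : ℕ) : H L n w t p = H L n u t p := by
  unfold H
  refine Finset.sum_congr rfl (fun k hk => chi_congr (h k ?_))
  exact (Finset.mem_Ico.mp hk).2

theorem H_zero (t0 : ℕ) (ht : ∀ k < n, t0 ≤ w k ∧ t0 ≤ u k) (p : ℕ) :
    H L n w t0 p = H L n u t0 p := by
  unfold H
  refine Finset.sum_congr rfl (fun k hk => ?_)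
  have := ht k (Finset.mem_Ico.mp hk).2
  simp [chi, not_lt.mpr this.1, not_lt.mpr this.2]

/-- no value `t` at positions `≥ p`: the threshold can be moved -/
theorem H_thr_of_ne {t p : ℕ} (h : ∀ k, p ≤ k → k < n → w k ≠ t) :
    H L n w (t + 1) p = H L n w t p := by
  unfold H
  refine Finset.sum_congr rfl (fun k hk => ?_)
  have hk' := Finset.mem_Ico.mp hk
  have := h k hk'.1 hk'.2
  unfold chi
  have h1 : (w k < t + 1) ↔ (w k < t) := by omega
  simp [h1]

/-- value `t` at position `x ≥ p` -/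
theorem H_thr_of_le (hw : Set.InjOn w (Set.Iio n)) {t x p : ℕ} (hx : x < n) (hxt : w x = t)
    (hp : p ≤ x) : H L n w (t + 1) p = H L n w t p + 1 := by
  unfold H
  have hmem : x ∈ Finset.Ico p n := Finset.mem_Ico.mpr ⟨hp, hx⟩
  rw [← Finset.add_sum_erase _ _ hmem, ← Finset.add_sum_erase _ (fun k => chi L w t k) hmem]
  have h1 : ∑ k ∈ (Finset.Ico p n).erase x, chi L w (t + 1) k
      = ∑ k ∈ (Finset.Ico p n).erase x, chi L w t k := by
    refine Finset.sum_congr rfl (fun k hk => ?_)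
    have hk1 := Finset.mem_erase.mp hk
    have hk2 := Finset.mem_Ico.mp hk1.2
    have hne : w k ≠ t := by
      intro h
      apply hk1.1
      exact hw (Set.mem_Iio.mpr hk2.2) (Set.mem_Iio.mpr hx) (by rw [h, hxt])
    unfold chi
    have h1 : (w k < t + 1) ↔ (w k < t) := by omega
    simp [h1]
  rw [h1]
  unfold chi
  simp [hxt]
  ring

/-- value `t` at position `x < p` -/
theorem H_thr_of_gt (hw : Set.InjOn w (Set.Iio n)) {t x p : ℕ} (hx : x < n) (hxt : w x = t)
    (hp : x < p) : H L n w (t + 1) p = H L n w t p := by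
  apply H_thr_of_ne
  intro k hk1 hk2 h
  have := hw (Set.mem_Iio.mpr hk2) (Set.mem_Iio.mpr hx) (by rw [h, hxt])
  omega

theorem H_const {t p q : ℕ} (hpq : p ≤ q) (hq : q ≤ n)
    (h : ∀ k, p ≤ k → k < q → chi L w t k = 0) : H L n w t p = H L n w t q := by
  unfold H
  rw [← Finset.sum_Ico_consecutive _ hpq hq, Finset.sum_eq_zero, zero_add]
  intro k hk
  have := Finset.mem_Ico.mp hk
  exact h k this.1 this.2

theorem H_split {t p q : ℕ} (hpq : p ≤ q) (hq : q ≤ n) :
    H L n w t p = ∑ k ∈ Finset.Ico p q, chi L w t k + H L n w t q := by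
  unfold H
  rw [Finset.sum_Ico_consecutive _ hpq hq]

theorem chi_U_lt {t k : ℕ} (hL : L k = false) (h : w k < t) : chi L w t k = 1 := by
  simp [chi, hL, h]

theorem chi_U_ge {t k : ℕ} (hL : L k = false) (h : t ≤ w k) : chi L w t k = 0 := by
  simp [chi, hL, not_lt.mpr h]

theorem chi_L_lt {t k : ℕ} (hL : L k = true) (h : w k < t) : chi L w t k = 0 := by
  simp [chi, hL, h]

theorem chi_L_ge {t k : ℕ} (hL : L k = true) (h : t ≤ w k) : chi L w t k = -1 := by
  simp [chi, hL, not_lt.mpr h]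

theorem chi_ge_neg_one {t k : ℕ} : -1 ≤ chi L w t k := by
  unfold chi; split_ifs <;> norm_num

theorem chi_le_one {t k : ℕ} : chi L w t k ≤ 1 := by
  unfold chi; split_ifs <;> norm_num

theorem chi_le_zero_of_ge {t k : ℕ} (h : t ≤ w k) : chi L w t k ≤ 0 := by
  unfold chi; rw [if_neg (not_lt.mpr h)]; split_ifs <;> norm_num

/-- heights after exchanging the values at positions `i < j` -/
theorem H_sw {i j t p : ℕ} (hij : i < j) (hj : j < n) (hlt : w i < w j) :
    H L n (sw w i j) t p = H L n w t p +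
      (if i < p ∧ p ≤ j ∧ w i < t ∧ t ≤ w j then 1 else 0) := by
  have hchi : ∀ k, chi L (sw w i j) t k = chi L w t k +
      (if k = i then ((if w j < t then (1:ℤ) else 0) - (if w i < t then 1 else 0)) else 0) +
      (if k = j then ((if w i < t then (1:ℤ) else 0) - (if w j < t then 1 else 0)) else 0) := by
    intro k
    unfold chi sw
    by_cases hki : k = i
    · subst hki
      have : k ≠ j := by omega
      simp [this]
    · by_cases hkj : k = j
      · subst hkj
        simp [hki]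
      · rw [Equiv.swap_apply_of_ne_of_ne hki hkj]
        simp [hki, hkj]
  unfold H
  rw [Finset.sum_congr rfl (fun k _ => hchi k), Finset.sum_add_distrib, Finset.sum_add_distrib,
    Finset.sum_ite_eq', Finset.sum_ite_eq']
  simp only [Finset.mem_Ico]
  by_cases h1 : p ≤ i
  · have h2 : p ≤ j := by omega
    have h3 : i < n := by omega
    have h4 : ¬ (i < p ∧ p ≤ j ∧ w i < t ∧ t ≤ w j) := by omega
    rw [if_pos (show p ≤ i ∧ i < n from ⟨h1, h3⟩), if_pos (show p ≤ j ∧ j < n from ⟨h2, hj⟩),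
      if_neg h4]
    ring
  · by_cases h2 : p ≤ j
    · have h3 : ¬ (p ≤ i ∧ i < n) := by omega
      rw [if_neg h3, if_pos (show p ≤ j ∧ j < n from ⟨h2, hj⟩)]
      by_cases h5 : w i < t ∧ t ≤ w j
      · have h6 : (i < p ∧ p ≤ j ∧ w i < t ∧ t ≤ w j) := ⟨by omega, h2, h5⟩
        rw [if_pos h6, if_pos h5.1, if_neg (by omega : ¬ w j < t)]
        ring
      · have h6 : ¬ (i < p ∧ p ≤ j ∧ w i < t ∧ t ≤ w j) := fun h => h5 h.2.2
        rw [if_neg h6]
        by_cases h7 : w i < t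
        · have h8 : w j < t := by by_contra h; exact h5 ⟨h7, by omega⟩
          rw [if_pos h7, if_pos h8]; ring
        · have h8 : ¬ w j < t := by omega
          rw [if_neg h7, if_neg h8]; ring
    · have h3 : ¬ (p ≤ i ∧ i < n) := by omega
      have h4 : ¬ (p ≤ j ∧ j < n) := by omega
      have h6 : ¬ (i < p ∧ p ≤ j ∧ w i < t ∧ t ≤ w j) := by omega
      rw [if_neg h3, if_neg h4, if_neg h6]
      ring

theorem sw_left {i j : ℕ} : sw w i j i = w j := by simp [sw]

theorem sw_right {i j : ℕ} : sw w i j j = w i := by simp [sw]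

theorem sw_ne {i j k : ℕ} (h1 : k ≠ i) (h2 : k ≠ j) : sw w i j k = w k := by
  simp [sw, Equiv.swap_apply_of_ne_of_ne h1 h2]

theorem Arr.pos {V : Finset ℕ} (h : Arr n V w) {v : ℕ} (hv : v ∈ V) : ∃ x < n, w x = v := by
  rw [← h.2] at hv
  obtain ⟨x, hx, hxv⟩ := Finset.mem_image.mp hv
  exact ⟨x, Finset.mem_range.mp hx, hxv⟩

theorem Arr.mem {V : Finset ℕ} (h : Arr n V w) {x : ℕ} (hx : x < n) : w x ∈ V := by
  rw [← h.2]
  exact Finset.mem_image_of_mem w (Finset.mem_range.mpr hx)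

theorem Arr.inj {V : Finset ℕ} (h : Arr n V w) {x y : ℕ} (hx : x < n) (hy : y < n)
    (hxy : w x = w y) : x = y :=
  h.1 (Set.mem_Iio.mpr hx) (Set.mem_Iio.mpr hy) hxy

theorem swap_lt {i j k : ℕ} (hi : i < n) (hj : j < n) (hk : k < n) : Equiv.swap i j k < n := by
  rw [Equiv.swap_apply_def]; split_ifs <;> assumption

theorem Arr.sw {V : Finset ℕ} (h : Arr n V w) {i j : ℕ} (hi : i < n) (hj : j < n) :
    Arr n V (sw w i j) := by
  constructor
  · intro x hx y hy hxy
    have := h.inj (swap_lt hi hj hx) (swap_lt hi hj hy) hxy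
    exact (Equiv.swap i j).injective this
  · rw [← h.2]
    ext v
    simp only [Finset.mem_image, Finset.mem_range, NC.sw]
    constructor
    · rintro ⟨k, hk, rfl⟩
      exact ⟨_, swap_lt hi hj hk, rfl⟩
    · rintro ⟨k, hk, rfl⟩
      exact ⟨Equiv.swap i j k, swap_lt hi hj hk, by simp⟩

/-- all thresholds: an arrangement and a threshold step -/
theorem H_thr {V : Finset ℕ} (h : Arr n V w) (t p : ℕ) :
    (H L n w (t + 1) p = H L n w t p ∧ ∀ x, x < n → w x = t → x < p) ∨
    (H L n w (t + 1) p = H L n w t p + 1 ∧ ∃ x, x < n ∧ w x = t ∧ p ≤ x) := by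
  by_cases hex : ∃ x, x < n ∧ w x = t ∧ p ≤ x
  · right
    obtain ⟨x, hx, hxt, hpx⟩ := hex
    exact ⟨H_thr_of_le h.1 hx hxt hpx, x, hx, hxt, hpx⟩
  · left
    refine ⟨H_thr_of_ne (fun k hk1 hk2 h3 => hex ⟨k, hk2, h3, hk1⟩), fun x hx hxt => ?_⟩
    by_contra hc
    exact hex ⟨x, hx, hxt, by omega⟩

end H42.NC
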