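import Pool.Agent.H42.NC.Basic

/-!
Module NC-C4 (box criterion).  `w ≤ u` (Cr), `(i, j)` visible in `w`, `a = w i < b = w j`, `w' = sw w i j`.
Heights of `w'`: `H_sw`, i.e. `+1` exactly for boundaries `i < p ≤ j` and thresholds `a < t ≤ b`.
For thresholds `a ≤ t ≤ b` the height `H w t p` is constant for `i < p ≤ j` (H_const; for `i < k < j`:
`L k = true → w k < a ≤ t`, chi_L_lt; `L k = false → t ≤ b < w k`, chi_U_ge).
Let `w' x = u y =: v`.
* `x = i` (`v = b`): (-) `y < q ≤ p ≤ i`: `H w' b p = H w b p`, use (-) of `Cr w u` at the position `j` of `b`.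
  (+) `i < q ≤ p ≤ y`: if `q ≤ j`: `H w' b q = H w b j + 1`, use `Nb` for `p`; if `j < q`: `H w' b q = H w b q`, use (+) of `Cr w u`.
* `x = j` (`v = a`): (+) `j < q ≤ p ≤ y`: `H w' a q = H w a q`, (+) of `Cr w u` at position `i`.
  (-) `y < q ≤ p ≤ j`: if `p ≤ i`: `H w' a p = H w a p`, (-) of `Cr w u`; if `i < p`: `H w' a p = H w a p = H w a j`, use `Na` for `q`.
* `x ≠ i, j`: `w' x = w x = v`.  If not `a < v < b` (note `v ≠ a, b` by injectivity) then `H w' v = H w v`.  Otherwise
  `x < i` or `j < x` (visibility).  `x < i`: (-) only boundaries `p ≤ x < i`, no change; (+) `x < q ≤ p ≤ y`: only a change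
  if `i < q ≤ j`, then `H w' v q = H w v j + 1` and `i < p ≤ y`: `Nl`.  `j < x`: (+) no change; (-) `y < q ≤ p ≤ x`: only a change if
  `i < p ≤ j`: `H w' v p + 1 = H w v j + 2 ≤ H u v q` by `Nr` (`q ≤ p ≤ j`).
-/

namespace H42.NC

variable {L : ℕ → Bool} {n : ℕ} {w u : ℕ → ℕ}

theorem box {V : Finset ℕ} (hw : Arr n V w) (hu : Arr n V u) (hc : Cr L n w u) {i j : ℕ}
    (hj : j < n) (hv : Vis L w i j)
    (Na : ∀ y, y < n → u y = w i → ∀ q, y < q → q ≤ j →
      H L n w (w i) j + 1 ≤ H L n u (w i) q)
    (Nb : ∀ y, y < n → u y = w j → ∀ p, i < p → p ≤ y →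
      H L n w (w j) j + 1 ≤ H L n u (w j) p)
    (Nl : ∀ x y, x < i → y < n → w x = u y → w i < w x → w x < w j → ∀ p, i < p → p ≤ y →
      H L n w (w x) j + 1 ≤ H L n u (w x) p)
    (Nr : ∀ x y, j < x → x < n → y < n → w x = u y → w i < w x → w x < w j →
      ∀ q, y < q → q ≤ j → H L n w (w x) j + 2 ≤ H L n u (w x) q) :
    Cr L n (sw w i j) u := by
  have _ := hu
  obtain ⟨hij, hlt, hvis⟩ := hv
  have hi : i < n := by omega
  have hconst : ∀ t, w i ≤ t → t ≤ w j → ∀ p, i < p → p ≤ j → H L n w t p = H L n w t j := by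
    intro t ht1 ht2 p hp1 hp2
    apply H_const hp2 hj.le
    intro k hk1 hk2
    have hk := hvis k (by omega) hk2
    cases hL : L k with
    | true =>
      have := hk.1 hL
      exact chi_L_lt hL (by omega)
    | false =>
      have := hk.2 hL
      exact chi_U_ge hL (by omega)
  intro x y hx hy hxy
  by_cases hxi : x = i
  · subst hxi
    rw [sw_left] at hxy ⊢
    obtain ⟨c1, c2⟩ := hc j y hj hy hxy
    constructor
    · intro q p h1 h2 h3
      have hne : ¬ (x < p ∧ p ≤ j ∧ w x < w j ∧ w j ≤ w j) := by omega
      rw [H_sw hij hj hlt, if_neg hne]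
      have := c1 q p h1 h2 (by omega)
      omega
    · intro q p h1 h2 h3
      rw [H_sw hij hj hlt]
      by_cases hq : q ≤ j
      · have hpos : x < q ∧ q ≤ j ∧ w x < w j ∧ w j ≤ w j := ⟨h1, hq, hlt, le_rfl⟩
        rw [if_pos hpos, hconst (w j) hlt.le le_rfl q h1 hq]
        exact Nb y hy hxy.symm p (by omega) h3
      · have hne : ¬ (x < q ∧ q ≤ j ∧ w x < w j ∧ w j ≤ w j) := by omega
        rw [if_neg hne]
        have := c2 q p (by omega) h2 h3
        omega
  · by_cases hxj : x = j
    · subst hxj
      rw [sw_right] at hxy ⊢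
      obtain ⟨c1, c2⟩ := hc i y hi hy hxy
      constructor
      · intro q p h1 h2 h3
        have hne : ¬ (i < p ∧ p ≤ x ∧ w i < w i ∧ w i ≤ w x) := by omega
        rw [H_sw hij hj hlt, if_neg hne]
        by_cases hp : p ≤ i
        · have := c1 q p h1 h2 hp
          omega
        · rw [hconst (w i) le_rfl hlt.le p (by omega) h3]
          have := Na y hy hxy.symm q h1 (by omega)
          omega
      · intro q p h1 h2 h3
        have hne : ¬ (i < q ∧ q ≤ x ∧ w i < w i ∧ w i ≤ w x) := by omega
        rw [H_sw hij hj hlt, if_neg hne]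
        have := c2 q p (by omega) h2 h3
        omega
    · rw [sw_ne hxi hxj] at hxy ⊢
      obtain ⟨c1, c2⟩ := hc x y hx hy hxy
      have hneq : w x ≠ w j := fun h => hxj (hw.inj hx hj h)
      by_cases hmid : w i < w x ∧ w x < w j
      · have hside : x < i ∨ j < x := by
          by_contra hcon
          have h1 : i < x := by omega
          have h2 : x < j := by omega
          have hk := hvis x h1 h2
          cases hL : L x with
          | true =>
            have := hk.1 hL
            omega
          | false =>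
            have := hk.2 hL
            omega
        rcases hside with hxl | hxr
        · constructor
          · intro q p h1 h2 h3
            have hne : ¬ (i < p ∧ p ≤ j ∧ w i < w x ∧ w x ≤ w j) := by omega
            rw [H_sw hij hj hlt, if_neg hne]
            have := c1 q p h1 h2 h3
            omega
          · intro q p h1 h2 h3
            rw [H_sw hij hj hlt]
            by_cases hq : i < q ∧ q ≤ j
            · have hpos : i < q ∧ q ≤ j ∧ w i < w x ∧ w x ≤ w j := by omega
              rw [if_pos hpos, hconst (w x) hmid.1.le hmid.2.le q hq.1 hq.2]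
              exact Nl x y hxl hy hxy hmid.1 hmid.2 p (by omega) h3
            · have hne : ¬ (i < q ∧ q ≤ j ∧ w i < w x ∧ w x ≤ w j) := by omega
              rw [if_neg hne]
              have := c2 q p h1 h2 h3
              omega
        · constructor
          · intro q p h1 h2 h3
            rw [H_sw hij hj hlt]
            by_cases hp : i < p ∧ p ≤ j
            · have hpos : i < p ∧ p ≤ j ∧ w i < w x ∧ w x ≤ w j := by omega
              rw [if_pos hpos, hconst (w x) hmid.1.le hmid.2.le p hp.1 hp.2]
              have := Nr x y hxr hx hy hxy hmid.1 hmid.2 q h1 (by omega)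
              omega
            · have hne : ¬ (i < p ∧ p ≤ j ∧ w i < w x ∧ w x ≤ w j) := by omega
              rw [if_neg hne]
              have := c1 q p h1 h2 h3
              omega
          · intro q p h1 h2 h3
            have hne : ¬ (i < q ∧ q ≤ j ∧ w i < w x ∧ w x ≤ w j) := by omega
            rw [H_sw hij hj hlt, if_neg hne]
            have := c2 q p h1 h2 h3
            omega
      · constructor
        · intro q p h1 h2 h3
          have hne : ¬ (i < p ∧ p ≤ j ∧ w i < w x ∧ w x ≤ w j) := by omega
          rw [H_sw hij hj hlt, if_neg hne]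
          have := c1 q p h1 h2 h3
          omega
        · intro q p h1 h2 h3
          have hne : ¬ (i < q ∧ q ≤ j ∧ w i < w x ∧ w x ≤ w j) := by omega
          rw [H_sw hij hj hlt, if_neg hne]
          have := c2 q p h1 h2 h3
          omega

end H42.NC
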