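import Pool.Agent.H42.NC.Basic

/-!
Module NC-C1 (Bruhat).  PROOF: induction on `t`.  `t = 0`: both heights equal (no value `< 0`,
`H_zero 0`).  Step `t → t+1`: use `H_thr` for `w` and for `u`.  If `t` is not a value, or the value
`t` is on the same side of the boundary `p` in both, both heights grow equally.  If `w` does not grow there is nothing to do
(growth of `u` is `≥ 0`).  Remaining case: `w x = t`, `p ≤ x`, and `u` does not grow, i.e. the position `y`
of `t` in `u` (exists by `Arr.pos`, `t = w x ∈ V`) satisfies `y < p`; then the first part of `Cr` with `q = p`: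
`H w t p + 1 ≤ H u t p`.  For `p > n` nothing special is needed (the same argument works).
-/

namespace H42.NC

variable {L : ℕ → Bool} {n : ℕ} {w u : ℕ → ℕ}

theorem Cr.bruhat {V : Finset ℕ} (hw : Arr n V w) (hu : Arr n V u) (h : Cr L n w u) (t p : ℕ) :
    H L n w t p ≤ H L n u t p := by
  induction t with
  | zero => exact le_of_eq (H_zero 0 (fun k _ => ⟨Nat.zero_le _, Nat.zero_le _⟩) p)
  | succ t ih =>
    rcases H_thr (L := L) hw t p with ⟨h1, _⟩ | ⟨h1, x, hx, hxt, hpx⟩
    · rcases H_thr (L := L) hu t p with ⟨h3, _⟩ | ⟨h3, _⟩ <;> omega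
    · rcases H_thr (L := L) hu t p with ⟨h3, h4⟩ | ⟨h3, _⟩
      · obtain ⟨y, hy, hyt⟩ := hu.pos (hxt ▸ hw.mem hx)
        have h5 := (h x y hx hy (hxt.trans hyt.symm)).1 p p (h4 y hy hyt) le_rfl hpx
        rw [hxt] at h5
        omega
      · omega

end H42.NC
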