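import Pool.Agent.H42.NC.Box

/-!
Module NC-C5 (forced cover, case A).  Positions `0..n` (heights with `n + 1`), `c = w x`, `b = w j`.
Write `N = n + 1`, `ε = (if L n then 1 else 0)`.
(0) Visibility of `(x, j)`: for `x < k < j` use `hreg`, `hmin` and injectivity.  `c < b` (from hreg/hlw).
(1) const: for `c ≤ t ≤ b` and `x < p ≤ l`: `H L N w t p = H L N w t l` (`H_const`; for `x < k < l`:
    `L k = true → w k < c ≤ t`, `L k = false → t ≤ b ≤ w k`).  If `l < n` and `t ≤ b (≤ w l)` then
    `H w t l = -1 + H w t (l+1)` (chi_L_ge), i.e. `H w t (l+1) = H w t l + 1`.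
(2) For every boundary `x < q ≤ n`: `H w (c+1) q + 1 ≤ H u (c+1) q`.  Let `y` be the position of `c` in `u`.
    If `q ≤ y`: `H u (c+1) q = H u c q + 1` and `H w (c+1) q = H w c q ≤ H u c q`?  -- use (+) of Cr with
    `q = p` (`x < q ≤ q ≤ y`).  If `y < q` (so `y < n`, hence `u n ≠ c`, and `u n < c` by `hdn`):
    `H u (c+1) q = H u c q = H L n u c q + 1 - ε ≥ 1 - ε` (`H_snoc`, `hdn`) and
    `H w (c+1) q = H w c q = H L n w c q + 0 - ε ≤ - ε` (`hup`, `w n > c`).
(3) Up: for `c < t ≤ b` and `x < q ≤ l`: `H w t q + 1 ≤ H u t q`.  Induction on `t`, start `t = c+1` is (2).  Step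
    `t → t+1`, `t + 1 ≤ b`: by `H_thr` the only problem is: value `t` at `x_t ≥ q` in `w` and at `y_t < q` in `u`.  Then `x_t > l`
    (positions in `(x, l]` have values `< c` or `≥ b`), so `l < n`, and (-) of `Cr` with boundaries `y_t < q ≤ l+1 ≤ x_t`:
    `H w t (l+1) + 1 ≤ H u t q`, and `H w t (l+1) = H w t l + 1 = H w t q + 1`.
(4) `Na` (value `c`, `y < q ≤ j`): as in (2) `H u c q ≥ 1 - ε` (here `y < q ≤ n`) and `H w c j ≤ - ε`.
(5) `Nb` (value `b`, `x < p ≤ y`): `p ≤ l`: (3) with `t = b` and (1).  `p > l`: then `l < n`; (+) of `Cr` at the position `j ≤ l` of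
    `b` with boundaries `j < l+1 ≤ p ≤ y`: `H w b (l+1) ≤ H u b p`, `H w b (l+1) = H w b j + 1`.
(6) `Nl` (`c < v < b`, `x' < x`, `x < p ≤ y`): `p ≤ l`: (3) with `t = v`; `p > l`: `l < n`, (+) of Cr with `x' < l+1 ≤ p ≤ y`.
(7) `Nr` (`c < v < b`, `x' > j`): `x' > l` (values in `(x,l]` are `< c` or `≥ b`), so `l < n`; (-) of Cr with `y < q ≤ l+1 ≤ x'`:
    `H w v (l+1) + 1 ≤ H u v q` and `H w v (l+1) = H w v j + 1`.
Then apply `box`.
-/

namespace H42.NC

variable {L : ℕ → Bool} {n : ℕ} {w u : ℕ → ℕ}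

theorem caseA {V : Finset ℕ} (hw : Arr (n + 1) V w) (hu : Arr (n + 1) V u)
    (hc : Cr L (n + 1) w u) {x l j : ℕ} (hx : x < n) (hxn : w x < w n)
    (hup : AvUp L n w (w x)) (hdn : AvDown L n u (w x))
    (hxl : x < l) (hln : l ≤ n) (hl : l < n → L l = true) (hlw : w x < w l)
    (hreg : ∀ k, x < k → k < l → (L k = true → w k < w x) ∧ (L k = false → w x < w k))
    (hxj : x < j) (hjl : j ≤ l) (hjU : j = l ∨ L j = false)
    (hmin : ∀ k, x < k → k < l → L k = false → w j ≤ w k) (hmin' : w j ≤ w l) :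
    Vis L w x j ∧ Cr L (n + 1) (sw w x j) u := by
  have hlN : l < n + 1 := by omega
  -- (0)
  have hcb : w x < w j := by
    rcases hjU with rfl | h
    · exact hlw
    · rcases hjl.lt_or_eq with h1 | h1
      · exact (hreg j hxj h1).2 h
      · rw [h1]; exact hlw
  have hvis : Vis L w x j := by
    refine ⟨hxj, hcb, fun k h1 h2 => ⟨(hreg k h1 (by omega)).1, fun h3 => ?_⟩⟩
    refine lt_of_le_of_ne (hmin k h1 (by omega) h3) fun h4 => ?_
    have := hw.inj (show j < n + 1 by omega) (show k < n + 1 by omega) h4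
    omega
  -- (1)
  have hcon : ∀ t, w x ≤ t → t ≤ w j → ∀ p, x < p → p ≤ l →
      H L (n + 1) w t p = H L (n + 1) w t l := by
    intro t h1 h2 p h3 h4
    refine H_const h4 (by omega) fun k h5 h6 => ?_
    cases hk : L k with
    | true => exact chi_L_lt hk (lt_of_lt_of_le ((hreg k (by omega) h6).1 hk) h1)
    | false => exact chi_U_ge hk (h2.trans (hmin k (by omega) h6 hk))
  have hsuc : l < n → ∀ t, t ≤ w j →
      H L (n + 1) w t (l + 1) = H L (n + 1) w t l + 1 := by
    intro h1 t h2
    have h3 := H_step (L := L) (w := w) (t := t) hlN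
    rw [chi_L_ge (hl h1) (h2.trans hmin')] at h3
    omega
  -- values of `w` between `c` and `b` to the right of `x` are to the right of `l`
  have hright : ∀ k, x < k → w x < w k → w k < w j → l < k := by
    intro k h1 h2 h3
    by_contra h4
    rcases (show k < l ∨ k = l by omega) with h5 | h5
    · cases hk : L k with
      | true =>
        have := (hreg k h1 h5).1 hk
        omega
      | false =>
        have := hmin k h1 h5 hk
        omega
    · rw [h5] at h3
      omega
  -- the last position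
  have hlast : ∀ y, y < n → u y = w x → chi L u (w x) n = chi L w (w x) n + 1 ∧
      ∀ q, y < q → q ≤ n → 0 ≤ H L n u (w x) q := by
    intro y h1 h2
    have h3 := hdn y h1.le h2
    have h4 : u n ≠ w x := by
      intro h4
      have := hu.inj (show n < n + 1 by omega) (show y < n + 1 by omega) (h4.trans h2.symm)
      omega
    refine ⟨?_, h3.2⟩
    unfold chi
    rw [if_pos (show u n < w x by omega), if_neg (show ¬ w n < w x by omega)]
    ring
  have hup' : ∀ q, x < q → q ≤ n → H L n w (w x) q ≤ 0 := (hup x hx.le rfl).2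
  -- common estimate for the value `c`
  have hc0 : ∀ y, u y = w x → ∀ q q', y < q → q ≤ n → x < q' → q' ≤ n →
      H L (n + 1) w (w x) q' + 1 ≤ H L (n + 1) u (w x) q := by
    intro y h1 q q' h2 h3 h4 h5
    have h6 := hlast y (by omega) h1
    have h7 := h6.2 q h2 h3
    have h8 := hup' q' h4 h5
    have h9 := H_snoc (L := L) (w := w) (t := w x) h5
    have h10 := H_snoc (L := L) (w := u) (t := w x) h3
    have h11 := h6.1
    omega
  -- (2)
  have hstart : ∀ q, x < q → q ≤ n →
      H L (n + 1) w (w x + 1) q + 1 ≤ H L (n + 1) u (w x + 1) q := by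
    intro q h1 h2
    obtain ⟨y, hy, hyc⟩ := hu.pos (hw.mem (show x < n + 1 by omega))
    have h3 := H_thr_of_gt (L := L) hw.1 (show x < n + 1 by omega) rfl h1
    by_cases h4 : q ≤ y
    · have h5 := H_thr_of_le (L := L) hu.1 hy hyc h4
      have h6 := (hc x y (by omega) hy hyc.symm).2 q q h1 le_rfl h4
      omega
    · have h5 := H_thr_of_gt (L := L) hu.1 hy hyc (show y < q by omega)
      have h6 := hc0 y hyc q q (by omega) h2 h1 h2
      omega
  -- (3)
  have hUp : ∀ t, w x + 1 ≤ t → t ≤ w j → ∀ q, x < q → q ≤ l →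
      H L (n + 1) w t q + 1 ≤ H L (n + 1) u t q := by
    intro t ht
    induction t, ht using Nat.le_induction with
    | base => exact fun _ q h1 h2 => hstart q h1 (by omega)
    | succ t ht ih =>
      intro h1 q h2 h3
      have h4 := ih (by omega) q h2 h3
      rcases H_thr (L := L) hw t q with ⟨h5, _⟩ | ⟨h5, xt, hxt, hxt', hqx⟩
      · rcases H_thr (L := L) hu t q with ⟨h6, _⟩ | ⟨h6, _⟩ <;> omega
      · rcases H_thr (L := L) hu t q with ⟨h6, h7⟩ | ⟨h6, _⟩
        · have hmem : t ∈ V := by
            rw [← hxt']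
            exact hw.mem hxt
          obtain ⟨yt, hyt, hyt'⟩ := hu.pos hmem
          have h8 := h7 yt hyt hyt'
          have h9 := hright xt (by omega) (by omega) (by omega)
          have h10 := (hc xt yt hxt hyt (hxt'.trans hyt'.symm)).1 q (l + 1) h8 (by omega)
            (by omega)
          rw [hxt'] at h10
          have h11 := hsuc (by omega) t (by omega)
          have h12 := hcon t (by omega) (by omega) q h2 h3
          omega
        · omega
  refine ⟨hvis, box hw hu hc (by omega) hvis ?_ ?_ ?_ ?_⟩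
  · intro y hy hyc q h1 h2
    exact hc0 y hyc q j h1 (by omega) hxj (by omega)
  · intro y hy hyb p h1 h2
    have h3 := hcon (w j) hcb.le le_rfl j hxj hjl
    by_cases h4 : p ≤ l
    · have h5 := hUp (w j) (by omega) le_rfl p h1 h4
      have h6 := hcon (w j) hcb.le le_rfl p h1 h4
      omega
    · have h5 := (hc j y (by omega) hy hyb.symm).2 (l + 1) p (by omega) (by omega) h2
      have h6 := hsuc (by omega) (w j) le_rfl
      omega
  · intro x' y hx' hy hxy h1 h2 p h3 h4
    have h5 := hcon (w x') h1.le h2.le j hxj hjl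
    by_cases h6 : p ≤ l
    · have h7 := hUp (w x') (by omega) h2.le p h3 h6
      have h8 := hcon (w x') h1.le h2.le p h3 h6
      omega
    · have h7 := (hc x' y (by omega) hy hxy).2 (l + 1) p (by omega) (by omega) h4
      have h8 := hsuc (by omega) (w x') h2.le
      omega
  · intro x' y hjx hx' hy hxy h1 h2 q h3 h4
    have h5 := hcon (w x') h1.le h2.le j hxj hjl
    have h6 := hright x' (by omega) h1 h2
    have h7 := (hc x' y hx' hy hxy).1 q (l + 1) h3 (by omega) (by omega)
    have h8 := hsuc (by omega) (w x') h2.le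
    omega

end H42.NC
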