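import Pool.Agent.H42.NC.Box

/-!
Module NC-C6 (forced cover, case B).  Positions `0..n` (`N = n + 1`), `c = w x`, `a = w i`, `b = w j`; the walls
`i₁ < j₁` (called `i'`, `j'` on paper) are an upper point below `c` and a lower point above `c`, facing each other.
(0) `a < c` (`i = i₁`, or `i` lower in the region), `c < b`; visibility of `(i, j)` from `hreg, himax, hjmin` + injectivity.
(1) const: `H w t p` (`N` positions) is constant for `i₁ < p ≤ j₁` if `c ≤ t ≤ b`, and for `i₁ < p ≤ j` if `a < t ≤ b`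
    (points of the region: lower ones `< c` (those left of `j` are `≤ a`), upper ones `≥ b`).
    For `w i₁ < t`: `H w t i₁ = H w t (i₁+1) + 1` (chi_U_lt).  For `t ≤ w j₁`: `H w t (j₁+1) = H w t j₁ + 1` (chi_L_ge).
(2) as in case A: for every boundary `x < q ≤ n`: `H w (c+1) q + 1 ≤ H u (c+1) q`.
    [`y` = position of `c` in `u`.  `q ≤ y`: `H u (c+1) q = H u c q + 1`, `H w (c+1) q = H w c q ≤ H u c q` by (+) with `q = p`.
    `y < q`: `u n < c` by hdn; `H u (c+1) q = H u c q = H L n u c q + 1 - ε ≥ 1 - ε`, `H w (c+1) q = H w c q = H L n w c q - ε ≤ -ε`,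
    `ε = if L n then 1 else 0`, by `H_snoc`, `hdn`, `hup`, `hxn`.]
    And for `i₁ < q ≤ j₁` also `H w c q + 1 ≤ H u c q`: if `y < q` as before; if `q ≤ y`: (+) with boundaries `x < i₁ ≤ q ≤ y`:
    `H w c i₁ ≤ H u c q` and `H w c i₁ = H w c (i₁+1) + 1 = H w c q + 1`.
(3) Down: for `a < t ≤ c`, `i₁ < q ≤ j`: `H w t q + 1 ≤ H u t q`.  Downward induction from `t = c`; step from `t+1` to `t` (`a < t < c`):
    by `H_thr` the only problem is: value `t` at `x_t < q` in `w` and at `y_t ≥ q` in `u`.  Then `x_t < i₁` (in `[i₁, j)` the values are `≤ a` or `≥ b`),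
    and (+) with boundaries `x_t < i₁ ≤ q ≤ y_t` gives `H w t i₁ ≤ H u t q`, `H w t i₁ = H w t (i₁+1) + 1 = H w t q + 1`.
(4) Up: for `c ≤ t ≤ b`, `i₁ < q ≤ j₁`: `H w t q + 1 ≤ H u t q`.  `t = c`, `t = c+1` are in (2).  Step `t → t+1`, `c < t < b`: only problem:
    `x_t ≥ q` in `w`, `y_t < q` in `u`.  Then `x_t > j₁`, (-) with boundaries `y_t < q ≤ j₁+1 ≤ x_t`: `H w t (j₁+1) + 1 ≤ H u t q` and
    `H w t (j₁+1) = H w t j₁ + 1 = H w t q + 1`.
(5) `Na` (value `a` at `i`, `y` its position in `u`, `y < q ≤ j`): `i₁ < q`: `H u a q = H u (a+1) q ≥ H w (a+1) q + 1` by (3) (`a+1 ≤ c`), and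
    `H w (a+1) q = H w (a+1) j = H w a j` (const, and `i < j`).  `q ≤ i₁ (≤ i)`: (-) with boundaries `y < q ≤ i₁ ≤ i`:
    `H w a i₁ + 1 ≤ H u a q`, and `H w (a+1) i₁ = H w a i₁ + 1` (as `i₁ ≤ i`), `H w (a+1) i₁ = H w (a+1) (i₁+1) + 1 = H w (a+1) j + 1 = H w a j + 1`
    (note `w i₁ ≤ a < a+1`), so `H w a i₁ = H w a j`.
(6) `Nb` (value `b` at `j`, `i < p ≤ y`): `p ≤ j₁`: (4) with `t = b` and const.  `p > j₁`: (+) with `j < j₁+1 ≤ p ≤ y`: `H w b (j₁+1) ≤ H u b p`
    and `H w b (j₁+1) = H w b j₁ + 1 = H w b j + 1`.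
(7) `Nl` (`a < v < b`, `x' < i`, `i < p ≤ y`): `x' < i₁` (values of `[i₁, i)` are `≤ a` or `≥ b`); (+) with `x' < i₁ ≤ p ≤ y`:
    `H w v i₁ ≤ H u v p`, `H w v i₁ = H w v (i₁+1) + 1 = H w v j + 1` (`w i₁ ≤ a < v`).
(8) `Nr` (`a < v < b`, `x' > j`, `y < q ≤ j`): if `c < v`: `x' > j₁`; (-) with `y < q ≤ j₁+1 ≤ x'`: `H w v (j₁+1) + 1 ≤ H u v q`,
    `H w v (j₁+1) = H w v j₁ + 1 = H w v j + 1`.  `v = c` impossible (`x < i₁ < j < x'`).  If `v < c`: for `i₁ < q`: (3) at `t = v+1 ≤ c`:
    `H u v q = H u (v+1) q ≥ H w (v+1) q + 1 = H w v q + 2 = H w v j + 2` (`y < q`, `q ≤ x'`); for `q ≤ i₁`: (-) with `y < q ≤ i₁ ≤ x'`: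
    `H w v i₁ + 1 ≤ H u v q` and `H w v i₁ = H w v j + 1`.
Then apply `box`.
-/

namespace H42.NC

variable {L : ℕ → Bool} {n : ℕ} {w u : ℕ → ℕ}

theorem caseB {V : Finset ℕ} (hw : Arr (n + 1) V w) (hu : Arr (n + 1) V u)
    (hc : Cr L (n + 1) w u) {x i₁ j₁ i j : ℕ} (hxn : w x < w n)
    (hup : AvUp L n w (w x)) (hdn : AvDown L n u (w x))
    (hxi : x < i₁) (hi₁U : L i₁ = false) (hi₁w : w i₁ < w x)
    (hij₁ : i₁ < j₁) (hj₁n : j₁ < n) (hj₁L : L j₁ = true) (hj₁w : w x < w j₁)
    (hreg : ∀ k, i₁ < k → k < j₁ → (L k = true → w k < w x) ∧ (L k = false → w x < w k))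
    (hi₁j : i₁ < j) (hjj₁ : j ≤ j₁) (hjU : j = j₁ ∨ L j = false)
    (hjmin : ∀ k, i₁ < k → k < j₁ → L k = false → w j ≤ w k) (hjmin' : w j ≤ w j₁)
    (hi₁i : i₁ ≤ i) (hij : i < j) (hiL : i = i₁ ∨ L i = true)
    (himax : ∀ k, i₁ < k → k < j → L k = true → w k ≤ w i) (himax' : w i₁ ≤ w i) :
    Vis L w i j ∧ Cr L (n + 1) (sw w i j) u := by
  have hxn' : x < n + 1 := by omega
  have hin : i < n + 1 := by omega
  have hjn : j < n + 1 := by omega
  have hac : w i < w x := by
    rcases hiL with h | h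
    · rw [h]; exact hi₁w
    · by_cases h2 : i = i₁
      · rw [h2]; exact hi₁w
      · exact (hreg i (by omega) (by omega)).1 h
  have hcb : w x < w j := by
    rcases hjU with h | h
    · rw [h]; exact hj₁w
    · by_cases h2 : j = j₁
      · rw [h2]; exact hj₁w
      · exact (hreg j (by omega) (by omega)).2 h
  have hvis : Vis L w i j := by
    refine ⟨hij, by omega, fun k hk1 hk2 => ⟨fun hL => ?_, fun hL => ?_⟩⟩
    · have h1 := himax k (by omega) hk2 hL
      have h2 : w k ≠ w i := fun h => by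
        have := hw.inj (show k < n + 1 by omega) hin h
        omega
      omega
    · have h1 := hjmin k (by omega) (by omega) hL
      have h2 : w k ≠ w j := fun h => by
        have := hw.inj (show k < n + 1 by omega) hjn h
        omega
      omega
  -- values in the region
  have hval1 : ∀ k, i₁ < k → k < j₁ → w k < w x ∨ w j ≤ w k := fun k h1 h2 => by
    cases hL : L k with
    | true => exact Or.inl ((hreg k h1 h2).1 hL)
    | false => exact Or.inr (hjmin k h1 h2 hL)
  have hval2 : ∀ k, i₁ < k → k < j → w k ≤ w i ∨ w j ≤ w k := fun k h1 h2 => by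
    cases hL : L k with
    | true => exact Or.inl (himax k h1 h2 hL)
    | false => exact Or.inr (hjmin k h1 (by omega) hL)
  have hc1 : ∀ t, w x ≤ t → t ≤ w j → ∀ p, i₁ < p → p ≤ j₁ →
      H L (n + 1) w t p = H L (n + 1) w t j₁ := fun t ht1 ht2 p hp1 hp2 => by
    refine H_const hp2 (by omega) fun k hk1 hk2 => ?_
    cases hL : L k with
    | true =>
      have := (hreg k (by omega) hk2).1 hL
      exact chi_L_lt hL (by omega)
    | false =>
      have := hjmin k (by omega) hk2 hL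
      exact chi_U_ge hL (by omega)
  have hc2 : ∀ t, w i < t → t ≤ w j → ∀ p, i₁ < p → p ≤ j →
      H L (n + 1) w t p = H L (n + 1) w t j := fun t ht1 ht2 p hp1 hp2 => by
    refine H_const hp2 (by omega) fun k hk1 hk2 => ?_
    cases hL : L k with
    | true =>
      have := himax k (by omega) hk2 hL
      exact chi_L_lt hL (by omega)
    | false =>
      have := hjmin k (by omega) (by omega) hL
      exact chi_U_ge hL (by omega)
  have hi1 : ∀ t, w i₁ < t → H L (n + 1) w t i₁ = H L (n + 1) w t (i₁ + 1) + 1 := fun t ht => by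
    rw [H_step (show i₁ < n + 1 by omega), chi_U_lt hi₁U ht]; ring
  have hj1 : ∀ t, t ≤ w j₁ → H L (n + 1) w t (j₁ + 1) = H L (n + 1) w t j₁ + 1 := fun t ht => by
    rw [H_step (show j₁ < n + 1 by omega), chi_L_ge hj₁L ht]; ring
  -- the position of `c` in `u`
  obtain ⟨y, hy, hyc⟩ := hu.pos (hw.mem hxn')
  have hcm := (hc x y hxn' hy hyc.symm).1
  have hcp := (hc x y hxn' hy hyc.symm).2
  have h2c : ∀ q, y < q → x < q → q ≤ n → H L (n + 1) w (w x) q + 1 ≤ H L (n + 1) u (w x) q := by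
    intro q hq1 hq2 hq3
    obtain ⟨d1, d2⟩ := hdn y (by omega) hyc
    obtain ⟨-, e2⟩ := hup x (by omega) rfl
    have hun : u n ≠ w x := fun h => by
      have := hu.inj (show n < n + 1 by omega) hy (by rw [h, hyc])
      omega
    have h1 := d2 q hq1 hq3
    have h2 := e2 q hq2 hq3
    rw [H_snoc hq3, H_snoc hq3]
    cases hL : L n with
    | true =>
      rw [chi_L_ge hL (by omega : w x ≤ w n), chi_L_lt hL (by omega : u n < w x)]
      omega
    | false =>
      rw [chi_U_ge hL (by omega : w x ≤ w n), chi_U_lt hL (by omega : u n < w x)]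
      omega
  have h2a : ∀ q, x < q → q ≤ n → H L (n + 1) w (w x + 1) q + 1 ≤ H L (n + 1) u (w x + 1) q := by
    intro q hq1 hq2
    have e1 : H L (n + 1) w (w x + 1) q = H L (n + 1) w (w x) q :=
      H_thr_of_gt hw.1 hxn' rfl hq1
    by_cases hyq : q ≤ y
    · have e2 : H L (n + 1) u (w x + 1) q = H L (n + 1) u (w x) q + 1 :=
        H_thr_of_le hu.1 hy hyc hyq
      have := hcp q q hq1 le_rfl hyq
      omega
    · have e2 : H L (n + 1) u (w x + 1) q = H L (n + 1) u (w x) q :=
        H_thr_of_gt hu.1 hy hyc (by omega)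
      have := h2c q (by omega) hq1 hq2
      omega
  have h2b : ∀ q, i₁ < q → q ≤ j₁ → H L (n + 1) w (w x) q + 1 ≤ H L (n + 1) u (w x) q := by
    intro q hq1 hq2
    by_cases hyq : q ≤ y
    · have h1 := hcp i₁ q hxi hq1.le hyq
      have h2 := hi1 (w x) hi₁w
      have h3 := hc1 (w x) le_rfl hcb.le q hq1 hq2
      have h4 := hc1 (w x) le_rfl hcb.le (i₁ + 1) (by omega) (by omega)
      omega
    · exact h2c q (by omega) (by omega) (by omega)
  -- (3) down
  have hdown : ∀ d t, w i < t → t + d = w x → ∀ q, i₁ < q → q ≤ j →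
      H L (n + 1) w t q + 1 ≤ H L (n + 1) u t q := by
    intro d
    induction d with
    | zero =>
      intro t _ htd q hq1 hq2
      have : t = w x := by omega
      rw [this]
      exact h2b q hq1 (by omega)
    | succ d ih =>
      intro t ht htd q hq1 hq2
      have h1 := ih (t + 1) (by omega) (by omega) q hq1 hq2
      rcases H_thr (L := L) hw t q with ⟨hw1, hw2⟩ | ⟨hw1, -⟩
      · rcases H_thr (L := L) hu t q with ⟨hu1, -⟩ | ⟨hu1, yt, hyt, hyt1, hyt2⟩
        · omega
        · obtain ⟨xt, hxt, hxt1⟩ := hw.pos (hu.mem hyt)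
          rw [hyt1] at hxt1
          have h2 := hw2 xt hxt hxt1
          have h3 : xt < i₁ := by
            by_contra h4
            rcases eq_or_lt_of_le (not_lt.mp h4) with h5 | h5
            · rw [h5] at himax'; omega
            · rcases hval2 xt h5 (by omega) with h6 | h6 <;> omega
          have h5 := (hc xt yt hxt hyt (by rw [hxt1, hyt1])).2 i₁ q h3 hq1.le hyt2
          rw [hxt1] at h5
          have h6 := hi1 t (by omega)
          have h7 := hc2 t ht (by omega) q hq1 hq2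
          have h8 := hc2 t ht (by omega) (i₁ + 1) (by omega) (by omega)
          omega
      · rcases H_thr (L := L) hu t q with ⟨hu1, -⟩ | ⟨hu1, -⟩ <;> omega
  have hdown' : ∀ t, w i < t → t ≤ w x → ∀ q, i₁ < q → q ≤ j →
      H L (n + 1) w t q + 1 ≤ H L (n + 1) u t q := fun t h1 h2 =>
    hdown (w x - t) t h1 (by omega)
  -- (4) up
  have hupw : ∀ d, w x + 1 + d ≤ w j → ∀ q, i₁ < q → q ≤ j₁ →
      H L (n + 1) w (w x + 1 + d) q + 1 ≤ H L (n + 1) u (w x + 1 + d) q := by
    intro d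
    induction d with
    | zero =>
      intro _ q hq1 hq2
      exact h2a q (by omega) (by omega)
    | succ d ih =>
      intro htd q hq1 hq2
      have h1 := ih (by omega) q hq1 hq2
      set t := w x + 1 + d with ht
      have e : w x + 1 + (d + 1) = t + 1 := by omega
      rw [e]
      rcases H_thr (L := L) hu t q with ⟨hu1, hu2⟩ | ⟨hu1, -⟩
      · rcases H_thr (L := L) hw t q with ⟨hw1, -⟩ | ⟨hw1, xt, hxt, hxt1, hxt2⟩
        · omega
        · obtain ⟨yt, hyt, hyt1⟩ := hu.pos (hw.mem hxt)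
          rw [hxt1] at hyt1
          have h2 := hu2 yt hyt hyt1
          have h3 : j₁ < xt := by
            by_contra h4
            rcases eq_or_lt_of_le (not_lt.mp h4) with h5 | h5
            · rw [← h5] at hjmin'; omega
            · rcases hval1 xt (by omega) h5 with h6 | h6 <;> omega
          have h5 := (hc xt yt hxt hyt (by rw [hxt1, hyt1])).1 q (j₁ + 1) h2 (by omega) (by omega)
          rw [hxt1] at h5
          have h6 := hj1 t (by omega)
          have h7 := hc1 t (by omega) (by omega) q hq1 hq2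
          omega
      · rcases H_thr (L := L) hw t q with ⟨hw1, -⟩ | ⟨hw1, -⟩ <;> omega
  have hup' : ∀ t, w x ≤ t → t ≤ w j → ∀ q, i₁ < q → q ≤ j₁ →
      H L (n + 1) w t q + 1 ≤ H L (n + 1) u t q := fun t h1 h2 q hq1 hq2 => by
    rcases eq_or_lt_of_le h1 with h3 | h3
    · rw [← h3]; exact h2b q hq1 hq2
    · have h4 := hupw (t - (w x + 1)) (by omega) q hq1 hq2
      have e : w x + 1 + (t - (w x + 1)) = t := by omega
      rwa [e] at h4
  refine ⟨hvis, box hw hu hc hjn hvis ?_ ?_ ?_ ?_⟩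
  · -- Na
    intro y' hy' hya q hq1 hq2
    have e3 : H L (n + 1) w (w i + 1) j = H L (n + 1) w (w i) j := H_thr_of_gt hw.1 hin rfl hij
    by_cases hq : i₁ < q
    · have h1 := hdown' (w i + 1) (by omega) (by omega) q hq hq2
      have e1 : H L (n + 1) u (w i + 1) q = H L (n + 1) u (w i) q := H_thr_of_gt hu.1 hy' hya hq1
      have e2 := hc2 (w i + 1) (by omega) (by omega) q hq hq2
      omega
    · have h1 := (hc i y' hin hy' hya.symm).1 q i₁ hq1 (by omega) hi₁i
      have e1 : H L (n + 1) w (w i + 1) i₁ = H L (n + 1) w (w i) i₁ + 1 :=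
        H_thr_of_le hw.1 hin rfl hi₁i
      have e2 := hi1 (w i + 1) (by omega)
      have e4 := hc2 (w i + 1) (by omega) (by omega) (i₁ + 1) (by omega) (by omega)
      omega
  · -- Nb
    intro y' hy' hyb p hp1 hp2
    have e1 := hc1 (w j) hcb.le le_rfl j hi₁j hjj₁
    by_cases hp : p ≤ j₁
    · have h1 := hup' (w j) hcb.le le_rfl p (by omega) hp
      have e2 := hc1 (w j) hcb.le le_rfl p (by omega) hp
      omega
    · have h1 := (hc j y' hjn hy' hyb.symm).2 (j₁ + 1) p (by omega) (by omega) hp2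
      have e2 := hj1 (w j) hjmin'
      omega
  · -- Nl
    intro x' y' hx' hy' hxy ha hb p hp1 hp2
    have h3 : x' < i₁ := by
      by_contra h4
      rcases eq_or_lt_of_le (not_lt.mp h4) with h5 | h5
      · rw [h5] at himax'; omega
      · rcases hval2 x' h5 (by omega) with h6 | h6 <;> omega
    have h1 := (hc x' y' (by omega) hy' hxy).2 i₁ p h3 (by omega) hp2
    have h2 := hi1 (w x') (by omega)
    have h4 := hc2 (w x') ha hb.le (i₁ + 1) (by omega) (by omega)
    omega
  · -- Nr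
    intro x' y' hjx hx' hy' hxy ha hb q hq1 hq2
    rcases lt_trichotomy (w x) (w x') with hv | hv | hv
    · have h3 : j₁ < x' := by
        by_contra h4
        rcases eq_or_lt_of_le (not_lt.mp h4) with h5 | h5
        · rw [← h5] at hjmin'; omega
        · rcases hval1 x' (by omega) h5 with h6 | h6 <;> omega
      have h1 := (hc x' y' hx' hy' hxy).1 q (j₁ + 1) hq1 (by omega) (by omega)
      have h2 := hj1 (w x') (by omega)
      have h4 := hc1 (w x') hv.le hb.le j hi₁j hjj₁
      omega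
    · have := hw.inj hxn' hx' hv
      omega
    · by_cases hq : i₁ < q
      · have h1 := hdown' (w x' + 1) (by omega) (by omega) q hq hq2
        have e1 : H L (n + 1) u (w x' + 1) q = H L (n + 1) u (w x') q :=
          H_thr_of_gt hu.1 hy' hxy.symm hq1
        have e2 : H L (n + 1) w (w x' + 1) q = H L (n + 1) w (w x') q + 1 :=
          H_thr_of_le hw.1 hx' rfl (by omega)
        have e3 := hc2 (w x') ha hb.le q hq hq2
        omega
      · have h1 := (hc x' y' hx' hy' hxy).1 q i₁ hq1 (by omega) (by omega)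
        have e2 := hi1 (w x') (by omega)
        have e4 := hc2 (w x') ha hb.le (i₁ + 1) (by omega) (by omega)
        omega

end H42.NC
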