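import Pool.Agent.H42.NC.Basic

/-!
Module NC-C3 (covers and fibres).
`Vis.cr`: let `a = w i < b = w j`, `u = sw w i j`.  `w x = u y`.  If `x ≠ i, j` then `y = x` (injectivity) and both
ranges are empty.  If `x = i` then `y = j` (value `a`), only (+) matters: `i < q ≤ p ≤ j`, want
`H w a q ≤ H u a p`; `H_sw` with threshold `a`: `H u a p = H w a p` and `H w a q = H w a p` by `H_const`, because for
`i < k < j` we have `chi w a k = 0` (`L k = true`: `w k < a`, chi_L_lt; `L k = false`: `a < b < w k`, chi_U_ge).
If `x = j` then `y = i` (value `b`), only (-) matters: `i < q ≤ p ≤ j`, want `H w b p + 1 ≤ H u b q`;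
`H u b q = H w b q + 1` by `H_sw` and `H w b q = H w b p` again by `H_const`.
`cr_snoc`: for positions `x, y < n` the boundaries that occur are `≤ max x y < n` and `H_snoc` shifts both sides by the same
`chi L w t n = chi L u t n`; if `x = n` or `y = n` then both are `n` (injectivity) and the ranges are empty.
-/

namespace H42.NC

variable {L : ℕ → Bool} {n : ℕ} {w u : ℕ → ℕ}

theorem Vis.cr {V : Finset ℕ} (hw : Arr n V w) {i j : ℕ} (hj : j < n) (h : Vis L w i j) :
    Cr L n w (sw w i j) := by
  obtain ⟨hij, hlt, hk⟩ := h
  have hi : i < n := by omega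
  intro x y hx hy hxy
  by_cases hyi : y = i
  · subst hyi
    have hxj : x = j := by
      apply hw.inj hx hj
      rw [hxy, sw_left]
    subst hxj
    refine ⟨fun q p h1 h2 h3 => ?_, fun q p h1 h2 h3 => by omega⟩
    have e1 : H L n w (w x) q = H L n w (w x) p := by
      apply H_const h2 (by omega)
      intro k hk1 hk2
      have h4 := hk k (by omega) (by omega)
      cases hL : L k with
      | true =>
        have := h4.1 hL
        exact chi_L_lt hL (by omega)
      | false =>
        have := h4.2 hL
        exact chi_U_ge hL (by omega)
    rw [H_sw hij hx hlt, if_pos ⟨h1, by omega, hlt, le_refl _⟩, e1]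
  · by_cases hyj : y = j
    · subst hyj
      have hxi : x = i := by
        apply hw.inj hx hi
        rw [hxy, sw_right]
      subst hxi
      refine ⟨fun q p h1 h2 h3 => by omega, fun q p h1 h2 h3 => ?_⟩
      have e1 : H L n w (w x) q = H L n w (w x) p := by
        apply H_const h2 (by omega)
        intro k hk1 hk2
        have h4 := hk k (by omega) (by omega)
        cases hL : L k with
        | true =>
          have := h4.1 hL
          exact chi_L_lt hL (by omega)
        | false =>
          have := h4.2 hL
          exact chi_U_ge hL (by omega)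
      rw [H_sw hij hy hlt, if_neg (by omega), e1]
      omega
    · have hxy' : x = y := by
        apply hw.inj hx hy
        rw [hxy, sw_ne hyi hyj]
      subst hxy'
      exact ⟨fun q p h1 h2 h3 => by omega, fun q p h1 h2 h3 => by omega⟩

theorem cr_snoc {V : Finset ℕ} (hw : Arr (n + 1) V w) (hu : Arr (n + 1) V u) (h : w n = u n) :
    Cr L (n + 1) w u ↔ Cr L n w u := by
  constructor
  · intro hcr x y hx hy hxy
    obtain ⟨hA, hB⟩ := hcr x y (by omega) (by omega) hxy
    have hchi : chi L w (w x) n = chi L u (w x) n := chi_congr h
    refine ⟨fun q p h1 h2 h3 => ?_, fun q p h1 h2 h3 => ?_⟩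
    · have := hA q p h1 h2 h3
      rw [H_snoc (by omega), H_snoc (by omega)] at this
      omega
    · have := hB q p h1 h2 h3
      rw [H_snoc (by omega), H_snoc (by omega)] at this
      omega
  · intro hcr x y hx hy hxy
    by_cases hxn : x = n
    · have hyn : y = n := by
        apply hu.inj hy (by omega)
        rw [← hxy, hxn, h]
      subst hxn
      exact ⟨fun q p h1 h2 h3 => by omega, fun q p h1 h2 h3 => by omega⟩
    · by_cases hyn : y = n
      · have : x = n := by
          apply hw.inj hx (by omega)
          rw [hxy, hyn, h]
        exact absurd this hxn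
      · obtain ⟨hA, hB⟩ := hcr x y (by omega) (by omega) hxy
        have hchi : chi L w (w x) n = chi L u (w x) n := chi_congr h
        refine ⟨fun q p h1 h2 h3 => ?_, fun q p h1 h2 h3 => ?_⟩
        · have := hA q p h1 h2 h3
          rw [H_snoc (by omega), H_snoc (by omega)]
          omega
        · have := hB q p h1 h2 h3
          rw [H_snoc (by omega), H_snoc (by omega)]
          omega

theorem Arr.init {V : Finset ℕ} (hw : Arr (n + 1) V w) : Arr n (V.erase (w n)) w := by
  refine ⟨hw.1.mono (fun x hx => ?_), ?_⟩
  · have : x < n := hx
    exact Set.mem_Iio.mpr (by omega)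
  · have hV : V = insert (w n) ((Finset.range n).image w) := by
      rw [← hw.2, Finset.range_add_one, Finset.image_insert]
    have hn : w n ∉ (Finset.range n).image w := by
      intro hmem
      obtain ⟨k, hk, hkn⟩ := Finset.mem_image.mp hmem
      have hk' := Finset.mem_range.mp hk
      have := hw.inj (show k < n + 1 by omega) (show n < n + 1 by omega) hkn
      omega
    rw [hV, Finset.erase_insert hn]

theorem Arr.snoc {V : Finset ℕ} {c : ℕ} (hc : c ∈ V) (hw : Arr n (V.erase c) w) :
    Arr (n + 1) V (Function.update w n c) := by
  have hlt : ∀ k, k < n → Function.update w n c k = w k := by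
    intro k hk
    rw [Function.update_of_ne (by omega)]
  have hne : ∀ k, k < n → w k ≠ c := by
    intro k hk
    exact (Finset.mem_erase.mp (hw.mem hk)).1
  constructor
  · intro x hx y hy hxy
    have hx' : x < n + 1 := hx
    have hy' : y < n + 1 := hy
    by_cases hxn : x = n
    · by_cases hyn : y = n
      · rw [hxn, hyn]
      · exfalso
        rw [hxn, Function.update_self, hlt y (by omega)] at hxy
        exact hne y (by omega) hxy.symm
    · by_cases hyn : y = n
      · exfalso
        rw [hyn, Function.update_self, hlt x (by omega)] at hxy
        exact hne x (by omega) hxy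
      · rw [hlt x (by omega), hlt y (by omega)] at hxy
        exact hw.inj (by omega) (by omega) hxy
  · rw [Finset.range_add_one, Finset.image_insert, Function.update_self,
      Finset.image_congr (g := w) (fun k hk => hlt k (Finset.mem_range.mp (by simpa using hk))),
      hw.2, Finset.insert_erase hc]

end H42.NC
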