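import Mathlib

/-!
# Type A model of the c-noncrossing weak order

Positions are `0, ..., n-1`, an arrangement is a function `w : ℕ → ℕ` which is injective on
positions `< n`; `L k = true` means that position `k` is a lower point, `false` upper.
The height at threshold `t` of the boundary `p` (the boundary between the positions `p-1` and `p`) is
`H L n w t p = ∑_{p ≤ k < n} ([w k < t] - [L k])`.
-/

namespace H42.NC

/-- contribution of position `k` to the height at threshold `t` -/
def chi (L : ℕ → Bool) (w : ℕ → ℕ) (t k : ℕ) : ℤ :=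
  (if w k < t then 1 else 0) - (if L k = true then 1 else 0)

/-- height at threshold `t` of the boundary left of position `p` -/
def H (L : ℕ → Bool) (n : ℕ) (w : ℕ → ℕ) (t p : ℕ) : ℤ :=
  ∑ k ∈ Finset.Ico p n, chi L w t k

/-- `w` is an arrangement of the set `V` on the positions `< n` -/
def Arr (n : ℕ) (V : Finset ℕ) (w : ℕ → ℕ) : Prop :=
  Set.InjOn w (Set.Iio n) ∧ (Finset.range n).image w = V

/-- the criterion for `w ≤ u` -/
def Cr (L : ℕ → Bool) (n : ℕ) (w u : ℕ → ℕ) : Prop :=
  ∀ x y, x < n → y < n → w x = u y →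
    (∀ q p, y < q → q ≤ p → p ≤ x → H L n w (w x) p + 1 ≤ H L n u (w x) q) ∧
    (∀ q p, x < q → q ≤ p → p ≤ y → H L n w (w x) q ≤ H L n u (w x) p)

/-- the pair of positions `i < j` is visible in `w` -/
def Vis (L : ℕ → Bool) (w : ℕ → ℕ) (i j : ℕ) : Prop :=
  i < j ∧ w i < w j ∧ ∀ k, i < k → k < j →
    (L k = true → w k < w i) ∧ (L k = false → w j < w k)

/-- exchange the values at positions `i` and `j` -/
def sw (w : ℕ → ℕ) (i j : ℕ) : ℕ → ℕ := fun k => w (Equiv.swap i j k)

/-- `n + 1` positions, last position `n`: the fibre of `c` can be reached from below by `w` -/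
def AvUp (L : ℕ → Bool) (n : ℕ) (w : ℕ → ℕ) (c : ℕ) : Prop :=
  ∀ x, x ≤ n → w x = c → c ≤ w n ∧ ∀ q, x < q → q ≤ n → H L n w c q ≤ 0

/-- `n + 1` positions, last position `n`: dual of `AvUp` -/
def AvDown (L : ℕ → Bool) (n : ℕ) (u : ℕ → ℕ) (c : ℕ) : Prop :=
  ∀ y, y ≤ n → u y = c → u n ≤ c ∧ ∀ q, y < q → q ≤ n → 0 ≤ H L n u c q

end H42.NC
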