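import Pool.Agent.H42.NC.Tele

/-!
# NCW B9: bounded kernel implies the condition (-)

* `exp_nonneg`: if `t ^ E ≤ C` for all `t ∈ (0, 1/2]` then `0 ≤ E`: otherwise `E ≤ -1` and
  `t ^ E ≥ t⁻¹` (for `t ≤ 1`), take `t = min (1/2) (1 / (|C| + 1))` or so.
* `down`: `n ≥ 1`, `Bd`: for each `p` there is `C` with `|Phi L n t u v p k| ≤ C` for all `t ∈ (0,1]`, `k < n`.
  Claim: for `z < n` and `v⁻¹ z < p ≤ k ≤ u⁻¹ z`: `0 ≤ Dx L n u v p z k`.
  - First `u k ≤ z`: by `Phi_down` (with `x = u k`) and `p ≤ k`, `upn_le`: `t ^ (upn p - upn k) ≤ 1`, all other terms are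
    `≤ 0`; so each of them is bounded: if `z = u k`: `t ^ Dx ≤ 1 + C`; if `z > u k` (then `k < u⁻¹ z`): `(1-t) t ^ Dx ≤ 1 + C`
    (single term `≤` sum of nonnegative terms, `Finset.single_le_sum`), so `t ^ Dx ≤ 2 (1 + C)` for `t ≤ 1/2`. Conclude by `exp_nonneg`.
  - `z < u k`: let `k'` be the least position `> k` with `u k' ≤ z` (exists, `≤ u⁻¹ z`). For
    `k ≤ j < k'` we have `u j > z`, so `chi L u (z+1) j ≤ 0` (`chi_le_zero_of_ge`) and by `H_split`
    `H L n u (z+1) k ≤ H L n u (z+1) k'`; so `Dx L n u v p z k ≥ Dx L n u v p z k' ≥ 0` by the first case.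
  (Induction on `u⁻¹ z - k` also works: if `z < u k` then `k < u⁻¹ z`, `H_step` and the statement for `k + 1`.)
-/

namespace H42.NC

/-- the kernel is bounded as `t → 0` -/
def Bd (L : ℕ → Bool) (n : ℕ) (u v : Equiv.Perm ℕ) : Prop :=
  ∀ p, ∃ C : ℝ, ∀ t : ℝ, 0 < t → t ≤ 1 → ∀ k < n, |Phi L n t u v p k| ≤ C

theorem exp_nonneg {E : ℤ} {C : ℝ} (h : ∀ t : ℝ, 0 < t → t ≤ 1 / 2 → t ^ E ≤ C) : 0 ≤ E := by
  by_contra hE
  have hE1 : E ≤ -1 := by omega
  have hC : 0 < |C| + 1 := by positivity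
  set t : ℝ := min (1 / 2) (1 / (|C| + 1)) with ht
  have ht0 : 0 < t := lt_min (by norm_num) (by positivity)
  have ht1 : t ≤ 1 / 2 := min_le_left _ _
  have ht2 : t ≤ 1 / (|C| + 1) := min_le_right _ _
  have h1 := h t ht0 ht1
  have h2 : t ^ (-1 : ℤ) ≤ t ^ E := zpow_le_zpow_right_of_le_one₀ ht0 (by linarith) hE1
  rw [zpow_neg_one] at h2
  have h3 : |C| + 1 ≤ t⁻¹ := by
    rw [le_inv_comm₀ hC ht0, ← one_div]
    exact ht2
  have h4 := le_abs_self C
  linarith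

private theorem down_inv (u : Equiv.Perm ℕ) (z : ℕ) : u (u⁻¹ z) = z := u.apply_symm_apply z

private theorem down_aux {L : ℕ → Bool} {n : ℕ} {u v : Equiv.Perm ℕ} (hu : Fix n u)
    (hv : Fix n v) {p : ℕ} {C : ℝ}
    (hC : ∀ t : ℝ, 0 < t → t ≤ 1 → ∀ k < n, |Phi L n t u v p k| ≤ C) {z k : ℕ} (hz : z < n)
    (h1 : v⁻¹ z < p) (h2 : p ≤ k) (h3 : k ≤ u⁻¹ z) (h4 : u k ≤ z) :
    0 ≤ Dx L n u v p z k := by
  have hun : u⁻¹ z < n := by
    by_contra hc
    have h4 := hu (u⁻¹ z) (not_lt.1 hc)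
    rw [down_inv] at h4
    omega
  have hkn : k < n := by omega
  have hup : 0 ≤ upn L n p - upn L n k := sub_nonneg.2 (upn_le L n h2)
  have hmain : ∀ t : ℝ, 0 < t → t ≤ 1 / 2 →
      (if v⁻¹ (u k) < p then t ^ (Dx L n u v p (u k) k) else 0)
      + (1 - t) * ∑ z ∈ (Finset.range n).filter (fun z => u k < z ∧ k < u⁻¹ z ∧ v⁻¹ z < p),
        t ^ (Dx L n u v p z k) ≤ 1 + C := by
    intro t ht0 ht1
    have h5 := hC t ht0 (by linarith) k hkn
    rw [Phi_down L ht0 hu hv p k hkn] at h5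
    have h6 := (abs_le.1 h5).1
    have h7 : t ^ (upn L n p - upn L n k) ≤ 1 := by
      have := zpow_le_zpow_right_of_le_one₀ ht0 (by linarith : t ≤ 1) hup
      rwa [zpow_zero] at this
    linarith
  have hsum0 : ∀ t : ℝ, 0 < t → 0 ≤ ∑ z ∈ (Finset.range n).filter
      (fun z => u k < z ∧ k < u⁻¹ z ∧ v⁻¹ z < p), t ^ (Dx L n u v p z k) := fun t ht0 =>
    Finset.sum_nonneg fun z _ => (zpow_pos ht0 _).le
  rcases eq_or_lt_of_le h4 with heq | hlt
  · refine exp_nonneg (C := 1 + C) fun t ht0 ht1 => ?_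
    have h5 := hmain t ht0 ht1
    rw [heq, if_pos h1] at h5
    have h6 := hsum0 t ht0
    rw [heq] at h6
    have h7 : 0 ≤ 1 - t := by linarith
    have h8 := mul_nonneg h7 h6
    linarith
  · refine exp_nonneg (C := 2 * (1 + C)) fun t ht0 ht1 => ?_
    have h5 := hmain t ht0 ht1
    have hk : k < u⁻¹ z := by
      rcases eq_or_lt_of_le h3 with he | hl
      · exfalso
        rw [he, down_inv] at hlt
        omega
      · exact hl
    have hmem : z ∈ (Finset.range n).filter (fun z => u k < z ∧ k < u⁻¹ z ∧ v⁻¹ z < p) :=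
      Finset.mem_filter.2 ⟨Finset.mem_range.2 hz, hlt, hk, h1⟩
    have h6 : t ^ (Dx L n u v p z k) ≤ ∑ z ∈ (Finset.range n).filter
        (fun z => u k < z ∧ k < u⁻¹ z ∧ v⁻¹ z < p), t ^ (Dx L n u v p z k) :=
      Finset.single_le_sum (f := fun z => t ^ (Dx L n u v p z k))
        (fun z _ => (zpow_pos ht0 _).le) hmem
    have h7 : 0 ≤ (if v⁻¹ (u k) < p then t ^ (Dx L n u v p (u k) k) else 0) := by
      split_ifs
      · exact (zpow_pos ht0 _).le
      · exact le_rfl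
    have h8 : (0 : ℝ) < t ^ (Dx L n u v p z k) := zpow_pos ht0 _
    have h9 := hsum0 t ht0
    nlinarith

theorem down {L : ℕ → Bool} {n : ℕ} {u v : Equiv.Perm ℕ} (hu : Fix n u) (hv : Fix n v)
    (hb : Bd L n u v) {z p k : ℕ} (hz : z < n) (h1 : v⁻¹ z < p) (h2 : p ≤ k) (h3 : k ≤ u⁻¹ z) :
    0 ≤ Dx L n u v p z k := by
  have hun : u⁻¹ z < n := by
    by_contra hc
    have h4 := hu (u⁻¹ z) (not_lt.1 hc)
    rw [down_inv] at h4
    omega
  obtain ⟨C, hC⟩ := hb p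
  have key : ∀ d k : ℕ, p ≤ k → k ≤ u⁻¹ z → u⁻¹ z - k = d → 0 ≤ Dx L n u v p z k := by
    intro d
    induction d with
    | zero =>
      intro k hpk hk hd
      have hku : k = u⁻¹ z := by omega
      have huk : u k = z := by rw [hku, down_inv]
      exact down_aux hu hv hC hz h1 hpk hk (le_of_eq huk)
    | succ d ih =>
      intro k hpk hk hd
      rcases le_or_gt (u k) z with hle | hgt
      · exact down_aux hu hv hC hz h1 hpk hk hle
      · have ih' := ih (k + 1) (by omega) (by omega) (by omega)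
        have h5 : H L n u (z + 1) k = chi L u (z + 1) k + H L n u (z + 1) (k + 1) :=
          H_step (by omega)
        have h6 : chi L u (z + 1) k ≤ 0 := chi_le_zero_of_ge hgt
        unfold Dx at ih' ⊢
        omega
  exact key _ k h2 h3 rfl

end H42.NC
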