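import Pool.Agent.H42.NC.Basic

/-!
Module NC-C10 (duality).  `M` is an upper bound of all values.  `dual M w k = M - w k`, labels are exchanged.
Key identity: for `t ≤ M` and arrangement values `≤ M`: `chi (dualL L) (dual M w) (M - t) k = - chi L w (t+1) k` for `k < n`
(`M - w k < M - t ↔ t < w k`), hence `H (dualL L) n (dual M w) (M - t) p = - H L n w (t+1) p`.
`Cr_dual`: for `x, y` with `w x = u y = v ≤ M`:  the second part of `Cr (dualL L) n (dual M u) (dual M w)` at `(y, x)`:
`y < q ≤ p ≤ x → -H u (v+1) q ≤ -H w (v+1) p`; since `p ≤ x`: `H w (v+1) p = H w v p + 1` (H_thr_of_le) and since `y < q`: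
`H u (v+1) q = H u v q` (H_thr_of_gt): this is the first part of `Cr L n w u`.  The first part at `(y, x)`:
`x < q ≤ p ≤ y → -H u (v+1) p + 1 ≤ -H w (v+1) q`, with `H u (v+1) p = H u v p + 1`, `H w (v+1) q = H w v q`: the second part.
`AvUp_dual`: `M - c ≤ M - u n ↔ u n ≤ c`; `H (dualL L) n (dual M u) (M - c) q = - H L n u (c+1) q = - H L n u c q` for `y < q` (positions `≥ q` have value `≠ c`;
use injectivity on `n + 1` positions restricted to `n`).
-/

namespace H42.NC

variable {L : ℕ → Bool} {n : ℕ} {w u : ℕ → ℕ}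

def dual (M : ℕ) (w : ℕ → ℕ) : ℕ → ℕ := fun k => M - w k

def dualL (L : ℕ → Bool) : ℕ → Bool := fun k => !L k

private theorem Dual_chi {M t k : ℕ} (hw : w k ≤ M) (ht : t ≤ M) :
    chi (dualL L) (dual M w) (M - t) k = -chi L w (t + 1) k := by
  unfold chi dualL dual
  have h1 : (M - w k < M - t) ↔ ¬ (w k < t + 1) := by omega
  by_cases h2 : w k < t + 1
  · rw [if_neg (fun h => (h1.1 h) h2), if_pos h2]
    cases hL : L k <;> simp
  · rw [if_pos (h1.2 h2), if_neg h2]
    cases hL : L k <;> simp

private theorem Dual_H {M t : ℕ} (hw : ∀ k < n, w k ≤ M) (ht : t ≤ M) (p : ℕ) :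
    H (dualL L) n (dual M w) (M - t) p = -H L n w (t + 1) p := by
  unfold H
  rw [← Finset.sum_neg_distrib]
  exact Finset.sum_congr rfl fun k hk => Dual_chi (hw k (Finset.mem_Ico.1 hk).2) ht

private theorem Dual_le {V : Finset ℕ} {M : ℕ} (hM : ∀ v ∈ V, v ≤ M) (hw : Arr n V w) :
    ∀ k < n, w k ≤ M := fun _ hk => hM _ (hw.mem hk)

/-- above the position of the value `c` the threshold does not matter (`n + 1` positions) -/
private theorem Dual_H' {V : Finset ℕ} {M : ℕ} (hM : ∀ v ∈ V, v ≤ M) (hw : Arr (n + 1) V w)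
    {c x q : ℕ} (hc : c ≤ M) (hx : x ≤ n) (hxc : w x = c) (hq : x < q) :
    H (dualL L) n (dual M w) (M - c) q = -H L n w c q := by
  rw [Dual_H (fun k hk => Dual_le hM hw k (by omega)) hc]
  congr 1
  apply H_thr_of_ne
  intro k hk1 hk2 h3
  have := hw.inj (x := k) (y := x) (by omega) (by omega) (by rw [h3, hxc])
  omega

theorem Arr.dual {V : Finset ℕ} {M : ℕ} (hM : ∀ v ∈ V, v ≤ M) (hw : Arr n V w) :
    Arr n (V.image (fun v => M - v)) (dual M w) := by
  have hle := Dual_le hM hw
  constructor
  · intro x hx y hy hxy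
    have h1 := hle x hx
    have h2 := hle y hy
    have h3 : M - w x = M - w y := hxy
    exact hw.1 hx hy (by omega)
  · rw [← hw.2, Finset.image_image]
    rfl

theorem Cr_dual {V : Finset ℕ} {M : ℕ} (hM : ∀ v ∈ V, v ≤ M) (hw : Arr n V w)
    (hu : Arr n V u) : Cr (dualL L) n (dual M u) (dual M w) ↔ Cr L n w u := by
  have hlw := Dual_le hM hw
  have hlu := Dual_le hM hu
  constructor
  · intro h x y hx hy hxy
    have e1 : M - u y = M - w x := by rw [hxy]
    obtain ⟨A, B⟩ := h y x hy hx e1
    have hv : w x ≤ M := hlw x hx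
    have ev : NC.dual M u y = M - w x := e1
    rw [ev] at A B
    constructor
    · intro q p hq hqp hp
      have h1 := B q p hq hqp hp
      rw [Dual_H hlu hv, Dual_H hlw hv, H_thr_of_gt hu.1 hy hxy.symm hq,
        H_thr_of_le hw.1 hx rfl hp] at h1
      omega
    · intro q p hq hqp hp
      have h1 := A q p hq hqp hp
      rw [Dual_H hlu hv, Dual_H hlw hv, H_thr_of_gt hw.1 hx rfl hq,
        H_thr_of_le hu.1 hy hxy.symm hp] at h1
      omega
  · intro h y x hy hx hxy
    have e0 : M - u y = M - w x := hxy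
    have hv : w x ≤ M := hlw x hx
    have hvu : u y ≤ M := hlu y hy
    have e1 : w x = u y := by omega
    obtain ⟨A, B⟩ := h x y hx hy e1
    have ev : NC.dual M u y = M - w x := e0
    rw [ev]
    constructor
    · intro q p hq hqp hp
      have h1 := B q p hq hqp hp
      rw [Dual_H hlu hv, Dual_H hlw hv, H_thr_of_gt hw.1 hx rfl hq,
        H_thr_of_le hu.1 hy e1.symm hp]
      omega
    · intro q p hq hqp hp
      have h1 := A q p hq hqp hp
      rw [Dual_H hlu hv, Dual_H hlw hv, H_thr_of_gt hu.1 hy e1.symm hq,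
        H_thr_of_le hw.1 hx rfl hp]
      omega

theorem AvUp_dual {V : Finset ℕ} {M : ℕ} (hM : ∀ v ∈ V, v ≤ M) (hu : Arr (n + 1) V u)
    {c : ℕ} (hc : c ∈ V) :
    AvUp (dualL L) n (dual M u) (M - c) ↔ AvDown L n u c := by
  have hlu := Dual_le hM hu
  have hcM := hM c hc
  have hn := hlu n (by omega)
  constructor
  · intro h x hx hxc
    have e : NC.dual M u x = M - c := by unfold NC.dual; rw [hxc]
    obtain ⟨A, B⟩ := h x hx e
    have A' : M - c ≤ M - u n := A
    refine ⟨by omega, fun q hq hqn => ?_⟩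
    have h1 := B q hq hqn
    rw [Dual_H' hM hu hcM hx hxc hq] at h1
    omega
  · intro h x hx hxc
    have hxM := hlu x (by omega)
    have e : M - u x = M - c := hxc
    have hxc' : u x = c := by omega
    obtain ⟨A, B⟩ := h x hx hxc'
    constructor
    · change M - c ≤ M - u n
      omega
    · intro q hq hqn
      have h1 := B q hq hqn
      rw [Dual_H' hM hu hcM hx hxc' hq]
      omega

theorem AvDown_dual {V : Finset ℕ} {M : ℕ} (hM : ∀ v ∈ V, v ≤ M) (hw : Arr (n + 1) V w)
    {c : ℕ} (hc : c ∈ V) :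
    AvDown (dualL L) n (dual M w) (M - c) ↔ AvUp L n w c := by
  have hlw := Dual_le hM hw
  have hcM := hM c hc
  have hn := hlw n (by omega)
  constructor
  · intro h x hx hxc
    have e : NC.dual M w x = M - c := by unfold NC.dual; rw [hxc]
    obtain ⟨A, B⟩ := h x hx e
    have A' : M - w n ≤ M - c := A
    refine ⟨by omega, fun q hq hqn => ?_⟩
    have h1 := B q hq hqn
    rw [Dual_H' hM hw hcM hx hxc hq] at h1
    omega
  · intro h x hx hxc
    have hxM := hlw x (by omega)
    have e : M - w x = M - c := hxc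
    have hxc' : w x = c := by omega
    obtain ⟨A, B⟩ := h x hx hxc'
    constructor
    · change M - w n ≤ M - c
      omega
    · intro q hq hqn
      have h1 := B q hq hqn
      rw [Dual_H' hM hw hcM hx hxc' hq]
      omega

/-- double dual -/
theorem dual_dual_apply {V : Finset ℕ} {M : ℕ} (hM : ∀ v ∈ V, v ≤ M) (hw : Arr n V w)
    {k : ℕ} (hk : k < n) : dual M (dual M w) k = w k := by
  have := Dual_le hM hw k hk
  unfold dual
  omega

theorem dualL_dualL (L : ℕ → Bool) : dualL (dualL L) = L := by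
  funext k
  unfold dualL
  simp

theorem image_image {V : Finset ℕ} {M : ℕ} (hM : ∀ v ∈ V, v ≤ M) :
    (V.image (fun v => M - v)).image (fun v => M - v) = V := by
  rw [Finset.image_image]
  ext v
  simp only [Finset.mem_image, Function.comp]
  constructor
  · rintro ⟨a, ha, rfl⟩
    have := hM a ha
    have e : M - (M - a) = a := by omega
    rw [e]
    exact ha
  · intro hv
    have := hM v hv
    exact ⟨v, hv, by omega⟩

end H42.NC
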