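import Pool.Agent.H42.NC.Main

/-!
# Heights on `Fin (m + 1)`
-/

namespace H42.NC

variable {m : ℕ}

theorem idxOf_val (c : List (Fin m)) (i : Fin m) : (c.map Fin.val).idxOf i.val = c.idxOf i := by
  induction c with
  | nil => simp
  | cons a l ih =>
    simp only [List.map_cons, List.idxOf_cons]
    by_cases h : a = i
    · subst h; simp
    · have h' : ¬ a.val = i.val := fun h'' => h (Fin.ext h'')
      rw [ih, beq_false_of_ne h, beq_false_of_ne h']

theorem lab_iff {c : List (Fin m)} (hc' : ∀ i, i ∈ c) (k : Fin (m + 1)) :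
    labF c k.val = true ↔ ∃ i j : Fin m, i.val = k.val ∧ j.val + 1 = k.val ∧
      c.idxOf i < c.idxOf j := by
  unfold labF lab
  rw [decide_eq_true_iff]
  constructor
  · intro h
    have hk0 : k.val ≠ 0 := by
      intro h0
      rw [h0] at h
      exact lt_irrefl _ h
    have hkm : k.val < m := by
      by_contra hcon
      have : k.val ∉ c.map Fin.val := by
        rw [mem_map_val hc']
        exact hcon
      rw [List.idxOf_eq_length this] at h
      have := List.idxOf_le_length (a := k.val - 1) (l := c.map Fin.val)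
      omega
    refine ⟨⟨k.val, hkm⟩, ⟨k.val - 1, by omega⟩, rfl, by simp; omega, ?_⟩
    rw [← idxOf_val, ← idxOf_val]
    exact h
  · rintro ⟨i, j, hi, hj, h⟩
    rw [← idxOf_val, ← idxOf_val, hi] at h
    have : k.val - 1 = j.val := by omega
    rw [this]
    exact h

open Classical in
theorem H_eq {c : List (Fin m)} (hc' : ∀ i, i ∈ c) (w : Equiv.Perm (Fin (m + 1)))
    (t : Fin (m + 1)) (p : ℕ) :
    H (labF c) (m + 1) (E m w) t.val p =
      ((Finset.univ.filter (fun k : Fin (m + 1) => p ≤ k.val ∧ w k < t)).card : ℤ) -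
      ((Finset.univ.filter (fun k : Fin (m + 1) => p ≤ k.val ∧
        ∃ i j : Fin m, i.val = k.val ∧ j.val + 1 = k.val ∧
          c.idxOf i < c.idxOf j)).card : ℤ) := by
  have h1 : H (labF c) (m + 1) (E m w) t.val p =
      ∑ k ∈ Finset.range (m + 1), (if p ≤ k then chi (labF c) (E m w) t.val k else 0) := by
    unfold H
    rw [← Finset.sum_filter]
    apply Finset.sum_congr _ (fun _ _ => rfl)
    ext k
    simp only [Finset.mem_Ico, Finset.mem_filter, Finset.mem_range]
    exact and_comm
  rw [h1, Finset.sum_range, Finset.card_filter, Finset.card_filter]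
  push_cast
  rw [← Finset.sum_sub_distrib]
  apply Finset.sum_congr rfl
  intro k _
  have h2 : (E m w k.val < t.val) ↔ w k < t := by
    rw [E_lt w k.val k.2]
    exact Iff.rfl
  have h3 := lab_iff hc' k
  by_cases hp : p ≤ k.val
  · simp only [hp, true_and, if_true]
    unfold chi
    simp only [h2, h3]
  · simp [hp]

end H42.NC
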