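import Pool.Agent.H42.NC.Rep

/-!
# NCW B6: the image of the vectors `gh p`

Here `n = m + 1`, positions `0..m`, and `B i a = burF L t i a`, `t > 0`.
Claim: `Lf m B v g → ∀ p, g (gh L (m+1) t p) = Psi L (m+1) t v p`, by induction on `Lf`.

* `v = 1`: `Psi 1 p x = t ^ (H 1 (x+1) p - H 1 (x+1) x)` for `p ≤ x < n`; by `H_split`
  the exponent is `∑ k ∈ Ico p x, chi L 1 (x+1) k = ∑ k ∈ Ico p x, (1 - [L k])`, so the power is `∏ k ∈ Ico p x, be L t k`
  (induction on `x`, or `Finset.prod` of powers: `be L t k = t ^ (1 - [L k])`).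
* Step: `v' = v * swap i (i+1)`, `g' = g * B i`, `v i = x < y = v (i+1)`. Then `g' (gh p) = g (burF L t i (gh p))` and
  - `p ≤ i` or `i + 2 ≤ p`: `burF L t i (gh p) = gh p` (for `p ≤ i`: `gh p (i+1) = be i * gh p i`, so
    `(1-t) a i + al i * be i * a i = a i`). Also `Psi v' p = Psi v p` : `H L n v' t' p = H L n v t' p`
    (by `H_sw`, the correction needs `i < p ≤ i + 1`) and `p ≤ v'⁻¹ z ↔ p ≤ v⁻¹ z` (`v'⁻¹ z = swap i (i+1) (v⁻¹ z)`).
  - `p = i + 1`: `burF L t i (gh (i+1)) = al i • gh i - t • gh (i+1) + be (i+1) • gh (i+2)` (check at `k = i`, `i+1`, `k ≥ i+2`,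
    also when `i + 2 = n`: then `gh (i+2) = 0`). By induction the image is
    `al i • Psi v i - t • Psi v (i+1) + be (i+1) • Psi v (i+2)` and we must see that this is `Psi v' (i+1)`. At `z < n`, with
    `P = v⁻¹ z`, `S = H L n v (z+1) (i+1)`, `H L n v (z+1) i = S + [x ≤ z] - [L i]`, `H L n v (z+1) (i+2) = S - [y ≤ z] + [L (i+1)]`
    (if `i + 1 < n`: `H_step`), `H L n v' (z+1) (i+1) = S + [x ≤ z < y]` (`H_sw`), `al i = t ^ [L i]`, `be (i+1) = t ^ (1 - [L (i+1)])`. So up to the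
    common factor `t ^ (S - H 1 (z+1) z)` the three terms are `t ^ [x ≤ z]` (if `i ≤ P`), `- t` (if `i + 1 ≤ P`),
    `t ^ (1 - [y ≤ z])` (if `i + 2 ≤ P`), and the goal is `t ^ [x ≤ z < y]` if `i + 1 ≤ swap i (i+1) P`, i.e. if `P = i` or `P ≥ i + 2`. Cases: `P < i`: all
    zero. `P = i`: `z = x`, `t = t`. `P = i + 1`: `z = y`, `t - t = 0`. `P ≥ i + 2`: `z < x`: `1 - t + t = 1`;
    `x < z < y`: `t - t + t = t`; `y < z`: `t - t + 1 = 1` (`z ≠ x, y` since `P ≠ i, i+1`).
-/

namespace H42.NC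

variable {m : ℕ}

private theorem gf_zpow_sum {t : ℝ} (ht : 0 < t) (s : Finset ℕ) (f : ℕ → ℤ) :
    t ^ (∑ k ∈ s, f k) = ∏ k ∈ s, t ^ f k := by
  classical
  induction s using Finset.induction_on with
  | empty => simp
  | insert a s ha ih =>
    rw [Finset.sum_insert ha, Finset.prod_insert ha, zpow_add₀ ht.ne', ih]

private theorem gf_one (L : ℕ → Bool) {t : ℝ} (ht : 0 < t) (n p : ℕ) :
    gh L n t p = Psi L n t 1 p := by
  funext x
  unfold gh Psi
  by_cases h : p ≤ x ∧ x < n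
  · have h' : x < n ∧ p ≤ (1 : Equiv.Perm ℕ)⁻¹ x := by simpa using ⟨h.2, h.1⟩
    rw [if_pos h, if_pos h', H_split h.1 h.2.le, add_sub_cancel_right, gf_zpow_sum ht]
    refine Finset.prod_congr rfl fun k hk => ?_
    have hk' := Finset.mem_Ico.1 hk
    have h1 : (1 : Equiv.Perm ℕ) k < x + 1 := by
      simp only [Equiv.Perm.coe_one, id_eq]
      omega
    unfold chi be
    rw [if_pos h1]
    by_cases hL : L k = true
    · simp [hL]
    · simp [hL]
  · have h' : ¬ (x < n ∧ p ≤ (1 : Equiv.Perm ℕ)⁻¹ x) := by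
      intro hc
      apply h
      have := hc.2
      simp only [inv_one, Equiv.Perm.coe_one, id_eq] at this
      exact ⟨this, hc.1⟩
    rw [if_neg h, if_neg h']

private theorem gf_gh_succ (L : ℕ → Bool) (n : ℕ) (t : ℝ) {p k : ℕ} (hp : p < k) (hk : k < n) :
    gh L n t p k = be L t p * gh L n t (p + 1) k := by
  unfold gh
  rw [if_pos ⟨hp.le, hk⟩, if_pos ⟨hp, hk⟩, Finset.prod_eq_prod_Ico_succ_bot hp]

private theorem gf_gh_self (L : ℕ → Bool) (n : ℕ) (t : ℝ) {p : ℕ} (hp : p < n) :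
    gh L n t p p = 1 := by
  unfold gh
  rw [if_pos ⟨le_rfl, hp⟩]
  simp

private theorem gf_gh_lt (L : ℕ → Bool) (n : ℕ) (t : ℝ) {p k : ℕ} (hk : k < p) :
    gh L n t p k = 0 := by
  unfold gh
  rw [if_neg (by omega)]

private theorem gf_gh_ge (L : ℕ → Bool) (n : ℕ) (t : ℝ) {p k : ℕ} (hk : n ≤ k) :
    gh L n t p k = 0 := by
  unfold gh
  rw [if_neg (by omega)]

private theorem gf_gh_top (L : ℕ → Bool) (n : ℕ) (t : ℝ) {p k : ℕ} (hpk : p ≤ k)
    (hk : k + 1 < n) : gh L n t p (k + 1) = be L t k * gh L n t p k := by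
  unfold gh
  rw [if_pos ⟨by omega, hk⟩, if_pos ⟨hpk, by omega⟩, Finset.prod_Ico_succ_top hpk, mul_comm]

private theorem gf_albe (L : ℕ → Bool) (t : ℝ) (i : ℕ) : al L t i * be L t i = t := by
  unfold al be
  by_cases hL : L i = true <;> simp [hL]

private theorem gf_bur_le (L : ℕ → Bool) (n : ℕ) (t : ℝ) {i p : ℕ} (hi : i + 1 < n)
    (hp : p ≤ i ∨ i + 2 ≤ p) : burF L t i (gh L n t p) = gh L n t p := by
  funext k
  unfold burF
  rcases hp with hp | hp
  · by_cases h1 : k = i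
    · subst h1
      rw [if_pos rfl, gf_gh_top L n t hp hi]
      have := gf_albe L t k
      linear_combination (gh L n t p k) * this
    · rw [if_neg h1]
      by_cases h2 : k = i + 1
      · subst h2
        rw [if_pos rfl, gf_gh_top L n t hp hi]
      · rw [if_neg h2]
  · by_cases h1 : k = i
    · subst h1
      rw [if_pos rfl, gf_gh_lt L n t (by omega : k < p), gf_gh_lt L n t (by omega : k + 1 < p)]
      ring
    · rw [if_neg h1]
      by_cases h2 : k = i + 1
      · subst h2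
        rw [if_pos rfl, gf_gh_lt L n t (by omega : i < p), gf_gh_lt L n t (by omega : i + 1 < p)]
        ring
      · rw [if_neg h2]

private theorem gf_bur_eq (L : ℕ → Bool) (n : ℕ) (t : ℝ) {i : ℕ} (hi : i + 1 < n) :
    burF L t i (gh L n t (i + 1)) = al L t i • gh L n t i - t • gh L n t (i + 1) +
      be L t (i + 1) • gh L n t (i + 2) := by
  funext k
  simp only [Pi.add_apply, Pi.sub_apply, Pi.smul_apply, smul_eq_mul]
  unfold burF
  have hab := gf_albe L t i
  by_cases h1 : k = i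
  · subst h1
    rw [if_pos rfl, gf_gh_lt L n t (by omega : k < k + 1), gf_gh_self L n t hi,
      gf_gh_self L n t (by omega : k < n), gf_gh_lt L n t (by omega : k < k + 2)]
    ring
  · rw [if_neg h1]
    by_cases h2 : k = i + 1
    · subst h2
      rw [if_pos rfl, gf_gh_lt L n t (by omega : i < i + 1), gf_gh_self L n t hi,
        gf_gh_succ L n t (by omega : i < i + 1) hi, gf_gh_self L n t hi,
        gf_gh_lt L n t (by omega : i + 1 < i + 2)]
      linear_combination -hab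
    · rw [if_neg h2]
      by_cases h3 : k < i
      · rw [gf_gh_lt L n t (by omega : k < i + 1), gf_gh_lt L n t h3,
          gf_gh_lt L n t (by omega : k < i + 2)]
        ring
      · by_cases h4 : k < n
        · rw [gf_gh_succ L n t (by omega : i < k) h4, gf_gh_succ L n t (by omega : i + 1 < k) h4]
          linear_combination (-(be L t (i + 1) * gh L n t (i + 2) k)) * hab
        · rw [gf_gh_ge L n t (by omega : n ≤ k), gf_gh_ge L n t (by omega : n ≤ k),
            gf_gh_ge L n t (by omega : n ≤ k)]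
          ring

private theorem gf_coe (v : Equiv.Perm ℕ) (i : ℕ) :
    (⇑(v * Equiv.swap i (i + 1)) : ℕ → ℕ) = sw v i (i + 1) := rfl

private theorem gf_inv (v : Equiv.Perm ℕ) (i z : ℕ) :
    (v * Equiv.swap i (i + 1))⁻¹ z = Equiv.swap i (i + 1) (v⁻¹ z) := by
  rw [mul_inv_rev, Equiv.swap_inv, Equiv.Perm.mul_apply]

private theorem gf_swap_le {i p P : ℕ} (hp : p ≤ i ∨ i + 2 ≤ p) :
    p ≤ Equiv.swap i (i + 1) P ↔ p ≤ P := by
  rw [Equiv.swap_apply_def]
  split_ifs <;> omega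

private theorem gf_Psi_le (L : ℕ → Bool) (n : ℕ) (t : ℝ) (v : Equiv.Perm ℕ) {i p : ℕ}
    (hi : i + 1 < n) (hv : v i < v (i + 1)) (hp : p ≤ i ∨ i + 2 ≤ p) :
    Psi L n t (v * Equiv.swap i (i + 1)) p = Psi L n t v p := by
  funext z
  unfold Psi
  have h0 : ¬ (i < p ∧ p ≤ i + 1 ∧ v i < z + 1 ∧ z + 1 ≤ v (i + 1)) := by omega
  have h1 := H_sw (L := L) (w := v) (t := z + 1) (p := p) (Nat.lt_succ_self i) hi hv
  rw [if_neg h0, add_zero] at h1
  rw [gf_inv, gf_coe, h1]
  simp only [gf_swap_le hp]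

private theorem gf_Psi_eq (L : ℕ → Bool) (n : ℕ) {t : ℝ} (ht : 0 < t) (v : Equiv.Perm ℕ) {i : ℕ}
    (hi : i + 1 < n) (hv : v i < v (i + 1)) :
    Psi L n t (v * Equiv.swap i (i + 1)) (i + 1) = al L t i • Psi L n t v i -
      t • Psi L n t v (i + 1) + be L t (i + 1) • Psi L n t v (i + 2) := by
  funext z
  simp only [Pi.add_apply, Pi.sub_apply, Pi.smul_apply, smul_eq_mul]
  unfold Psi
  have hsw := H_sw (L := L) (w := v) (t := z + 1) (p := i + 1) (Nat.lt_succ_self i) hi hv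
  rw [gf_inv, gf_coe, hsw]
  by_cases hz : z < n
  swap
  · simp [hz]
  have hP : v (v⁻¹ z) = z := by simp
  generalize hPd : v⁻¹ z = P at hP
  generalize hc : H L n (1 : Equiv.Perm ℕ) (z + 1) z = c
  generalize hS : H L n v (z + 1) (i + 1) = S
  have h1 : H L n v (z + 1) i = chi L v (z + 1) i + S := by
    rw [H_step (by omega : i < n), hS]
  have h2 : H L n v (z + 1) (i + 2) = S - chi L v (z + 1) (i + 1) := by
    have := H_step (L := L) (w := v) (t := z + 1) hi
    rw [hS] at this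
    rw [this]
    ring
  have htn : t ≠ 0 := ht.ne'
  have e1 : al L t i * t ^ (chi L v (z + 1) i) = t ^ (if v i < z + 1 then (1 : ℤ) else 0) := by
    unfold al chi
    by_cases hL : L i = true
    · rw [if_pos hL, if_pos hL]
      nth_rewrite 1 [← zpow_one t]
      rw [← zpow_add₀ htn]
      congr 1
      ring
    · rw [if_neg hL, if_neg hL, one_mul, sub_zero]
  have e2 : be L t (i + 1) * t ^ (-chi L v (z + 1) (i + 1)) =
      t ^ (1 - (if v (i + 1) < z + 1 then (1 : ℤ) else 0)) := by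
    unfold be chi
    by_cases hL : L (i + 1) = true
    · rw [if_pos hL, if_pos hL, one_mul]
      congr 1
      ring
    · rw [if_neg hL, if_neg hL]
      nth_rewrite 1 [← zpow_one t]
      rw [← zpow_add₀ htn]
      congr 1
      ring
  have f1 : al L t i * t ^ (H L n v (z + 1) i - c) =
      t ^ (if v i < z + 1 then (1 : ℤ) else 0) * t ^ (S - c) := by
    rw [h1, ← e1, add_sub_assoc, zpow_add₀ htn]
    ring
  have f2 : be L t (i + 1) * t ^ (H L n v (z + 1) (i + 2) - c) =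
      t ^ (1 - (if v (i + 1) < z + 1 then (1 : ℤ) else 0)) * t ^ (S - c) := by
    have h3 : H L n v (z + 1) (i + 2) - c = -chi L v (z + 1) (i + 1) + (S - c) := by
      rw [h2]
      ring
    rw [h3, ← e2, zpow_add₀ htn]
    ring
  have q0 : ∀ a b : ℤ, ∀ q : Prop, [Decidable q] → q → (if q then a else b) = a :=
    fun a b q _ hq => if_pos hq
  have q1 : ∀ a b : ℤ, ∀ q : Prop, [Decidable q] → ¬ q → (if q then a else b) = b :=
    fun a b q _ hq => if_neg hq
  rcases lt_trichotomy P i with h | h | h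
  · have g1 : Equiv.swap i (i + 1) P = P := Equiv.swap_apply_of_ne_of_ne (by omega) (by omega)
    rw [g1, if_neg (by omega : ¬ (z < n ∧ i + 1 ≤ P)), if_neg (by omega : ¬ (z < n ∧ i ≤ P)),
      if_neg (by omega : ¬ (z < n ∧ i + 1 ≤ P)), if_neg (by omega : ¬ (z < n ∧ i + 2 ≤ P))]
    ring
  · subst h
    rw [Equiv.swap_apply_left, if_pos (by omega : z < n ∧ P + 1 ≤ P + 1),
      if_pos (by omega : z < n ∧ P ≤ P), if_neg (by omega : ¬ (z < n ∧ P + 1 ≤ P)),
      if_neg (by omega : ¬ (z < n ∧ P + 2 ≤ P)), f1,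
      q0 _ _ (P < P + 1 ∧ P + 1 ≤ P + 1 ∧ v P < z + 1 ∧ z + 1 ≤ v (P + 1)) (by omega),
      q0 _ _ (v P < z + 1) (by omega)]
    have h3 : S + 1 - c = 1 + (S - c) := by ring
    rw [h3, zpow_add₀ htn]
    ring
  · by_cases h' : P = i + 1
    · subst h'
      rw [Equiv.swap_apply_right, if_neg (by omega : ¬ (z < n ∧ i + 1 ≤ i)),
        if_pos (by omega : z < n ∧ i ≤ i + 1), if_pos (by omega : z < n ∧ i + 1 ≤ i + 1),
        if_neg (by omega : ¬ (z < n ∧ i + 2 ≤ i + 1)), f1, q0 _ _ (v i < z + 1) (by omega)]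
      rw [zpow_one]
      ring
    · have g1 : Equiv.swap i (i + 1) P = P := Equiv.swap_apply_of_ne_of_ne (by omega) (by omega)
      have g2 : z ≠ v i := by
        rw [← hP]
        intro hh
        have := v.injective hh
        omega
      have g3 : z ≠ v (i + 1) := by
        rw [← hP]
        intro hh
        have := v.injective hh
        omega
      rw [g1, if_pos (⟨hz, by omega⟩ : z < n ∧ i + 1 ≤ P),
        if_pos (⟨hz, by omega⟩ : z < n ∧ i ≤ P), if_pos (⟨hz, by omega⟩ : z < n ∧ i + 1 ≤ P),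
        if_pos (⟨hz, by omega⟩ : z < n ∧ i + 2 ≤ P), f1, f2]
      by_cases k1 : z < v i
      · rw [q1 _ _ (i < i + 1 ∧ i + 1 ≤ i + 1 ∧ v i < z + 1 ∧ z + 1 ≤ v (i + 1)) (by omega),
          q1 _ _ (v i < z + 1) (by omega), q1 _ _ (v (i + 1) < z + 1) (by omega)]
        simp only [add_zero, zpow_zero, sub_zero, zpow_one]
        ring
      · by_cases k2 : z < v (i + 1)
        · rw [q0 _ _ (i < i + 1 ∧ i + 1 ≤ i + 1 ∧ v i < z + 1 ∧ z + 1 ≤ v (i + 1)) (by omega),
            q0 _ _ (v i < z + 1) (by omega), q1 _ _ (v (i + 1) < z + 1) (by omega)]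
          have h3 : S + 1 - c = 1 + (S - c) := by ring
          rw [h3, zpow_add₀ htn]
          simp only [sub_zero, zpow_one]
          ring
        · rw [q1 _ _ (i < i + 1 ∧ i + 1 ≤ i + 1 ∧ v i < z + 1 ∧ z + 1 ≤ v (i + 1)) (by omega),
            q0 _ _ (v i < z + 1) (by omega), q0 _ _ (v (i + 1) < z + 1) (by omega)]
          simp only [add_zero, sub_self, zpow_zero, zpow_one]
          ring

theorem gform (L : ℕ → Bool) {t : ℝ} (ht : 0 < t) {B : ℕ → ((ℕ → ℝ) ≃ₗ[ℝ] (ℕ → ℝ))}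
    (hB : ∀ i a, B i a = burF L t i a) {v : Equiv.Perm ℕ} {g : (ℕ → ℝ) ≃ₗ[ℝ] (ℕ → ℝ)}
    (h : Lf m B v g) (p : ℕ) : g (gh L (m + 1) t p) = Psi L (m + 1) t v p := by
  induction h generalizing p with
  | one => exact gf_one L ht (m + 1) p
  | @step w g i hw hi hlt ih =>
    rw [LinearEquiv.mul_apply, hB]
    by_cases hp : p = i + 1
    · subst hp
      rw [gf_bur_eq L (m + 1) t (by omega : i + 1 < m + 1), map_add, map_sub, map_smul, map_smul,
        map_smul, ih, ih, ih, gf_Psi_eq L (m + 1) ht w (by omega) hlt]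
    · have hp' : p ≤ i ∨ i + 2 ≤ p := by omega
      rw [gf_bur_le L (m + 1) t (by omega : i + 1 < m + 1) hp', ih,
        gf_Psi_le L (m + 1) t w (by omega) hlt hp']

end H42.NC
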