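import Pool.Agent.H42.NC.BDefs

/-!
# NCW B1: inversions and existence of lifts

Everything is about `w : Equiv.Perm ℕ` with `Fix (m + 1) w` (so positions are `0..m`).

* `Fix.lt_iff`: if `k < n` and `w k ≥ n`, then `w (w k) = w k`, so `w k = k`, contradiction; conversely
  `k ≥ n` gives `w k = k ≥ n`.
* `Lf.fix`: induction; `Equiv.swap i (i+1)` fixes `k ≥ m + 1`.
* `Arr_of_fix`: injective, and the image of `range n` is `range n` (`Finset.eq_of_subset_of_card_le` or use `w⁻¹`,
  which also satisfies `Fix n`).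
* `fix_ext`: two permutations which agree on `k < n` and fix the rest are equal.
* `inv_mul_swap`: the map `(a, b) ↦ (σ a, σ b)`, `σ = swap i (i+1)`, is a bijection from the inversions of
  `w` to the inversions of `w * σ` other than `(i, i+1)`, because for `a < b`, `(a,b) ≠ (i,i+1)` we have `σ a < σ b`
  (here `(i,i+1)` is not an inversion of `w`, and it is one of `w * σ`). E.g. show
  `invset (w*σ) = insert (i,i+1) ((invset w).image (fun p => (σ p.1, σ p.2)))` and use `Finset.card_insert_of_notMem`,
  `Finset.card_image_of_injective`.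
* `exists_Lf`: strong induction on `inv (m+1) w`. If there is `i < m` with `w (i+1) < w i`, put
  `w' = w * swap i (i+1)`; `w' i = w (i+1) < w i = w' (i+1)`, `w' * swap i (i+1) = w`, so by `inv_mul_swap` (for `w'`)
  `inv w = inv w' + 1`, and `Lf.step` applies. Otherwise `w i < w (i+1)` for all `i < m`, so `w` is strictly increasing
  on `0..m`, maps `0..m` to itself, hence `w k = k` for `k ≤ m` (`k ≤ w k` by induction, and
  then `w k ≤ k` by downward induction / or `m - k ≤ m - w k`), so `w = 1`.
* `inv_one`, `Lf.inv_pos`: `inv 1 = 0`.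
-/

namespace H42.NC

variable {G : Type*} [Group G] {m n : ℕ} {s : ℕ → G}

theorem Fix.lt_iff {w : Equiv.Perm ℕ} (h : Fix n w) (k : ℕ) : w k < n ↔ k < n := by
  constructor
  · intro h1
    by_contra h2
    rw [h k (by omega)] at h1
    exact h2 h1
  · intro h1
    by_contra h2
    have h3 := h (w k) (by omega)
    have h4 := w.injective h3
    omega

theorem Fix.inv' {w : Equiv.Perm ℕ} (h : Fix n w) : Fix n w⁻¹ := by
  intro k hk
  rw [Equiv.Perm.inv_eq_iff_eq]
  exact (h k hk).symm

theorem Fix.mul_swap {w : Equiv.Perm ℕ} (h : Fix n w) {i j : ℕ} (hi : i < n) (hj : j < n) :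
    Fix n (w * Equiv.swap i j) := by
  intro k hk
  rw [Equiv.Perm.mul_apply, Equiv.swap_apply_of_ne_of_ne (by omega) (by omega)]
  exact h k hk

theorem fix_one : Fix n (1 : Equiv.Perm ℕ) := fun _ _ => rfl

theorem fix_ext {w u : Equiv.Perm ℕ} (hw : Fix n w) (hu : Fix n u) (h : ∀ k < n, w k = u k) :
    w = u := by
  ext k
  by_cases hk : k < n
  · exact h k hk
  · rw [hw k (by omega), hu k (by omega)]

theorem Arr_of_fix {w : Equiv.Perm ℕ} (h : Fix n w) : Arr n (Finset.range n) w := by
  refine ⟨w.injective.injOn, ?_⟩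
  ext x
  rw [Finset.mem_image, Finset.mem_range]
  constructor
  · rintro ⟨k, hk, rfl⟩
    exact (h.lt_iff k).2 (Finset.mem_range.1 hk)
  · intro hx
    refine ⟨w⁻¹ x, Finset.mem_range.2 ((h.inv'.lt_iff x).2 hx), ?_⟩
    exact Equiv.apply_symm_apply w x

theorem sw_eq (w : Equiv.Perm ℕ) (i j : ℕ) : sw w i j = ⇑(w * Equiv.swap i j) := rfl

theorem Lf.fix {w : Equiv.Perm ℕ} {g : G} (h : Lf m s w g) : Fix (m + 1) w := by
  induction h with
  | one => exact fix_one
  | step _ hi _ ih => exact ih.mul_swap (by omega) (by omega)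

theorem inv_one : inv n 1 = 0 := by
  unfold inv
  rw [Finset.card_eq_zero, Finset.filter_eq_empty_iff]
  rintro p _ ⟨h1, h2⟩
  rw [Equiv.Perm.one_apply, Equiv.Perm.one_apply] at h2
  omega

private theorem Inv_swap_lt {i a b : ℕ} (h : a < b) (h2 : ¬ (a = i ∧ b = i + 1)) :
    Equiv.swap i (i + 1) a < Equiv.swap i (i + 1) b := by
  rw [Equiv.swap_apply_def, Equiv.swap_apply_def]
  split_ifs <;> omega

private theorem Inv_swap_bd {i a m : ℕ} (hi : i < m) :
    Equiv.swap i (i + 1) a < m + 1 ↔ a < m + 1 := by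
  rw [Equiv.swap_apply_def]
  split_ifs <;> omega

theorem inv_mul_swap {w : Equiv.Perm ℕ} {i : ℕ} (hi : i < m) (h : w i < w (i + 1)) :
    inv (m + 1) (w * Equiv.swap i (i + 1)) = inv (m + 1) w + 1 := by
  have hσσ : ∀ a, Equiv.swap i (i + 1) (Equiv.swap i (i + 1) a) = a :=
    fun a => Equiv.swap_apply_self i (i + 1) a
  have hmem : ∀ (u : Equiv.Perm ℕ) (p : ℕ × ℕ),
      p ∈ (Finset.range (m + 1) ×ˢ Finset.range (m + 1)).filter
        (fun p => p.1 < p.2 ∧ u p.2 < u p.1) ↔
      (p.1 < m + 1 ∧ p.2 < m + 1) ∧ p.1 < p.2 ∧ u p.2 < u p.1 := by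
    intro u p
    rw [Finset.mem_filter, Finset.mem_product, Finset.mem_range, Finset.mem_range]
  have hinj : Function.Injective
      (fun p : ℕ × ℕ => (Equiv.swap i (i + 1) p.1, Equiv.swap i (i + 1) p.2)) := by
    rintro ⟨a, b⟩ ⟨a', b'⟩ h1
    have h2 := (Prod.mk.injEq _ _ _ _ ▸ h1)
    exact Prod.ext ((Equiv.swap i (i + 1)).injective h2.1) ((Equiv.swap i (i + 1)).injective h2.2)
  have hset : (Finset.range (m + 1) ×ˢ Finset.range (m + 1)).filter
        (fun p => p.1 < p.2 ∧ (w * Equiv.swap i (i + 1)) p.2 < (w * Equiv.swap i (i + 1)) p.1) =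
      insert (i, i + 1) (((Finset.range (m + 1) ×ˢ Finset.range (m + 1)).filter
        (fun p => p.1 < p.2 ∧ w p.2 < w p.1)).image
          (fun p : ℕ × ℕ => (Equiv.swap i (i + 1) p.1, Equiv.swap i (i + 1) p.2))) := by
    ext ⟨a, b⟩
    rw [hmem, Finset.mem_insert, Finset.mem_image]
    simp only [Equiv.Perm.mul_apply]
    constructor
    · rintro ⟨⟨ha, hb⟩, hab, hw⟩
      by_cases hab' : a = i ∧ b = i + 1
      · left
        rw [hab'.1, hab'.2]
      · right
        refine ⟨(Equiv.swap i (i + 1) a, Equiv.swap i (i + 1) b), ?_, ?_⟩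
        · rw [hmem]
          exact ⟨⟨(Inv_swap_bd hi).2 ha, (Inv_swap_bd hi).2 hb⟩, Inv_swap_lt hab hab', hw⟩
        · simp only [hσσ]
    · rintro (h1 | ⟨⟨a', b'⟩, h1, h2⟩)
      · obtain ⟨rfl, rfl⟩ := (Prod.mk.injEq _ _ _ _ ▸ h1 : a = i ∧ b = i + 1)
        refine ⟨⟨by omega, by omega⟩, by omega, ?_⟩
        rw [Equiv.swap_apply_left, Equiv.swap_apply_right]
        exact h
      · rw [hmem] at h1
        obtain ⟨h3, h4⟩ := (Prod.mk.injEq _ _ _ _ ▸ h2 :
          Equiv.swap i (i + 1) a' = a ∧ Equiv.swap i (i + 1) b' = b)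
        obtain ⟨⟨ha, hb⟩, hab, hw⟩ := h1
        simp only at ha hb hab hw
        subst h3
        subst h4
        refine ⟨⟨(Inv_swap_bd hi).2 ha, (Inv_swap_bd hi).2 hb⟩, Inv_swap_lt hab ?_, ?_⟩
        · rintro ⟨rfl, rfl⟩
          omega
        · rw [hσσ, hσσ]
          exact hw
  unfold inv
  rw [hset, Finset.card_insert_of_notMem, Finset.card_image_of_injective _ hinj]
  rw [Finset.mem_image]
  rintro ⟨⟨a, b⟩, h1, h2⟩
  rw [hmem] at h1
  obtain ⟨h3, h4⟩ := (Prod.mk.injEq _ _ _ _ ▸ h2 :
    Equiv.swap i (i + 1) a = i ∧ Equiv.swap i (i + 1) b = i + 1)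
  have h5 : a = i + 1 := by rw [← hσσ a, h3, Equiv.swap_apply_left]
  have h6 : b = i := by rw [← hσσ b, h4, Equiv.swap_apply_right]
  have h7 := h1.2.1
  simp only at h7
  omega

theorem exists_Lf (s : ℕ → G) (w : Equiv.Perm ℕ) (h : Fix (m + 1) w) : ∃ g, Lf m s w g := by
  induction hN : inv (m + 1) w using Nat.strong_induction_on generalizing w with
  | _ N ih =>
    by_cases hex : ∃ i, i < m ∧ w (i + 1) < w i
    · obtain ⟨i, hi, hw⟩ := hex
      have h1 : (w * Equiv.swap i (i + 1)) i < (w * Equiv.swap i (i + 1)) (i + 1) := by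
        rw [Equiv.Perm.mul_apply, Equiv.Perm.mul_apply, Equiv.swap_apply_left,
          Equiv.swap_apply_right]
        exact hw
      have h2 : w * Equiv.swap i (i + 1) * Equiv.swap i (i + 1) = w := by
        rw [mul_assoc, Equiv.swap_mul_self, mul_one]
      have h3 := inv_mul_swap hi h1
      rw [h2] at h3
      obtain ⟨g, hg⟩ := ih (inv (m + 1) (w * Equiv.swap i (i + 1))) (by omega)
        (w * Equiv.swap i (i + 1)) (h.mul_swap (by omega) (by omega)) rfl
      have h4 := Lf.step hg hi h1
      rw [h2] at h4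
      exact ⟨_, h4⟩
    · push Not at hex
      have hlt : ∀ i, i < m → w i < w (i + 1) := by
        intro i hi
        refine lt_of_le_of_ne (hex i hi) fun h1 => ?_
        have := w.injective h1
        omega
      have hge : ∀ k, k ≤ m → k ≤ w k := by
        intro k
        induction k with
        | zero => intro _; exact Nat.zero_le _
        | succ k ihk =>
          intro hk
          have h1 := ihk (by omega)
          have h2 := hlt k (by omega)
          omega
      have hle : ∀ d, d ≤ m → w (m - d) ≤ m - d := by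
        intro d
        induction d with
        | zero =>
          intro _
          have := (h.lt_iff m).2 (by omega)
          rw [Nat.sub_zero]
          omega
        | succ d ihd =>
          intro hd
          have h1 := ihd (by omega)
          have h2 := hlt (m - (d + 1)) (by omega)
          rw [show m - (d + 1) + 1 = m - d by omega] at h2
          omega
      have h1 : w = 1 := by
        refine fix_ext h fix_one fun k hk => ?_
        have h2 := hge k (by omega)
        have h3 := hle (m - k) (by omega)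
        rw [show m - (m - k) = k by omega] at h3
        rw [Equiv.Perm.one_apply]
        omega
      rw [h1]
      exact ⟨1, Lf.one⟩

/-- lifts are functorial -/
theorem Lf.map {G' : Type*} [Group G'] (φ : G →* G') {w : Equiv.Perm ℕ} {g : G}
    (h : Lf m s w g) : Lf m (fun i => φ (s i)) w (φ g) := by
  induction h with
  | one =>
    rw [map_one]
    exact Lf.one
  | step _ hi hw ih =>
    rw [map_mul]
    exact Lf.step ih hi hw

end H42.NC
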