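import Pool.Agent.H42.NC.Rho
import Pool.Agent.H42.NC.Avail

namespace H42.NC

variable {L : ℕ → Bool}

theorem exists_join : ∀ (n : ℕ) (V : Finset ℕ) (w₁ w₂ : ℕ → ℕ), Arr n V w₁ → Arr n V w₂ →
    ∃ J, Arr n V J ∧ Cr L n w₁ J ∧ Cr L n w₂ J ∧
      ∀ u, Arr n V u → Cr L n w₁ u → Cr L n w₂ u → Cr L n J u := by
  intro n
  induction n with
  | zero =>
    intro V w₁ w₂ h₁ h₂
    refine ⟨w₁, h₁, ?_, ?_, ?_⟩
    · intro x y hx; omega
    · intro x y hx; omega
    · intro u _ h _; exact h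
  | succ n ih =>
    intro V w₁ w₂ h₁ h₂
    classical
    set A : Finset ℕ := V.filter (fun c => AvUp L n w₁ c ∧ AvUp L n w₂ c) with hA
    have hVne : V.Nonempty := ⟨w₁ n, h₁.mem (by omega)⟩
    have hmin : V.min' hVne ∈ A := by
      rw [hA, Finset.mem_filter]
      exact ⟨V.min'_mem hVne, AvUp_min h₁ (fun v hv => V.min'_le v hv),
        AvUp_min h₂ (fun v hv => V.min'_le v hv)⟩
    set c := A.max' ⟨_, hmin⟩ with hc
    have hcA : c ∈ A := A.max'_mem _
    have hcmax : ∀ d ∈ A, d ≤ c := fun d hd => A.le_max' d hd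
    rw [hA, Finset.mem_filter] at hcA
    obtain ⟨hcV, hc₁, hc₂⟩ := hcA
    obtain ⟨r₁, hr₁, hr₁n, hwr₁, hmin₁⟩ := exists_rho' hcV h₁ hc₁
    obtain ⟨r₂, hr₂, hr₂n, hwr₂, hmin₂⟩ := exists_rho' hcV h₂ hc₂
    have hr₁' : Arr n (V.erase c) r₁ := by have := hr₁.init; rwa [hr₁n] at this
    have hr₂' : Arr n (V.erase c) r₂ := by have := hr₂.init; rwa [hr₂n] at this
    obtain ⟨J', hJ', hJ₁, hJ₂, hJm⟩ := ih (V.erase c) r₁ r₂ hr₁' hr₂'
    set J := Function.update J' n c with hJdef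
    have hJ : Arr (n + 1) V J := Arr.snoc hcV hJ'
    have hJn : J n = c := by simp [hJdef]
    have hJk : ∀ k < n, J' k = J k := by
      intro k hk; simp [hJdef, Function.update_of_ne (ne_of_lt hk)]
    have hr₁J : Cr L (n + 1) r₁ J :=
      (cr_snoc hr₁ hJ (by rw [hr₁n, hJn])).mpr (Cr.congr (fun _ _ => rfl) hJk hJ₁)
    have hr₂J : Cr L (n + 1) r₂ J :=
      (cr_snoc hr₂ hJ (by rw [hr₂n, hJn])).mpr (Cr.congr (fun _ _ => rfl) hJk hJ₂)
    refine ⟨J, hJ, Cr.trans h₁ hr₁ hJ hwr₁ hr₁J, Cr.trans h₂ hr₂ hJ hwr₂ hr₂J, ?_⟩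
    intro u hu hu₁ hu₂
    have hunV : u n ∈ V := hu.mem (by omega)
    have hunA : u n ∈ A := by
      rw [hA, Finset.mem_filter]
      exact ⟨hunV, nec_up h₁ hu hu₁, nec_up h₂ hu hu₂⟩
    have hle : u n ≤ c := hcmax _ hunA
    have hdn : AvDown L n u c := by
      by_contra hcon
      obtain ⟨d, hdV, hcd, hd⟩ := avail hu hcV hle hcon
      have : d ∈ A := by
        rw [hA, Finset.mem_filter]
        exact ⟨hdV, hd _ h₁ hu₁ hc₁, hd _ h₂ hu₂ hc₂⟩
      have := hcmax d this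
      omega
    have h₁u : Cr L (n + 1) r₁ u := hmin₁ u hu hdn hu₁
    have h₂u : Cr L (n + 1) r₂ u := hmin₂ u hu hdn hu₂
    obtain ⟨l, hl, hln, hlu, hlmax⟩ := exists_lam hcV hu hdn
    have h₁l : Cr L (n + 1) r₁ l := hlmax r₁ hr₁ (by rw [← hr₁n]; exact AvUp_self hr₁) h₁u
    have h₂l : Cr L (n + 1) r₂ l := hlmax r₂ hr₂ (by rw [← hr₂n]; exact AvUp_self hr₂) h₂u
    have hl' : Arr n (V.erase c) l := by have := hl.init; rwa [hln] at this
    have h₁l' : Cr L n r₁ l := (cr_snoc hr₁ hl (by rw [hr₁n, hln])).mp h₁l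
    have h₂l' : Cr L n r₂ l := (cr_snoc hr₂ hl (by rw [hr₂n, hln])).mp h₂l
    have hJl : Cr L n J' l := hJm l hl' h₁l' h₂l'
    have hJl' : Cr L (n + 1) J l :=
      (cr_snoc hJ hl (by rw [hJn, hln])).mpr (Cr.congr hJk (fun _ _ => rfl) hJl)
    exact Cr.trans hJ hl hu hJl' hlu

theorem exists_meet (n : ℕ) (V : Finset ℕ) (w₁ w₂ : ℕ → ℕ) (h₁ : Arr n V w₁)
    (h₂ : Arr n V w₂) :
    ∃ J, Arr n V J ∧ Cr L n J w₁ ∧ Cr L n J w₂ ∧
      ∀ u, Arr n V u → Cr L n u w₁ → Cr L n u w₂ → Cr L n u J := by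
  obtain ⟨M, hM⟩ : ∃ M, ∀ v ∈ V, v ≤ M := ⟨V.sup id, fun v hv => Finset.le_sup (f := id) hv⟩
  set V' := V.image (fun v => M - v) with hV'
  have hM' : ∀ v ∈ V', v ≤ M := by
    intro v hv
    obtain ⟨a, _, rfl⟩ := Finset.mem_image.mp hv
    omega
  have hVV : V'.image (fun v => M - v) = V := image_image hM
  obtain ⟨J, hJ, hJ₁, hJ₂, hJm⟩ :=
    exists_join (L := dualL L) n V' (dual M w₁) (dual M w₂) (h₁.dual hM) (h₂.dual hM)
  have hJ' : Arr n V (dual M J) := by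
    have := hJ.dual hM'
    rwa [hVV] at this
  have hJJ : ∀ k < n, dual M (dual M J) k = J k := fun k hk => dual_dual_apply hM' hJ hk
  refine ⟨dual M J, hJ', ?_, ?_, ?_⟩
  · exact (Cr_dual hM hJ' h₁).mp
      (Cr.congr (fun _ _ => rfl) (fun k hk => (hJJ k hk).symm) hJ₁)
  · exact (Cr_dual hM hJ' h₂).mp
      (Cr.congr (fun _ _ => rfl) (fun k hk => (hJJ k hk).symm) hJ₂)
  · intro u hu hu₁ hu₂
    have h3 := hJm (dual M u) (hu.dual hM) ((Cr_dual hM hu h₁).mpr hu₁)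
      ((Cr_dual hM hu h₂).mpr hu₂)
    exact (Cr_dual hM hu hJ').mp
      (Cr.congr (fun k hk => (hJJ k hk).symm) (fun _ _ => rfl) h3)

/-- the order is generated by visible exchanges -/
theorem gen : ∀ (n : ℕ) (V : Finset ℕ) (w u : ℕ → ℕ), Arr n V w → Arr n V u →
    Cr L n w u → (∀ k < n, w k = u k) ∨
      ∃ i j, j < n ∧ Vis L w i j ∧ Cr L n (sw w i j) u := by
  intro n
  induction n with
  | zero => intro V w u _ _ _; left; intro k hk; omega
  | succ n ih =>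
    intro V w u hw hu h
    by_cases hn : w n = u n
    · have h' : Cr L n w u := (cr_snoc hw hu hn).mp h
      have hu' : Arr n (V.erase (w n)) u := by have := hu.init; rwa [← hn] at this
      rcases ih _ w u hw.init hu' h' with h1 | ⟨i, j, hj, hvis, hcr⟩
      · left
        intro k hk
        rcases Nat.lt_succ_iff_lt_or_eq.mp hk with h2 | h2
        · exact h1 k h2
        · rw [h2]; exact hn
      · right
        refine ⟨i, j, by omega, hvis, ?_⟩
        have hij := hvis.1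
        have hw' : Arr (n + 1) V (sw w i j) := hw.sw (by omega) (by omega)
        refine (cr_snoc hw' hu ?_).mpr hcr
        rw [sw_ne (by omega) (by omega)]
        exact hn
    · right
      have hup : AvUp L n w (u n) := nec_up hw hu h
      obtain ⟨x, hx, hxu⟩ := hw.pos (hu.mem (by omega : n < n + 1))
      have hxn : x < n := by
        rcases Nat.lt_succ_iff_lt_or_eq.mp hx with h2 | h2
        · exact h2
        · subst h2; exact absurd hxu hn
      rw [← hxu] at hup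
      obtain ⟨i, j, hij, hjn, hvis, _, hall⟩ := forced_step hw hxn hup
      refine ⟨i, j, by omega, hvis, hall u hu ?_ h⟩
      rw [hxu]
      exact AvDown_self hu

end H42.NC
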