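import Pool.Agent.H42.NC.Rep

/-!
# NCW B7: the kernel formula

`n = m + 1`. Two claims.

1. `Phi_one`: `Phi L n t 1 v p = Psi L n t v p` : for `u = 1` the sum is over `z` with `k < z` and `z < k`, empty; and
   `Dx L n 1 v p k k` is the exponent of `Psi`. (for `k < n`; both are `0` for `k ≥ n`).
2. `Phi_step`: for `i < m`, `x = u i < y = u (i+1)`, `u' = u * swap i (i+1)`:
   `burF L t i (Phi L n t u' v p) = Phi L n t u v p` (for `t > 0`). Put `E z = Dx L n u v p z i`.
   - `k ≠ i, i+1`: `u' k = u k`, `u'⁻¹ z < k ↔ u⁻¹ z < k` (the set of positions `< k` is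
     mapped to itself by `swap i (i+1)`), `H L n u' (z+1) k = H L n u (z+1) k` (`H_sw`: correction only at `k = i + 1`).
   - `k = i + 1`: to show `be i * Phi u' i = Phi u (i+1)`. `u' i = y = u (i+1)`. For `z ≥ y`:
     `H L n u (z+1) i = H L n u (z+1) (i+1) + 1 - [L i]` (`H_step`, `x ≤ z`) and `be i = t ^ (1 - [L i])`,
     `H L n u' (z+1) i = H L n u (z+1) i`; the index sets `{z > y, u'⁻¹ z < i}` and `{z > y, u⁻¹ z < i + 1}` agree (`z ≠ x = u i` as
     `z > y > x`). Note the exponents in the sums are at `z - 1 ≥ y`.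
   - `k = i`: to show `(1 - t) * Phi u' i + al i * Phi u' (i+1) = Phi u i`. We have
     `Phi u' i = [p ≤ v⁻¹ y] t ^ E y - (1 - t) ∑_{z > y, u⁻¹ z < i, p ≤ v⁻¹ z} t ^ E (z-1)`;
     `H L n u' (z+1) (i+1) = H L n u (z+1) i - [y ≤ z] + [L i]` (`H_step` for `u'` at `i`, `u' i = y`, and `H L n u' (z+1) i = H L n u (z+1) i`), so with
     `al i = t ^ [L i]`: `al i * t ^ Dx u' v p z (i+1) = t ^ (E z + [y ≤ z])` and
     `al i * Phi u' (i+1) = [p ≤ v⁻¹ x] t ^ E x - (1-t) ∑_{z > x, (u⁻¹ z < i or z = y), p ≤ v⁻¹ z} t ^ (E (z-1) + [y ≤ z-1])`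
     (`u'⁻¹ z < i + 1` iff `u⁻¹ z < i` or `z = y`). The term `z = y` is `[p ≤ v⁻¹ y] t ^ E (y-1)`. So the left side is
     `[p ≤ v⁻¹ x] t ^ E x + (1-t) [p ≤ v⁻¹ y] (t ^ E y - t ^ E (y-1)) - (1-t) ∑_{x < z < y, u⁻¹ z < i} t ^ E (z-1)
      - (1-t) ∑_{z > y, u⁻¹ z < i} ((1-t) t ^ E (z-1) + t * t ^ E (z-1))`,
     and `E y = E (y-1)` if `p ≤ v⁻¹ y`, since raising the threshold by one adds `[p ≤ v⁻¹ y] - [i ≤ u⁻¹ y] = 1 - 1` (`H_thr_of_le`; `u⁻¹ y = i + 1`).
   Suggestion: treat the sums termwise: write each as `∑ z ∈ range n, if cond z then ... else 0`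
   (`Finset.sum_filter`), move everything to one sum over `range n` (`Finset.sum_add_distrib`, `Finset.mul_sum`), isolate the `z = y` term
   with `Finset.sum_ite_eq'`, and compare termwise.
-/

namespace H42.NC

variable {m : ℕ}

theorem Phi_one (L : ℕ → Bool) (n : ℕ) (t : ℝ) (v : Equiv.Perm ℕ) (p : ℕ) :
    Phi L n t 1 v p = Psi L n t v p := by
  funext k
  unfold Phi Psi
  by_cases hk : k < n
  · rw [if_pos hk]
    have h1 : (Finset.range n).filter (fun z => (1 : Equiv.Perm ℕ) k < z ∧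
        (1 : Equiv.Perm ℕ)⁻¹ z < k ∧ p ≤ v⁻¹ z) = ∅ := by
      refine Finset.filter_eq_empty_iff.2 fun z _ h => ?_
      have h2 : k < z := h.1
      have h3 : z < k := by
        have := h.2.1
        rwa [inv_one, Equiv.Perm.one_apply] at this
      omega
    rw [h1, Finset.sum_empty, mul_zero, sub_zero, Equiv.Perm.one_apply]
    unfold Dx
    by_cases hp : p ≤ v⁻¹ k
    · rw [if_pos hp, if_pos ⟨hk, hp⟩]
    · rw [if_neg hp, if_neg fun h => hp h.2]
  · rw [if_neg hk, if_neg fun h => hk h.1]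

private theorem Kern_ai (u : Equiv.Perm ℕ) (z : ℕ) : u (u⁻¹ z) = z :=
  Equiv.Perm.eq_inv_iff_eq.1 rfl

private theorem Kern_ia (u : Equiv.Perm ℕ) (z : ℕ) : u⁻¹ (u z) = z :=
  Equiv.Perm.inv_eq_iff_eq.2 rfl

/-- Fix: positions and values. -/
private theorem Kern_lt {n : ℕ} {u : Equiv.Perm ℕ} (hu : Fix n u) {k : ℕ} (hk : k < n) :
    u k < n := by
  by_contra h
  have h1 := hu (u k) (by omega)
  have := u.injective h1
  omega

private theorem Kern_inv_lt {n : ℕ} {u : Equiv.Perm ℕ} (hu : Fix n u) {z : ℕ} (hz : z < n) :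
    u⁻¹ z < n := by
  by_contra h
  have h1 := hu (u⁻¹ z) (by omega)
  rw [Kern_ai] at h1
  omega

private theorem Kern_H (L : ℕ → Bool) {n : ℕ} (u : Equiv.Perm ℕ) {i : ℕ} (hi : i + 1 < n)
    (hlt : u i < u (i + 1)) (z k : ℕ) :
    H L n (u * Equiv.swap i (i + 1) : Equiv.Perm ℕ) (z + 1) k = H L n u (z + 1) k +
      (if k = i + 1 ∧ u i ≤ z ∧ z < u (i + 1) then 1 else 0) := by
  have h1 : (⇑(u * Equiv.swap i (i + 1) : Equiv.Perm ℕ) : ℕ → ℕ) = sw u i (i + 1) := rfl
  rw [h1, H_sw (by omega : i < i + 1) hi hlt]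
  congr 1
  refine if_congr ?_ rfl rfl
  constructor
  · intro h
    exact ⟨by omega, by omega, by omega⟩
  · rintro ⟨h2, h3, h4⟩
    exact ⟨by omega, by omega, by omega, by omega⟩

private theorem Kern_inv (u : Equiv.Perm ℕ) (i z : ℕ) :
    (u * Equiv.swap i (i + 1))⁻¹ z = Equiv.swap i (i + 1) (u⁻¹ z) := by
  rw [mul_inv_rev, Equiv.swap_inv, Equiv.Perm.mul_apply]

/-- The swap preserves the set of positions `< k`, `k ≠ i + 1`. -/
private theorem Kern_swap_lt {i k q : ℕ} (hk : k ≠ i + 1) :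
    Equiv.swap i (i + 1) q < k ↔ q < k := by
  rw [Equiv.swap_apply_def]
  split_ifs with h1 h2
  · subst h1
    omega
  · subst h2
    omega
  · exact Iff.rfl

private theorem Kern_swap_lt' {i q : ℕ} :
    Equiv.swap i (i + 1) q < i + 1 ↔ q < i ∨ q = i + 1 := by
  rw [Equiv.swap_apply_def]
  split_ifs with h1 h2
  · subst h1
    omega
  · subst h2
    omega
  · omega

theorem Phi_step (L : ℕ → Bool) {t : ℝ} (ht : 0 < t) {u v : Equiv.Perm ℕ} (hu : Fix (m + 1) u)
    (hv : Fix (m + 1) v) {i : ℕ} (hi : i < m) (hlt : u i < u (i + 1)) (p : ℕ) :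
    burF L t i (Phi L (m + 1) t (u * Equiv.swap i (i + 1)) v p) = Phi L (m + 1) t u v p := by
  have hi1 : i + 1 < m + 1 := by omega
  have hi0 : i < m + 1 := by omega
  have hH := Kern_H L u hi1 hlt
  have ht0 : t ≠ 0 := ht.ne'
  have hui : (u * Equiv.swap i (i + 1)) i = u (i + 1) := by
    rw [Equiv.Perm.mul_apply, Equiv.swap_apply_left]
  have hui1 : (u * Equiv.swap i (i + 1)) (i + 1) = u i := by
    rw [Equiv.Perm.mul_apply, Equiv.swap_apply_right]
  -- the height at the position `i`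
  have hHi : ∀ z, u i ≤ z → H L (m + 1) u (z + 1) i =
      1 - (if L i = true then 1 else 0) + H L (m + 1) u (z + 1) (i + 1) := by
    intro z hz
    rw [H_step hi0]
    unfold chi
    rw [if_pos (by omega)]
  funext k
  unfold burF
  by_cases hki : k = i
  · -- case `k = i`
    subst hki
    rw [if_pos rfl]
    unfold Phi
    rw [if_pos hi0, if_pos hi1, if_pos hi0, hui, hui1, Finset.sum_filter, Finset.sum_filter,
      Finset.sum_filter]
    set x := u k with hx
    set y := u (k + 1) with hy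
    have hyn : y < m + 1 := Kern_lt hu hi1
    have hE : ∀ z, Dx L (m + 1) (u * Equiv.swap k (k + 1)) v p z k = Dx L (m + 1) u v p z k := by
      intro z
      unfold Dx
      rw [hH, if_neg (by omega), add_zero]
    have hal : ∀ z, x ≤ z →
        al L t k * t ^ (Dx L (m + 1) (u * Equiv.swap k (k + 1)) v p z (k + 1)) =
        t ^ (Dx L (m + 1) u v p z k + (if y ≤ z then 1 else 0)) := by
      intro z hz
      have h1 : al L t k = t ^ (if L k = true then (1 : ℤ) else 0) := by
        unfold al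
        split_ifs <;> simp
      rw [h1, ← zpow_add₀ ht0]
      congr 1
      unfold Dx
      rw [hH, hHi z hz]
      by_cases h2 : y ≤ z
      · rw [if_pos h2, if_neg (show ¬ (k + 1 = k + 1 ∧ x ≤ z ∧ z < y) by omega)]
        ring
      · rw [if_neg h2, if_pos (show (k + 1 = k + 1 ∧ x ≤ z ∧ z < y) from ⟨rfl, hz, by omega⟩)]
        ring
    have hkey : ∀ z ∈ Finset.range (m + 1),
        (1 - t) * (if y < z ∧ (u * Equiv.swap k (k + 1))⁻¹ z < k ∧ p ≤ v⁻¹ z then
            t ^ Dx L (m + 1) (u * Equiv.swap k (k + 1)) v p (z - 1) k else 0) +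
          al L t k * (if x < z ∧ (u * Equiv.swap k (k + 1))⁻¹ z < k + 1 ∧ p ≤ v⁻¹ z then
            t ^ Dx L (m + 1) (u * Equiv.swap k (k + 1)) v p (z - 1) (k + 1) else 0) =
        (if x < z ∧ u⁻¹ z < k ∧ p ≤ v⁻¹ z then t ^ Dx L (m + 1) u v p (z - 1) k else 0) +
          (if z = y then (if p ≤ v⁻¹ y then t ^ Dx L (m + 1) u v p y k else 0) else 0) := by
      intro z _
      simp only [Kern_inv, Kern_swap_lt (show k ≠ k + 1 by omega), Kern_swap_lt', hE]
      by_cases hzy : z = y
      · subst hzy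
        have h1 : u⁻¹ y = k + 1 := by
          rw [hy, Kern_ia]
        rw [if_neg (by omega), if_neg (show ¬ (x < y ∧ u⁻¹ y < k ∧ p ≤ v⁻¹ y) by omega),
          if_pos rfl, mul_zero, zero_add, zero_add]
        by_cases hp : p ≤ v⁻¹ y
        · rw [if_pos ⟨hlt, Or.inr h1, hp⟩, if_pos hp, hal _ (by omega), if_neg (by omega),
            add_zero]
          congr 1
          unfold Dx
          rw [show y - 1 + 1 = y by omega]
          have h2 : H L (m + 1) v (y + 1) p = H L (m + 1) v y p + 1 :=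
            H_thr_of_le (v.injective.injOn) (Kern_inv_lt hv hyn)
              (Kern_ai v y) hp
          have h3 : H L (m + 1) u (y + 1) k = H L (m + 1) u y k + 1 :=
            H_thr_of_le (u.injective.injOn) hi1 hy.symm (by omega)
          rw [h2, h3]
          ring
        · rw [if_neg fun h => hp h.2.2, if_neg hp, mul_zero]
      · rw [if_neg hzy, add_zero]
        have h1 : u⁻¹ z ≠ k + 1 := by
          intro h
          apply hzy
          rw [hy, ← h, Kern_ai]
        by_cases hc : u⁻¹ z < k ∧ p ≤ v⁻¹ z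
        · by_cases hz1 : y < z
          · rw [if_pos ⟨hz1, hc⟩, if_pos ⟨by omega, Or.inl hc.1, hc.2⟩,
              if_pos ⟨by omega, hc⟩, hal _ (by omega), if_pos (by omega), zpow_add₀ ht0, zpow_one]
            ring
          · rw [if_neg fun h => hz1 h.1, mul_zero, zero_add]
            by_cases hz2 : x < z
            · rw [if_pos ⟨hz2, Or.inl hc.1, hc.2⟩, if_pos ⟨hz2, hc⟩, hal _ (by omega),
                if_neg (by omega), add_zero]
            · rw [if_neg fun h => hz2 h.1, if_neg fun h => hz2 h.1, mul_zero]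
        · have h4 : ¬ (x < z ∧ (u⁻¹ z < k ∨ u⁻¹ z = k + 1) ∧ p ≤ v⁻¹ z) := by
            rintro ⟨_, h2, h3⟩
            rcases h2 with h2 | h2
            · exact hc ⟨h2, h3⟩
            · exact h1 h2
          rw [if_neg fun h => hc h.2, if_neg h4, if_neg fun h => hc h.2]
          ring
    have hsum := Finset.sum_congr (rfl : Finset.range (m + 1) = Finset.range (m + 1)) hkey
    rw [Finset.sum_add_distrib, Finset.sum_add_distrib, ← Finset.mul_sum, ← Finset.mul_sum,
      Finset.sum_ite_eq', if_pos (Finset.mem_range.2 hyn)] at hsum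
    have hA : al L t k * (if p ≤ v⁻¹ x then
        t ^ Dx L (m + 1) (u * Equiv.swap k (k + 1)) v p x (k + 1) else 0) =
        if p ≤ v⁻¹ x then t ^ Dx L (m + 1) u v p x k else 0 := by
      by_cases hp : p ≤ v⁻¹ x
      · rw [if_pos hp, if_pos hp, hal x le_rfl, if_neg (by omega), add_zero]
      · rw [if_neg hp, if_neg hp, mul_zero]
    rw [hE y, mul_sub (al L t k), hA]
    linear_combination (-(1 - t)) * hsum
  · rw [if_neg hki]
    by_cases hki1 : k = i + 1
    · -- case `k = i + 1`
      subst hki1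
      rw [if_pos rfl]
      unfold Phi
      rw [if_pos hi0, if_pos hi1, hui, Finset.sum_filter, Finset.sum_filter]
      set x := u i with hx
      set y := u (i + 1) with hy
      have hbe : ∀ z, y ≤ z →
          be L t i * t ^ (Dx L (m + 1) (u * Equiv.swap i (i + 1)) v p z i) =
          t ^ (Dx L (m + 1) u v p z (i + 1)) := by
        intro z hz
        have h1 : be L t i = t ^ (1 - (if L i = true then (1 : ℤ) else 0)) := by
          unfold be
          split_ifs <;> simp
        rw [h1, ← zpow_add₀ ht0]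
        congr 1
        unfold Dx
        rw [hH, hHi z (by omega), if_neg (show ¬ (i = i + 1 ∧ x ≤ z ∧ z < y) by omega)]
        ring
      have hkey : ∀ z ∈ Finset.range (m + 1),
          be L t i * (if y < z ∧ (u * Equiv.swap i (i + 1))⁻¹ z < i ∧ p ≤ v⁻¹ z then
            t ^ Dx L (m + 1) (u * Equiv.swap i (i + 1)) v p (z - 1) i else 0) =
          (if y < z ∧ u⁻¹ z < i + 1 ∧ p ≤ v⁻¹ z then
            t ^ Dx L (m + 1) u v p (z - 1) (i + 1) else 0) := by
        intro z _
        simp only [Kern_inv, Kern_swap_lt (show i ≠ i + 1 by omega)]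
        by_cases hc : y < z ∧ u⁻¹ z < i ∧ p ≤ v⁻¹ z
        · rw [if_pos hc, if_pos ⟨hc.1, by omega, hc.2.2⟩, hbe _ (by omega)]
        · rw [if_neg hc, mul_zero, if_neg]
          rintro ⟨h1, h2, h3⟩
          rcases Nat.lt_succ_iff_lt_or_eq.1 h2 with h4 | h4
          · exact hc ⟨h1, h4, h3⟩
          · have : z = x := by
              rw [hx, ← h4, Kern_ai]
            omega
      have hsum := Finset.sum_congr (rfl : Finset.range (m + 1) = Finset.range (m + 1)) hkey
      rw [← Finset.mul_sum] at hsum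
      have hA : be L t i * (if p ≤ v⁻¹ y then
          t ^ Dx L (m + 1) (u * Equiv.swap i (i + 1)) v p y i else 0) =
          if p ≤ v⁻¹ y then t ^ Dx L (m + 1) u v p y (i + 1) else 0 := by
        by_cases hp : p ≤ v⁻¹ y
        · rw [if_pos hp, if_pos hp, hbe y le_rfl]
        · rw [if_neg hp, if_neg hp, mul_zero]
      rw [mul_sub, hA]
      linear_combination (-(1 - t)) * hsum
    · -- the other positions
      rw [if_neg hki1]
      unfold Phi
      have huk : (u * Equiv.swap i (i + 1)) k = u k := by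
        rw [Equiv.Perm.mul_apply, Equiv.swap_apply_of_ne_of_ne hki hki1]
      have hD : ∀ z, Dx L (m + 1) (u * Equiv.swap i (i + 1)) v p z k = Dx L (m + 1) u v p z k := by
        intro z
        unfold Dx
        rw [hH, if_neg (fun h => hki1 h.1), add_zero]
      rw [huk]
      simp only [hD]
      have hf : (Finset.range (m + 1)).filter
          (fun z => u k < z ∧ (u * Equiv.swap i (i + 1))⁻¹ z < k ∧ p ≤ v⁻¹ z) =
          (Finset.range (m + 1)).filter (fun z => u k < z ∧ u⁻¹ z < k ∧ p ≤ v⁻¹ z) := by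
        refine Finset.filter_congr fun z _ => ?_
        rw [Kern_inv, Kern_swap_lt hki1]
      rw [hf]

end H42.NC
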