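import Pool.Agent.H42.NC.Rep

/-!
# NCW B11: the dual generators act boundedly as `t → 0`

`ρ : ℝ → G →* ((ℕ → ℝ) ≃ₗ[ℝ] (ℕ → ℝ))` is a family of homomorphisms with `ρ t (s i) a = burF L t i a` for `0 < t`, `i < m`.

Data `RD G` for a group element `g`: `v : ℝ → ℕ → ℝ`, `f : ℝ → (ℕ → ℝ) →ₗ[ℝ] ℝ`. `RD.OK ρ d`: for all `t ∈ (0,1]`:
`ρ t d.g a = a - d.f t a • d.v t` for all `a`, `d.f t (d.v t) = 1 + t`; and there is `C` with, for all `t ∈ (0,1]`, `|d.v t k| ≤ C` for all `k` and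
`|d.f t a| ≤ C * M` whenever `∀ k, |a k| ≤ M`. `Rl d d'` : `∃ C, ∀ t ∈ (0,1], |d'.f t (d.v t)| ≤ C * t`.
`GoodT ρ τ` : `∃ ds : List (RD G), ds.map RD.g = τ ∧ (∀ d ∈ ds, OK) ∧ ds.Pairwise Rl`.

1. `GoodT` is preserved by Hurwitz moves and their inverses. From `OK`: `ρ t d.g⁻¹ a = a - t⁻¹ * d.f t a • d.v t` (inverse of the reflection, as `f v = 1 + t`).
   Move `(x, y) → (y, z)`, `z = y⁻¹ x y`, `x ~ (v, f)`, `y ~ (v', f')` (so `|f' v| ≤ C t`): `z ~ (v'', f'')` with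
   `v'' = v - t⁻¹ f'(v) • v'`, `f'' = f - f(v') • f'`: `ρ z a = y⁻¹ (x (y a)) = a - f(y a) • y⁻¹ v` and `f (y a) = f a - f' a * f v'`, `f''(v'') = f (y (y⁻¹ v)) = 1 + t`.
   bounded since `|t⁻¹ f'(v)| ≤ C`. Relations: `y` before `z`: `f''(v') = f v' - f v' * (1 + t) = - t f v'`. `x₀` before `z`:
   `f''(v₀) = f v₀ - f v' * f' v₀`. `z` before `x₁`: `f₁(v'') = f₁ v - t⁻¹ f' v * f₁ v'` (`≤ C t + C * (C t)`).
   Inverse move `(a, b) → (z, a)`, `z = a b a⁻¹` (a list `l ++ a :: b :: r` on the right side of a move is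
   `l ++ b₀ :: (b₀⁻¹ * a₀ * b₀) :: r`, `b₀ = a`, `a₀ = a * b * a⁻¹`), `a ~ (v, f)`, `b ~ (v', f')`, `|f' v| ≤ C t`:
   `v'' = v' - f(v') • v`, `f'' = f' - t⁻¹ f'(v) • f`; `f''(v'') = 1 + t`; `z` before `a`: `f(v'') = f v' - f v' (1 + t) = - t f v'`;
   `x₀` before `z`: `f''(v₀) = f' v₀ - t⁻¹ f' v * f v₀`; `z` before `x₁`: `f₁ v'' = f₁ v' - f v' * f₁ v`.
   (`List.map_eq_append_iff`, `List.map_eq_cons_iff`, `List.pairwise_append`, `List.pairwise_cons`.)
2. The start `l.map s` is good: `s i ~ (v, f)` with `v = e (i+1) - al L t i • e i`, `f a = a (i+1) - be L t i * a i`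
   (`burF L t i a = a - f a • v`; `f v = 1 + al * be = 1 + t`). For `i` before `j` in `l` (so `i ≠ j`):
   `f_j (v_i) = v_i (j+1) - be j * v_i j`: it is `- al L t i` if `j + 1 = i`, `- be L t (i+1)` if `j = i + 1`, else `0`. If `j + 1 = i` then `i` is before `i - 1`, so `L i = true`
   and `al L t i = t`. If `j = i + 1` then `i + 1` is not before `i`, so `L (i+1) = false` and `be L t (i+1) = t`. Here `L = lab l`. (Use
   induction on the list, or `List.pairwise_iff_getElem` / `List.Pairwise` of `idxOf` order.)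
3. So every entry `g` of a list `Hz`-equivalent to `l.map s` is bounded: `|ρ t g a k| ≤ M + C M C`.
-/

namespace H42.NC

variable {G : Type*} [Group G] {m : ℕ} {s : ℕ → G}

/-- `g` acts boundedly on bounded functions, uniformly in `t ∈ (0, 1]` -/
def BdOp (ρ : ℝ → G →* ((ℕ → ℝ) ≃ₗ[ℝ] (ℕ → ℝ))) (g : G) : Prop :=
  ∃ C : ℝ, 0 ≤ C ∧ ∀ t : ℝ, 0 < t → t ≤ 1 → ∀ (a : ℕ → ℝ) (M : ℝ), (∀ k, |a k| ≤ M) →
    ∀ k, |ρ t g a k| ≤ C * M

theorem BdOp.mul {ρ : ℝ → G →* ((ℕ → ℝ) ≃ₗ[ℝ] (ℕ → ℝ))} {g h : G} (hg : BdOp ρ g)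
    (hh : BdOp ρ h) : BdOp ρ (g * h) := by
  obtain ⟨C, hC, h1⟩ := hg
  obtain ⟨C', hC', h2⟩ := hh
  refine ⟨C * C', mul_nonneg hC hC', fun t ht ht1 a M ha k => ?_⟩
  rw [map_mul, LinearEquiv.mul_apply, mul_assoc]
  exact h1 t ht ht1 _ _ (h2 t ht ht1 a M ha) k

theorem BdOp.one {ρ : ℝ → G →* ((ℕ → ℝ) ≃ₗ[ℝ] (ℕ → ℝ))} : BdOp ρ 1 := by
  refine ⟨1, zero_le_one, fun t ht ht1 a M ha k => ?_⟩
  rw [map_one, one_mul]
  exact ha k

/-! ### Reflections -/

/-- the data of a reflection -/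
private structure RD (G : Type*) where
  g : G
  v : ℝ → ℕ → ℝ
  f : ℝ → (ℕ → ℝ) →ₗ[ℝ] ℝ

/-- the conditions on a reflection -/
private structure RD.OK (ρ : ℝ → G →* ((ℕ → ℝ) ≃ₗ[ℝ] (ℕ → ℝ))) (d : RD G) : Prop where
  act : ∀ t : ℝ, 0 < t → t ≤ 1 → ∀ a, ρ t d.g a = a - d.f t a • d.v t
  fv : ∀ t : ℝ, 0 < t → t ≤ 1 → d.f t (d.v t) = 1 + t
  bd : ∃ C : ℝ, 0 ≤ C ∧ ∀ t : ℝ, 0 < t → t ≤ 1 → (∀ k, |d.v t k| ≤ C) ∧
    ∀ (a : ℕ → ℝ) (M : ℝ), (∀ k, |a k| ≤ M) → |d.f t a| ≤ C * M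

/-- the relation between a reflection and a later one -/
private def Rl (d d' : RD G) : Prop :=
  ∃ C : ℝ, 0 ≤ C ∧ ∀ t : ℝ, 0 < t → t ≤ 1 → |d'.f t (d.v t)| ≤ C * t

private def GoodT (ρ : ℝ → G →* ((ℕ → ℝ) ≃ₗ[ℝ] (ℕ → ℝ))) (τ : List G) : Prop :=
  ∃ ds : List (RD G), ds.map RD.g = τ ∧ (∀ d ∈ ds, RD.OK ρ d) ∧ ds.Pairwise Rl

private theorem refl_inv {ρ : ℝ → G →* ((ℕ → ℝ) ≃ₗ[ℝ] (ℕ → ℝ))} {d : RD G} (h : RD.OK ρ d)
    {t : ℝ} (ht : 0 < t) (ht1 : t ≤ 1) (a : ℕ → ℝ) :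
    ρ t d.g⁻¹ a = a - (t⁻¹ * d.f t a) • d.v t := by
  have h1 : ρ t d.g (a - (t⁻¹ * d.f t a) • d.v t) = a := by
    rw [h.act t ht ht1, map_sub, map_smul, h.fv t ht ht1, smul_eq_mul]
    have h2 : d.f t a - t⁻¹ * d.f t a * (1 + t) = -(t⁻¹ * d.f t a) := by
      field_simp
      ring
    rw [h2, neg_smul, sub_neg_eq_add, sub_add_cancel]
  have h3 : ρ t d.g⁻¹ (ρ t d.g (a - (t⁻¹ * d.f t a) • d.v t)) =
      a - (t⁻¹ * d.f t a) • d.v t := by
    rw [← LinearEquiv.mul_apply, ← map_mul, inv_mul_cancel, map_one]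
    rfl
  rw [h1] at h3
  exact h3

/-- the new reflection of a Hurwitz move -/
private noncomputable def mvR (x y : RD G) : RD G where
  g := y.g⁻¹ * x.g * y.g
  v := fun t => x.v t - (t⁻¹ * y.f t (x.v t)) • y.v t
  f := fun t => x.f t - x.f t (y.v t) • y.f t

/-- the new reflection of an inverse Hurwitz move -/
private noncomputable def mvL (a b : RD G) : RD G where
  g := a.g * b.g * a.g⁻¹
  v := fun t => b.v t - a.f t (b.v t) • a.v t
  f := fun t => b.f t - (t⁻¹ * b.f t (a.v t)) • a.f t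

private theorem refl_div {C t r : ℝ} (ht : 0 < t) (h : |r| ≤ C * t) : |t⁻¹ * r| ≤ C := by
  rw [abs_mul, abs_of_pos (inv_pos.2 ht), inv_mul_le_iff₀ ht]
  linarith

/-- the bound for a difference of two terms -/
private theorem refl_tri {a b c A B D : ℝ} (ha : |a| ≤ A) (hb : |b| ≤ B) (hc : |c| ≤ D) :
    |a - b * c| ≤ A + B * D := by
  refine (abs_sub _ _).trans ?_
  rw [abs_mul]
  exact add_le_add ha (mul_le_mul hb hc (abs_nonneg _) ((abs_nonneg _).trans hb))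

private theorem mvR_ok {ρ : ℝ → G →* ((ℕ → ℝ) ≃ₗ[ℝ] (ℕ → ℝ))} {x y : RD G} (hx : RD.OK ρ x)
    (hy : RD.OK ρ y) (h : Rl x y) : RD.OK ρ (mvR x y) := by
  refine ⟨fun t ht ht1 a => ?_, fun t ht ht1 => ?_, ?_⟩
  · have e1 : ρ t (mvR x y).g a = ρ t y.g⁻¹ (ρ t x.g (ρ t y.g a)) := by
      rw [← LinearEquiv.mul_apply, ← map_mul, ← LinearEquiv.mul_apply, ← map_mul]
      rfl
    rw [e1, refl_inv hy ht ht1, hx.act t ht ht1, hy.act t ht ht1]
    simp only [mvR, map_sub, map_smul, smul_eq_mul, LinearMap.sub_apply, LinearMap.smul_apply,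
      hy.fv t ht ht1]
    funext k
    simp only [Pi.sub_apply, Pi.smul_apply, smul_eq_mul]
    have ht0 : t ≠ 0 := ht.ne'
    field_simp
    ring
  · have h1 := hx.fv t ht ht1
    have h2 := hy.fv t ht ht1
    have ht0 : t ≠ 0 := ht.ne'
    simp only [mvR, map_sub, map_smul, smul_eq_mul, LinearMap.sub_apply, LinearMap.smul_apply,
      h1, h2]
    field_simp
    ring
  · obtain ⟨Cx, hCx, bx⟩ := hx.bd
    obtain ⟨Cy, hCy, bY⟩ := hy.bd
    obtain ⟨C, hC, hr⟩ := h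
    refine ⟨Cx + C * Cy + (Cx + (Cx * Cy) * Cy), by positivity, fun t ht ht1 => ?_⟩
    obtain ⟨x1, x2⟩ := bx t ht ht1
    obtain ⟨y1, y2⟩ := bY t ht ht1
    constructor
    · intro k
      have h1 := refl_tri (x1 k) (refl_div ht (hr t ht ht1)) (y1 k)
      have h2 : 0 ≤ Cx + (Cx * Cy) * Cy := by positivity
      have h3 : (mvR x y).v t k = x.v t k - t⁻¹ * y.f t (x.v t) * y.v t k := by
        simp [mvR]
      rw [h3]
      linarith
    · intro a M ha
      have hM : 0 ≤ M := (abs_nonneg _).trans (ha 0)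
      have h1 := refl_tri (x2 a M ha) (x2 (y.v t) Cy y1) (y2 a M ha)
      have h2 : 0 ≤ (Cx + C * Cy) * M := by positivity
      have h3 : (mvR x y).f t a = x.f t a - x.f t (y.v t) * y.f t a := by
        simp [mvR]
      rw [h3]
      linarith

private theorem mvL_ok {ρ : ℝ → G →* ((ℕ → ℝ) ≃ₗ[ℝ] (ℕ → ℝ))} {x y : RD G} (hx : RD.OK ρ x)
    (hy : RD.OK ρ y) (h : Rl x y) : RD.OK ρ (mvL x y) := by
  refine ⟨fun t ht ht1 a => ?_, fun t ht ht1 => ?_, ?_⟩
  · have e1 : ρ t (mvL x y).g a = ρ t x.g (ρ t y.g (ρ t x.g⁻¹ a)) := by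
      rw [← LinearEquiv.mul_apply, ← map_mul, ← LinearEquiv.mul_apply, ← map_mul]
      rfl
    rw [e1, refl_inv hx ht ht1, hx.act t ht ht1, hy.act t ht ht1]
    simp only [mvL, map_sub, map_smul, smul_eq_mul, LinearMap.sub_apply, LinearMap.smul_apply,
      hx.fv t ht ht1]
    funext k
    simp only [Pi.sub_apply, Pi.smul_apply, smul_eq_mul]
    have ht0 : t ≠ 0 := ht.ne'
    field_simp
    ring
  · have h1 := hx.fv t ht ht1
    have h2 := hy.fv t ht ht1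
    have ht0 : t ≠ 0 := ht.ne'
    simp only [mvL, map_sub, map_smul, smul_eq_mul, LinearMap.sub_apply, LinearMap.smul_apply,
      h1, h2]
    field_simp
    ring
  · obtain ⟨Cx, hCx, bx⟩ := hx.bd
    obtain ⟨Cy, hCy, bY⟩ := hy.bd
    obtain ⟨C, hC, hr⟩ := h
    refine ⟨Cy + (Cx * Cy) * Cx + (Cy + C * Cx), by positivity, fun t ht ht1 => ?_⟩
    obtain ⟨x1, x2⟩ := bx t ht ht1
    obtain ⟨y1, y2⟩ := bY t ht ht1
    constructor
    · intro k
      have h1 := refl_tri (y1 k) (x2 (y.v t) Cy y1) (x1 k)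
      have h2 : 0 ≤ Cy + C * Cx := by positivity
      have h3 : (mvL x y).v t k = y.v t k - x.f t (y.v t) * x.v t k := by
        simp [mvL]
      rw [h3]
      linarith
    · intro a M ha
      have hM : 0 ≤ M := (abs_nonneg _).trans (ha 0)
      have h1 := refl_tri (y2 a M ha) (refl_div ht (hr t ht ht1)) (x2 a M ha)
      have h2 : 0 ≤ (Cy + (Cx * Cy) * Cx) * M := by positivity
      have h3 : (mvL x y).f t a = y.f t a - t⁻¹ * y.f t (x.v t) * x.f t a := by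
        simp [mvL]
      rw [h3]
      linarith

/-- replacing a pair of neighbours in a good list -/
private theorem refl_replace {ρ : ℝ → G →* ((ℕ → ℝ) ≃ₗ[ℝ] (ℕ → ℝ))} {l r : List G} {a b : G}
    (h : GoodT ρ (l ++ a :: b :: r)) (a' b' : G)
    (hm : ∀ x y : RD G, x.g = a → y.g = b → RD.OK ρ x → RD.OK ρ y → Rl x y →
      ∃ p q : RD G, p.g = a' ∧ q.g = b' ∧ RD.OK ρ p ∧ RD.OK ρ q ∧ Rl p q ∧
        (∀ x0, Rl x0 x → Rl x0 y → Rl x0 p ∧ Rl x0 q) ∧
        (∀ x1, Rl x x1 → Rl y x1 → Rl p x1 ∧ Rl q x1)) :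
    GoodT ρ (l ++ a' :: b' :: r) := by
  obtain ⟨ds, h1, h2, h3⟩ := h
  obtain ⟨dl, dr0, rfl, e1, e2⟩ := List.map_eq_append_iff.1 h1
  obtain ⟨x, dr1, rfl, ex, e3⟩ := List.map_eq_cons_iff.1 e2
  obtain ⟨y, dr, rfl, ey, e4⟩ := List.map_eq_cons_iff.1 e3
  rw [List.pairwise_append, List.pairwise_cons, List.pairwise_cons] at h3
  obtain ⟨p1, ⟨p2, p3, p4⟩, p5⟩ := h3
  obtain ⟨p, q, ep, eq', okp, okq, hpq, hb, ha⟩ := hm x y ex ey (h2 x (by simp)) (h2 y (by simp))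
    (p2 y (by simp))
  refine ⟨dl ++ p :: q :: dr, ?_, ?_, ?_⟩
  · rw [List.map_append, List.map_cons, List.map_cons, e1, ep, eq', e4]
  · intro d hd
    rw [List.mem_append, List.mem_cons, List.mem_cons] at hd
    rcases hd with hd | rfl | rfl | hd
    · exact h2 d (by simp [hd])
    · exact okp
    · exact okq
    · exact h2 d (by simp [hd])
  · rw [List.pairwise_append, List.pairwise_cons, List.pairwise_cons]
    refine ⟨p1, ⟨?_, ?_, p4⟩, ?_⟩
    · intro d hd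
      rcases List.mem_cons.1 hd with rfl | hd
      · exact hpq
      · exact (ha d (p2 d (by simp [hd])) (p3 d hd)).1
    · intro d hd
      exact (ha d (p2 d (by simp [hd])) (p3 d hd)).2
    · intro d hd d' hd'
      have h4 := hb d (p5 d hd x (by simp)) (p5 d hd y (by simp))
      rcases List.mem_cons.1 hd' with rfl | hd'
      · exact h4.1
      · rcases List.mem_cons.1 hd' with rfl | hd'
        · exact h4.2
        · exact p5 d hd d' (by simp [hd'])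

private theorem refl_move {ρ : ℝ → G →* ((ℕ → ℝ) ≃ₗ[ℝ] (ℕ → ℝ))} {τ τ' : List G}
    (h : HurwitzMove τ τ') : GoodT ρ τ ↔ GoodT ρ τ' := by
  obtain ⟨l, r, a, b⟩ := h
  constructor
  · intro h
    refine refl_replace h _ _ ?_
    intro x y ex ey hx hy hxy
    refine ⟨y, mvR x y, ey, by simp only [mvR, ex, ey], hy, mvR_ok hx hy hxy, ?_, ?_, ?_⟩
    · obtain ⟨Cx, hCx, bx⟩ := hx.bd
      obtain ⟨Cy, hCy, bY⟩ := hy.bd
      refine ⟨Cx * Cy, by positivity, fun t ht ht1 => ?_⟩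
      have h3 : (mvR x y).f t (y.v t) = -(t * x.f t (y.v t)) := by
        simp only [mvR, LinearMap.sub_apply, LinearMap.smul_apply, smul_eq_mul, hy.fv t ht ht1]
        ring
      rw [h3, abs_neg, abs_mul, abs_of_pos ht, mul_comm]
      exact mul_le_mul_of_nonneg_right ((bx t ht ht1).2 _ _ (bY t ht ht1).1) ht.le
    · intro x0 h1 h2
      refine ⟨h2, ?_⟩
      obtain ⟨Cx, hCx, bx⟩ := hx.bd
      obtain ⟨Cy, hCy, bY⟩ := hy.bd
      obtain ⟨C1, hC1, r1⟩ := h1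
      obtain ⟨C2, hC2, r2⟩ := h2
      refine ⟨C1 + (Cx * Cy) * C2, by positivity, fun t ht ht1 => ?_⟩
      have h3 : (mvR x y).f t (x0.v t) = x.f t (x0.v t) - x.f t (y.v t) * y.f t (x0.v t) := by
        simp [mvR]
      rw [h3]
      have h4 := refl_tri (r1 t ht ht1) ((bx t ht ht1).2 _ _ (bY t ht ht1).1) (r2 t ht ht1)
      linarith
    · intro x1 h1 h2
      refine ⟨h2, ?_⟩
      obtain ⟨C, hC, hr⟩ := hxy
      obtain ⟨C1, hC1, r1⟩ := h1
      obtain ⟨C2, hC2, r2⟩ := h2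
      refine ⟨C1 + C * C2, by positivity, fun t ht ht1 => ?_⟩
      have h3 : x1.f t ((mvR x y).v t) =
          x1.f t (x.v t) - t⁻¹ * y.f t (x.v t) * x1.f t (y.v t) := by
        simp [mvR]
      rw [h3]
      have h4 := refl_tri (r1 t ht ht1) (refl_div ht (hr t ht ht1)) (r2 t ht ht1)
      linarith
  · intro h
    refine refl_replace h _ _ ?_
    intro x y ex ey hx hy hxy
    refine ⟨mvL x y, x, ?_, ex, mvL_ok hx hy hxy, hx, ?_, ?_, ?_⟩
    · simp only [mvL, ex, ey]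
      group
    · obtain ⟨Cx, hCx, bx⟩ := hx.bd
      obtain ⟨Cy, hCy, bY⟩ := hy.bd
      refine ⟨Cx * Cy, by positivity, fun t ht ht1 => ?_⟩
      have h3 : x.f t ((mvL x y).v t) = -(t * x.f t (y.v t)) := by
        simp only [mvL, map_sub, map_smul, smul_eq_mul, hx.fv t ht ht1]
        ring
      rw [h3, abs_neg, abs_mul, abs_of_pos ht, mul_comm]
      exact mul_le_mul_of_nonneg_right ((bx t ht ht1).2 _ _ (bY t ht ht1).1) ht.le
    · intro x0 h1 h2
      refine ⟨?_, h1⟩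
      obtain ⟨C, hC, hr⟩ := hxy
      obtain ⟨C1, hC1, r1⟩ := h1
      obtain ⟨C2, hC2, r2⟩ := h2
      refine ⟨C2 + C * C1, by positivity, fun t ht ht1 => ?_⟩
      have h3 : (mvL x y).f t (x0.v t) =
          y.f t (x0.v t) - t⁻¹ * y.f t (x.v t) * x.f t (x0.v t) := by
        simp [mvL]
      rw [h3]
      have h4 := refl_tri (r2 t ht ht1) (refl_div ht (hr t ht ht1)) (r1 t ht ht1)
      linarith
    · intro x1 h1 h2
      refine ⟨?_, h1⟩
      obtain ⟨Cx, hCx, bx⟩ := hx.bd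
      obtain ⟨Cy, hCy, bY⟩ := hy.bd
      obtain ⟨C1, hC1, r1⟩ := h1
      obtain ⟨C2, hC2, r2⟩ := h2
      refine ⟨C2 + (Cx * Cy) * C1, by positivity, fun t ht ht1 => ?_⟩
      have h3 : x1.f t ((mvL x y).v t) = x1.f t (y.v t) - x.f t (y.v t) * x1.f t (x.v t) := by
        simp [mvL]
      rw [h3]
      have h4 := refl_tri (r2 t ht ht1) ((bx t ht ht1).2 _ _ (bY t ht ht1).1) (r1 t ht ht1)
      linarith

private theorem refl_hz {ρ : ℝ → G →* ((ℕ → ℝ) ≃ₗ[ℝ] (ℕ → ℝ))} {τ τ' : List G}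
    (h : Hz τ τ') : GoodT ρ τ ↔ GoodT ρ τ' := by
  unfold Hz at h
  induction h with
  | rel x y h => exact refl_move h
  | refl x => exact Iff.rfl
  | symm x y _ ih => exact ih.symm
  | trans x y z _ _ ih1 ih2 => exact ih1.trans ih2

/-- the reflection of a generator -/
private noncomputable def gD (L : ℕ → Bool) (s : ℕ → G) (i : ℕ) : RD G where
  g := s i
  v := fun t k => (if k = i + 1 then 1 else 0) - al L t i * (if k = i then 1 else 0)
  f := fun t => LinearMap.proj (i + 1) - be L t i • LinearMap.proj i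

private theorem refl_al_nonneg (L : ℕ → Bool) {t : ℝ} (ht : 0 < t) (ht1 : t ≤ 1) (i : ℕ) :
    |al L t i| ≤ 1 ∧ |be L t i| ≤ 1 := by
  unfold al be
  split_ifs
  · rw [abs_of_pos ht, abs_one]
    exact ⟨ht1, le_rfl⟩
  · rw [abs_of_pos ht, abs_one]
    exact ⟨le_rfl, ht1⟩

private theorem gD_ok {L : ℕ → Bool} {ρ : ℝ → G →* ((ℕ → ℝ) ≃ₗ[ℝ] (ℕ → ℝ))} {i : ℕ}
    (hρ : ∀ t : ℝ, 0 < t → ∀ a, ρ t (s i) a = burF L t i a) : RD.OK ρ (gD L s i) := by
  refine ⟨fun t ht ht1 a => ?_, fun t ht ht1 => ?_, 2, by norm_num, fun t ht ht1 => ⟨?_, ?_⟩⟩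
  · have h1 : (gD L s i).g = s i := rfl
    rw [h1, hρ t ht]
    have h2 := al_mul_be L t i
    funext k
    have h3 : (gD L s i).f t a = a (i + 1) - be L t i * a i := by
      simp [gD]
    rw [Pi.sub_apply, Pi.smul_apply, smul_eq_mul, h3]
    unfold burF
    simp only [gD]
    by_cases hk : k = i
    · subst hk
      rw [if_pos rfl, if_neg (by omega), if_pos rfl]
      linear_combination (a k) * h2
    · rw [if_neg hk, if_neg hk]
      by_cases hk2 : k = i + 1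
      · rw [if_pos hk2, if_pos hk2, hk2]
        ring
      · rw [if_neg hk2, if_neg hk2]
        ring
  · have h2 := al_mul_be L t i
    have h3 : ∀ a, (gD L s i).f t a = a (i + 1) - be L t i * a i := by
      intro a
      simp [gD]
    rw [h3]
    simp only [gD]
    rw [if_pos trivial, if_neg (by omega), if_neg (by omega)]
    linear_combination h2
  · intro k
    have h1 := (refl_al_nonneg L ht ht1 i).1
    have h4 : |(if k = i + 1 then (1 : ℝ) else 0)| ≤ 1 := by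
      split_ifs <;> simp
    have h5 : |(if k = i then (1 : ℝ) else 0)| ≤ 1 := by
      split_ifs <;> simp
    have h6 := refl_tri h4 h1 h5
    simp only [gD]
    linarith
  · intro a M ha
    have hM : 0 ≤ M := (abs_nonneg _).trans (ha 0)
    have h3 : (gD L s i).f t a = a (i + 1) - be L t i * a i := by
      simp [gD]
    rw [h3]
    have h6 := refl_tri (ha (i + 1)) (refl_al_nonneg L ht ht1 i).2 (ha i)
    linarith

omit [Group G] in
private theorem gD_rl {l : List ℕ} {i j : ℕ} (hij : l.idxOf i < l.idxOf j) :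
    Rl (gD (lab l) s i) (gD (lab l) s j) := by
  have hne : i ≠ j := by
    rintro rfl
    exact lt_irrefl _ hij
  refine ⟨1, zero_le_one, fun t ht ht1 => ?_⟩
  have h3 : (gD (lab l) s j).f t ((gD (lab l) s i).v t) =
      (gD (lab l) s i).v t (j + 1) - be (lab l) t j * (gD (lab l) s i).v t j := by
    simp [gD]
  rw [h3, one_mul]
  simp only [gD]
  by_cases h1 : j + 1 = i
  · have hL : lab l i = true := by
      unfold lab
      rw [decide_eq_true_eq, ← h1, Nat.add_sub_cancel, h1]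
      exact hij
    rw [if_neg (by omega), if_pos h1, if_neg (by omega), if_neg (by omega)]
    unfold al
    rw [if_pos hL]
    rw [show (0 : ℝ) - t * 1 - be (lab l) t j * (0 - t * 0) = -t by ring, abs_neg, abs_of_pos ht]
  · by_cases h2 : j = i + 1
    · have hL : lab l j = false := by
        unfold lab
        rw [decide_eq_false_iff_not, h2, Nat.add_sub_cancel, ← h2]
        exact not_lt.2 hij.le
      rw [if_neg (by omega), if_neg h1, if_pos h2, if_neg (by omega)]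
      unfold be
      rw [hL]
      simp only [Bool.false_eq_true, if_false]
      rw [show (0 : ℝ) - al (lab l) t i * 0 - t * (1 - al (lab l) t i * 0) = -t by ring, abs_neg,
        abs_of_pos ht]
    · rw [if_neg (by omega), if_neg h1, if_neg h2, if_neg (Ne.symm hne)]
      simp [ht.le]

theorem bdOp_of_mem {l : List ℕ} (hnd : l.Nodup) (hl : ∀ i, i ∈ l ↔ i < m)
    {ρ : ℝ → G →* ((ℕ → ℝ) ≃ₗ[ℝ] (ℕ → ℝ))}
    (hρ : ∀ t : ℝ, 0 < t → ∀ i < m, ∀ a, ρ t (s i) a = burF (lab l) t i a)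
    {τ : List G} (hτ : Hz (l.map s) τ) {g : G} (hg : g ∈ τ) : BdOp ρ g := by
  have h0 : GoodT ρ (l.map s) := by
    refine ⟨l.map (gD (lab l) s), ?_, ?_, ?_⟩
    · rw [List.map_map]
      rfl
    · intro d hd
      obtain ⟨i, hi, rfl⟩ := List.mem_map.1 hd
      exact gD_ok fun t ht a => hρ t ht i ((hl i).1 hi) a
    · rw [List.pairwise_map, List.pairwise_iff_getElem]
      intro i j hi hj hij
      apply gD_rl
      rw [hnd.idxOf_getElem i hi, hnd.idxOf_getElem j hj]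
      exact hij
  obtain ⟨ds, h1, h2, h3⟩ := (refl_hz hτ).1 h0
  rw [← h1] at hg
  obtain ⟨d, hd, rfl⟩ := List.mem_map.1 hg
  have ok := h2 d hd
  obtain ⟨C, hC, hb⟩ := ok.bd
  refine ⟨1 + C * C, by positivity, fun t ht ht1 a M ha k => ?_⟩
  rw [ok.act t ht ht1, Pi.sub_apply, Pi.smul_apply, smul_eq_mul]
  obtain ⟨b1, b2⟩ := hb t ht ht1
  have h4 := refl_tri (ha k) (b2 a M ha) (b1 k)
  linarith

end H42.NC
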