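import Pool.Agent.H42.NC.BDefs

/-!
# NCW B4: `tau` occurs in the Hurwitz orbit

Let `l : List ℕ` be without repetitions, with `i ∈ l ↔ i < m`. For `i + d < m`, `tau (lab l) s i d` is an entry of
a list `Hz`-equivalent to `l.map s`.

Basic facts about `Hz` (an equivalence relation, `Relation.EqvGen.refl/symm/trans/rel`):
* (ctx) `Hz x y → Hz (a ++ x ++ b) (a ++ y ++ b)`.
* (right) `Hz (x :: K) (K' ++ [x])` for `K' = K.map (fun y => x * y * x⁻¹)` (inverse moves `(x, y) ← `: the move applied to
  `(x * y * x⁻¹, x)` gives `(x, x⁻¹ * (x * y * x⁻¹) * x) = (x, y)`, so `Hz [x, y] [x * y * x⁻¹, x]`).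
* (left) `Hz (K ++ [x]) (x :: K.map (fun y => x⁻¹ * y * x))`.
* (comm) if `x * y = y * x` for all `x ∈ A`, `y ∈ K` then `Hz (A ++ K) (K ++ A)` (and conversely).

Invariant for `1 ≤ j ≤ m`: `Dec s m l j K` := `∃ l₁ l₂, l = l₁ ++ (j-1) :: l₂ ∧
Hz (l.map s) ((l₁.filter (j ≤ ·)).map s ++ K ++ (l₂.filter (j ≤ ·)).map s) ∧ ∀ x ∈ K, ∀ k, j + 1 ≤ k → k < m → x * s k = s k * x`.
* Start: `Dec s m l 1 [s 0]` (if `0 < m`): split `l` at `0`, the filters are everything (no `0` in `l₁, l₂`).
* Step: `Dec s m l j K`, `1 ≤ j < m`, and a chosen `e ∈ K` give `K'` with `Dec s m l (j+1) K'` and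
  `(if lab l j = true then s j * e * (s j)⁻¹ else (s j)⁻¹ * e * s j) ∈ K'`; and another (or the same for no `e`) `K'` with
  `s j ∈ K'`. Proof: `j ∈ l = l₁ ++ (j-1) :: l₂`, `j ≠ j - 1`.
  - `j ∈ l₁` (then `lab l j = true`, as `idxOf j < idxOf (j-1)`): `l₁ = a ++ j :: b`, new splitting `l = a ++ j :: (b ++ (j-1) :: l₂)`.
    `(l₁.filter (j ≤ ·)).map s = A ++ s j :: B` with `A = (a.filter (j+1 ≤ ·)).map s`, `B = (b.filter (j+1 ≤ ·)).map s` (as `j ∉ a, b`).
    The elements of `B` commute with those of `K` (`B` consists of `s k`, `k ≥ j + 1`), so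
    `A ++ s j :: B ++ K ++ C ~ A ++ (s j :: K) ++ (B ++ C)`. Without `e`: `K' = s j :: K`. With `e ∈ K`, `K = K₁ ++ e :: K₂`:
    move `e` to the left end of `K` unchanged (left): `K ~ e :: K''`, and `[s j, e] ~ [s j * e * (s j)⁻¹, s j]`.
  - `j ∈ l₂` (then `lab l j = false`): symmetric: `l₂ = a ++ j :: b`, `K ++ A' ++ s j :: B' ~ A' ++ (K ++ [s j]) ++ B'`; with `e`: move `e` to the right end
    of `K` (right), `[e, s j] ~ [s j, (s j)⁻¹ * e * s j]` (a move).
  - The elements of the new `K'` commute with `s k` for `k ≥ j + 2`: `s j` does (`Artin.comm`), the elements of `K` do, and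
    the others are conjugates (`x * y * x⁻¹`) of such elements by such elements (use `Commute`: `Commute.mul_left`, `Commute.inv_left`).
* Conclusion: run the steps without `e` up to `j = i`, then get `s i ∈ K'` with `Dec (i+1) K'` (for `i = 0`: the start), then `d` steps with `e`:
  `tau (lab l) s i d ∈ K` with `Dec s m l (i + d + 1) K` (note `tau L s i (d+1)` is built from `tau L s i d` with `j = i + d + 1`).
-/

namespace H42.NC

variable {G : Type*} [Group G] {m : ℕ} {s : ℕ → G}

private theorem tauMem_ctx (a b : List G) {x y : List G} (h : Hz x y) :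
    Hz (a ++ x ++ b) (a ++ y ++ b) := by
  unfold Hz at h ⊢
  induction h with
  | rel x y h =>
    obtain ⟨l, r, p, q⟩ := h
    have h1 := HurwitzMove.move (a ++ l) (r ++ b) p q
    have e1 : a ++ (l ++ p :: q :: r) ++ b = (a ++ l) ++ p :: q :: (r ++ b) := by simp
    have e2 : a ++ (l ++ q :: (q⁻¹ * p * q) :: r) ++ b =
        (a ++ l) ++ q :: (q⁻¹ * p * q) :: (r ++ b) := by simp
    rw [e1, e2]
    exact Relation.EqvGen.rel _ _ h1
  | refl x => exact Relation.EqvGen.refl _
  | symm x y _ ih => exact Relation.EqvGen.symm _ _ ih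
  | trans x y z _ _ ih1 ih2 => exact Relation.EqvGen.trans _ _ _ ih1 ih2

private theorem tauMem_refl (x : List G) : Hz x x := Relation.EqvGen.refl _

private theorem tauMem_symm {x y : List G} (h : Hz x y) : Hz y x := Relation.EqvGen.symm _ _ h

private theorem tauMem_trans {x y z : List G} (h : Hz x y) (h' : Hz y z) : Hz x z :=
  Relation.EqvGen.trans _ _ _ h h'

private theorem tauMem_pre (a : List G) {x y : List G} (h : Hz x y) : Hz (a ++ x) (a ++ y) := by
  have := tauMem_ctx a [] h
  simpa using this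

private theorem tauMem_cons (a : G) {x y : List G} (h : Hz x y) : Hz (a :: x) (a :: y) :=
  tauMem_pre [a] h

private theorem tauMem_post (b : List G) {x y : List G} (h : Hz x y) : Hz (x ++ b) (y ++ b) :=
  tauMem_ctx [] b h

private theorem tauMem_move (x y : G) (r : List G) :
    Hz (x :: y :: r) (y :: (y⁻¹ * x * y) :: r) :=
  Relation.EqvGen.rel _ _ (HurwitzMove.move [] r x y)

private theorem tauMem_move' (x y : G) (r : List G) :
    Hz (x :: y :: r) ((x * y * x⁻¹) :: x :: r) := by
  have h := tauMem_symm (tauMem_move (x * y * x⁻¹) x r)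
  have e : x⁻¹ * (x * y * x⁻¹) * x = y := by group
  rw [e] at h
  exact h

/-- `x` moves to the right through `K`. -/
private theorem tauMem_right (x : G) (K : List G) :
    Hz (x :: K) (K.map (fun y => x * y * x⁻¹) ++ [x]) := by
  induction K with
  | nil => exact tauMem_refl _
  | cons k K ih =>
    refine tauMem_trans (tauMem_move' x k K) ?_
    exact tauMem_cons _ ih

/-- `x` moves to the left through `K`. -/
private theorem tauMem_left (x : G) (K : List G) :
    Hz (K ++ [x]) (x :: K.map (fun y => x⁻¹ * y * x)) := by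
  induction K with
  | nil => exact tauMem_refl _
  | cons k K ih =>
    refine tauMem_trans (tauMem_cons k ih) ?_
    exact tauMem_move k x _

private theorem tauMem_comm1 (x : G) (K : List G) (h : ∀ y ∈ K, x * y = y * x) :
    Hz (x :: K) (K ++ [x]) := by
  have h1 := tauMem_right x K
  have e : K.map (fun y => x * y * x⁻¹) = K := by
    conv_rhs => rw [← List.map_id K]
    refine List.map_congr_left fun y hy => ?_
    rw [h y hy]
    simp
  rw [e] at h1
  exact h1

private theorem tauMem_comm (A K : List G) (h : ∀ x ∈ A, ∀ y ∈ K, x * y = y * x) :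
    Hz (A ++ K) (K ++ A) := by
  induction A with
  | nil => simpa using tauMem_refl K
  | cons x A ih =>
    have h1 := tauMem_cons x (ih fun a ha => h a (List.mem_cons_of_mem _ ha))
    have h2 := tauMem_post A (tauMem_comm1 x K fun y hy => h x List.mem_cons_self y hy)
    have e : K ++ [x] ++ A = K ++ x :: A := by simp
    rw [e] at h2
    exact tauMem_trans h1 h2

/-- The elements commuting with `s k`, `j < k < m`. -/
private def tauMem_Z (m : ℕ) (s : ℕ → G) (j : ℕ) : Subgroup G :=
  Subgroup.centralizer {g | ∃ k, j + 1 ≤ k ∧ k < m ∧ g = s k}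

private theorem tauMem_mem_Z {j : ℕ} {x : G} :
    x ∈ tauMem_Z m s j ↔ ∀ k, j + 1 ≤ k → k < m → s k * x = x * s k := by
  unfold tauMem_Z
  rw [Subgroup.mem_centralizer_iff]
  constructor
  · intro h k h1 h2
    exact h (s k) ⟨k, h1, h2, rfl⟩
  · rintro h g ⟨k, h1, h2, rfl⟩
    exact h k h1 h2

private theorem tauMem_Z_succ {j : ℕ} {x : G} (h : x ∈ tauMem_Z m s j) :
    x ∈ tauMem_Z m s (j + 1) := by
  rw [tauMem_mem_Z] at h ⊢
  exact fun k h1 h2 => h k (by omega) h2

private theorem tauMem_Z_gen (hs : Artin m s) (j : ℕ) : s j ∈ tauMem_Z m s (j + 1) := by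
  rw [tauMem_mem_Z]
  intro k h1 h2
  exact (hs.comm j k (by omega) h2).symm

/-- The invariant. -/
private def tauMem_Dec (s : ℕ → G) (m : ℕ) (l : List ℕ) (j : ℕ) (K : List G) : Prop :=
  ∃ l₁ l₂ : List ℕ, l = l₁ ++ (j - 1) :: l₂ ∧
    Hz (l.map s) ((l₁.filter (fun x => decide (j ≤ x))).map s ++ K ++
      (l₂.filter (fun x => decide (j ≤ x))).map s) ∧ ∀ x ∈ K, x ∈ tauMem_Z m s j

private theorem tauMem_filter {j : ℕ} {a : List ℕ} (h : j ∉ a) :
    a.filter (fun x => decide (j ≤ x)) = a.filter (fun x => decide (j + 1 ≤ x)) := by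
  refine List.filter_congr fun x hx => ?_
  have hne : x ≠ j := fun e => h (e ▸ hx)
  rw [decide_eq_decide]
  omega

private theorem tauMem_start (hs : Artin m s) {l : List ℕ} (hnd : l.Nodup)
    (hl : ∀ i, i ∈ l ↔ i < m) (hm : 0 < m) : tauMem_Dec s m l 1 [s 0] := by
  obtain ⟨l₁, l₂, e⟩ := List.append_of_mem ((hl 0).2 hm)
  refine ⟨l₁, l₂, e, ?_, ?_⟩
  · have h1 : 0 ∉ l₁ := by
      intro h
      rw [e] at hnd
      exact (List.nodup_append.1 hnd).2.2 0 h 0 List.mem_cons_self rfl
    have h2 : 0 ∉ l₂ := by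
      intro h
      rw [e] at hnd
      exact (List.nodup_cons.1 (List.nodup_append.1 hnd).2.1).1 h
    have f : ∀ a : List ℕ, 0 ∉ a → a.filter (fun x => decide (1 ≤ x)) = a := by
      intro a ha
      rw [List.filter_eq_self]
      intro x hx
      rw [decide_eq_true_eq]
      have : x ≠ 0 := fun e => ha (e ▸ hx)
      omega
    rw [f l₁ h1, f l₂ h2, e]
    simp only [List.map_append, List.map_cons, List.append_assoc, List.cons_append,
      List.nil_append]
    exact tauMem_refl _
  · intro x hx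
    rw [List.mem_singleton] at hx
    subst hx
    rw [tauMem_mem_Z]
    intro k h1 h2
    exact (hs.comm 0 k (by omega) h2).symm

/-- Common part of the steps. -/
private theorem tauMem_build (hs : Artin m s) {l : List ℕ} (hnd : l.Nodup)
    (hl : ∀ i, i ∈ l ↔ i < m) {j : ℕ} {K : List G} (hj : 1 ≤ j) (hjm : j < m)
    (hD : tauMem_Dec s m l j K) :
    (lab l j = true ∧ ∀ K' : List G, Hz (s j :: K) K' → (∀ x ∈ K', x ∈ tauMem_Z m s (j + 1)) →
      tauMem_Dec s m l (j + 1) K') ∨
    (lab l j = false ∧ ∀ K' : List G, Hz (K ++ [s j]) K' →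
      (∀ x ∈ K', x ∈ tauMem_Z m s (j + 1)) → tauMem_Dec s m l (j + 1) K') := by
  obtain ⟨l₁, l₂, e, hH, hK⟩ := hD
  have hjl : j ∈ l := (hl j).2 hjm
  have hjne : j ≠ j - 1 := by omega
  have hlt : ∀ a : List ℕ, ∀ x ∈ (a.filter (fun x => decide (j + 1 ≤ x))), j + 1 ≤ x := by
    intro a x hx
    have := (List.mem_filter.1 hx).2
    simpa using this
  rw [e] at hjl
  rcases List.mem_append.1 hjl with h | h
  · left
    obtain ⟨a, b, e1⟩ := List.append_of_mem h
    have el : l = a ++ j :: (b ++ (j - 1) :: l₂) := by rw [e, e1]; simp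
    have hnd' := hnd
    rw [el] at hnd'
    have hn1 := List.nodup_append.1 hnd'
    have hn2 := List.nodup_cons.1 hn1.2.1
    have ha : j ∉ a := fun h => hn1.2.2 j h j List.mem_cons_self rfl
    have ha' : j - 1 ∉ a := fun h => hn1.2.2 (j - 1) h (j - 1) (by simp) rfl
    have hb : j ∉ b := fun h => hn2.1 (List.mem_append_left _ h)
    have hl2 : j ∉ l₂ := fun h => hn2.1 (List.mem_append_right _ (List.mem_cons_of_mem _ h))
    have hlab : lab l j = true := by
      unfold lab
      rw [decide_eq_true_eq, el, List.idxOf_append_of_notMem ha, List.idxOf_append_of_notMem ha',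
        List.idxOf_cons_self, List.idxOf_cons_ne _ hjne]
      omega
    refine ⟨hlab, fun K' hK' hZ => ⟨a, b ++ (j - 1) :: l₂, el, ?_, hZ⟩⟩
    have f1 : (b ++ (j - 1) :: l₂).filter (fun x => decide (j + 1 ≤ x)) =
        b.filter (fun x => decide (j + 1 ≤ x)) ++ l₂.filter (fun x => decide (j + 1 ≤ x)) := by
      rw [List.filter_append, List.filter_cons_of_neg]
      rw [decide_eq_true_eq]
      omega
    have f2 : l₁.filter (fun x => decide (j ≤ x)) =
        a.filter (fun x => decide (j + 1 ≤ x)) ++ j :: b.filter (fun x => decide (j + 1 ≤ x)) := by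
      rw [e1, List.filter_append, List.filter_cons_of_pos (by simp), tauMem_filter ha,
        tauMem_filter hb]
    rw [f2, tauMem_filter hl2] at hH
    rw [f1]
    refine tauMem_trans hH ?_
    set A := (a.filter (fun x => decide (j + 1 ≤ x))).map s with hA
    set B := (b.filter (fun x => decide (j + 1 ≤ x))).map s with hB
    set C := (l₂.filter (fun x => decide (j + 1 ≤ x))).map s with hC
    have hcomm : Hz (B ++ K) (K ++ B) := by
      refine tauMem_comm B K fun x hx y hy => ?_
      rw [hB, List.mem_map] at hx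
      obtain ⟨k, hk, rfl⟩ := hx
      have hkm : k < m := (hl k).1 (by
        rw [el]
        have := (List.mem_filter.1 hk).1
        simp [this])
      exact tauMem_mem_Z.1 (hK y hy) k (hlt b k hk) hkm
    have g1 := tauMem_ctx (A ++ [s j]) C hcomm
    have g2 := tauMem_ctx A (B ++ C) hK'
    have e3 : List.map s (a.filter (fun x => decide (j + 1 ≤ x)) ++
        j :: b.filter (fun x => decide (j + 1 ≤ x))) ++ K ++ C =
        (A ++ [s j]) ++ (B ++ K) ++ C := by
      simp [hA, hB]
    have e4 : (A ++ [s j]) ++ (K ++ B) ++ C = A ++ (s j :: K) ++ (B ++ C) := by simp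
    have e5 : A ++ K' ++ (B ++ C) = A ++ K' ++ List.map s
        (b.filter (fun x => decide (j + 1 ≤ x)) ++ l₂.filter (fun x => decide (j + 1 ≤ x))) := by
      simp [hB, hC]
    rw [e3, ← e5]
    rw [e4] at g1
    exact tauMem_trans g1 g2
  · right
    rcases List.mem_cons.1 h with h | h
    · exact absurd h hjne
    obtain ⟨a, b, e1⟩ := List.append_of_mem h
    have el : l = (l₁ ++ (j - 1) :: a) ++ j :: b := by rw [e, e1]; simp
    have hnd' := hnd
    rw [el] at hnd'
    have hn1 := List.nodup_append.1 hnd'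
    have hn2 := List.nodup_cons.1 hn1.2.1
    have ha0 : j ∉ l₁ ++ (j - 1) :: a := fun h => hn1.2.2 j h j List.mem_cons_self rfl
    have hl1 : j ∉ l₁ := fun h => ha0 (List.mem_append_left _ h)
    have ha : j ∉ a := fun h => ha0 (List.mem_append_right _ (List.mem_cons_of_mem _ h))
    have hb : j ∉ b := hn2.1
    have hl1' : j - 1 ∉ l₁ := by
      intro h
      have := (List.nodup_append.1 hn1.1).2.2 (j - 1) h (j - 1) List.mem_cons_self
      exact this rfl
    have hlab : lab l j = false := by
      unfold lab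
      rw [decide_eq_false_iff_not, e, List.idxOf_append_of_notMem hl1,
        List.idxOf_append_of_notMem hl1', List.idxOf_cons_self, List.idxOf_cons_ne _ hjne.symm]
      omega
    refine ⟨hlab, fun K' hK' hZ => ⟨l₁ ++ (j - 1) :: a, b, el, ?_, hZ⟩⟩
    have f1 : (l₁ ++ (j - 1) :: a).filter (fun x => decide (j + 1 ≤ x)) =
        l₁.filter (fun x => decide (j + 1 ≤ x)) ++ a.filter (fun x => decide (j + 1 ≤ x)) := by
      rw [List.filter_append, List.filter_cons_of_neg]
      rw [decide_eq_true_eq]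
      omega
    have f2 : l₂.filter (fun x => decide (j ≤ x)) =
        a.filter (fun x => decide (j + 1 ≤ x)) ++ j :: b.filter (fun x => decide (j + 1 ≤ x)) := by
      rw [e1, List.filter_append, List.filter_cons_of_pos (by simp), tauMem_filter ha,
        tauMem_filter hb]
    rw [f2, tauMem_filter hl1] at hH
    rw [f1]
    refine tauMem_trans hH ?_
    set A := (a.filter (fun x => decide (j + 1 ≤ x))).map s with hA
    set B := (b.filter (fun x => decide (j + 1 ≤ x))).map s with hB
    set C := (l₁.filter (fun x => decide (j + 1 ≤ x))).map s with hC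
    have hcomm : Hz (K ++ A) (A ++ K) := by
      refine tauMem_comm K A fun x hx y hy => ?_
      rw [hA, List.mem_map] at hy
      obtain ⟨k, hk, rfl⟩ := hy
      have hkm : k < m := (hl k).1 (by
        rw [el]
        have := (List.mem_filter.1 hk).1
        simp [this])
      exact (tauMem_mem_Z.1 (hK x hx) k (hlt a k hk) hkm).symm
    have g1 := tauMem_ctx C (s j :: B) hcomm
    have g2 := tauMem_ctx (C ++ A) B hK'
    have e3 : C ++ K ++ List.map s (a.filter (fun x => decide (j + 1 ≤ x)) ++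
        j :: b.filter (fun x => decide (j + 1 ≤ x))) =
        C ++ (K ++ A) ++ (s j :: B) := by
      simp [hA, hB]
    have e4 : C ++ (A ++ K) ++ (s j :: B) = (C ++ A) ++ (K ++ [s j]) ++ B := by simp
    have e5 : (C ++ A) ++ K' ++ B = List.map s (l₁.filter (fun x => decide (j + 1 ≤ x)) ++
        a.filter (fun x => decide (j + 1 ≤ x))) ++ K' ++ B := by
      simp [hA, hC]
    rw [e3, ← e5]
    rw [e4] at g1
    exact tauMem_trans g1 g2

private theorem tauMem_step (hs : Artin m s) {l : List ℕ} (hnd : l.Nodup)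
    (hl : ∀ i, i ∈ l ↔ i < m) {j : ℕ} {K : List G} (hj : 1 ≤ j) (hjm : j < m)
    (hD : tauMem_Dec s m l j K) :
    (∃ K', tauMem_Dec s m l (j + 1) K' ∧ s j ∈ K') ∧
    ∀ e ∈ K, ∃ K', tauMem_Dec s m l (j + 1) K' ∧
      (if lab l j = true then s j * e * (s j)⁻¹ else (s j)⁻¹ * e * s j) ∈ K' := by
  have hK : ∀ x ∈ K, x ∈ tauMem_Z m s (j + 1) := by
    obtain ⟨_, _, _, _, hK⟩ := hD
    exact fun x hx => tauMem_Z_succ (hK x hx)
  have hsj := tauMem_Z_gen hs j
  rcases tauMem_build hs hnd hl hj hjm hD with ⟨hlab, hb⟩ | ⟨hlab, hb⟩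
  · refine ⟨⟨s j :: K, hb _ (tauMem_refl _) ?_, List.mem_cons_self⟩, ?_⟩
    · intro x hx
      rcases List.mem_cons.1 hx with rfl | hx
      · exact hsj
      · exact hK x hx
    · intro e he
      obtain ⟨K₁, K₂, eK⟩ := List.append_of_mem he
      rw [if_pos hlab]
      refine ⟨(s j * e * (s j)⁻¹) :: s j :: (K₁.map (fun y => e⁻¹ * y * e) ++ K₂), hb _ ?_ ?_,
        List.mem_cons_self⟩
      · have h1 := tauMem_post K₂ (tauMem_left e K₁)
        have h2 := tauMem_cons (s j) h1
        have e1 : s j :: (K₁ ++ [e] ++ K₂) = s j :: K := by rw [eK]; simp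
        rw [e1] at h2
        refine tauMem_trans h2 ?_
        exact tauMem_move' (s j) e _
      · have heZ := hK e he
        intro x hx
        simp only [List.mem_cons, List.mem_append, List.mem_map] at hx
        rcases hx with rfl | rfl | ⟨y, hy, rfl⟩ | hx
        · exact mul_mem (mul_mem hsj heZ) (inv_mem hsj)
        · exact hsj
        · exact mul_mem (mul_mem (inv_mem heZ) (hK y (by rw [eK]; simp [hy]))) heZ
        · exact hK x (by rw [eK]; simp [hx])
  · refine ⟨⟨K ++ [s j], hb _ (tauMem_refl _) ?_, by simp⟩, ?_⟩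
    · intro x hx
      rcases List.mem_append.1 hx with hx | hx
      · exact hK x hx
      · rw [List.mem_singleton] at hx
        subst hx
        exact hsj
    · intro e he
      obtain ⟨K₁, K₂, eK⟩ := List.append_of_mem he
      have hl' : ¬(lab l j = true) := by rw [hlab]; decide
      rw [if_neg hl']
      refine ⟨K₁ ++ K₂.map (fun y => e * y * e⁻¹) ++ [s j, (s j)⁻¹ * e * s j], hb _ ?_ ?_,
        by simp⟩
      · have h1 := tauMem_ctx K₁ [s j] (tauMem_right e K₂)
        have h2 := tauMem_pre (K₁ ++ K₂.map (fun y => e * y * e⁻¹)) (tauMem_move e (s j) [])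
        have e1 : K₁ ++ (e :: K₂) ++ [s j] = K ++ [s j] := by rw [eK]
        have e2 : K₁ ++ (K₂.map (fun y => e * y * e⁻¹) ++ [e]) ++ [s j] =
            K₁ ++ K₂.map (fun y => e * y * e⁻¹) ++ [e, s j] := by simp
        rw [e1, e2] at h1
        exact tauMem_trans h1 h2
      · have heZ := hK e he
        intro x hx
        simp only [List.mem_cons, List.mem_append, List.mem_map, List.not_mem_nil,
          or_false] at hx
        rcases hx with (hx | ⟨y, hy, rfl⟩) | rfl | rfl
        · exact hK x (by rw [eK]; simp [hx])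
        · exact mul_mem (mul_mem heZ (hK y (by rw [eK]; simp [hy]))) (inv_mem heZ)
        · exact hsj
        · exact mul_mem (mul_mem (inv_mem hsj) heZ) hsj

private theorem tauMem_first (hs : Artin m s) {l : List ℕ} (hnd : l.Nodup)
    (hl : ∀ i, i ∈ l ↔ i < m) (i : ℕ) (hi : i < m) :
    ∃ K, tauMem_Dec s m l (i + 1) K ∧ s i ∈ K := by
  induction i with
  | zero => exact ⟨[s 0], tauMem_start hs hnd hl hi, by simp⟩
  | succ i ih =>
    obtain ⟨K, hK, _⟩ := ih (by omega)
    exact (tauMem_step hs hnd hl (by omega) hi hK).1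

theorem tau_mem (hs : Artin m s) {l : List ℕ} (hnd : l.Nodup) (hl : ∀ i, i ∈ l ↔ i < m)
    (i d : ℕ) (hid : i + d < m) :
    ∃ τ : List G, Hz (l.map s) τ ∧ tau (lab l) s i d ∈ τ := by
  have key : ∀ d, i + d < m → ∃ K, tauMem_Dec s m l (i + d + 1) K ∧ tau (lab l) s i d ∈ K := by
    intro d
    induction d with
    | zero => exact fun h => tauMem_first hs hnd hl i h
    | succ d ih =>
      intro h
      obtain ⟨K, hK, hmem⟩ := ih (by omega)
      exact (tauMem_step hs hnd hl (by omega) h hK).2 _ hmem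
  obtain ⟨K, ⟨l₁, l₂, _, hH, _⟩, hmem⟩ := key d hid
  exact ⟨_, hH, List.mem_append_left _ (List.mem_append_right _ hmem)⟩

end H42.NC
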