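import Pool.Agent.H42.NC.Mats

/-!
# NCW B3: visible exchanges are right multiplications by `tau`

Induction on `d` (for all `w g`), `j = i + d + 1`.
* `d = 0`: `tau L s i 0 = s i`, `w i < w (i+1)`: `Lf.step`.
* `d + 1`: put `p = i + d + 1` (so the pair is `i < p + 1`, `p` is an interior position, and
  `tau L s i (d+1) = s p * tau L s i d * (s p)⁻¹` if `L p = true`, `(s p)⁻¹ * tau L s i d * s p` if `L p = false`).
  Let `w₁ = w * swap p (p+1)`: `w₁ p = w (p+1)`, `w₁ (p+1) = w p`. Then `Vis L w₁ i p`: `w₁ i = w i < w (p+1) = w₁ p`, and for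
  `i < k < p` we have `w₁ k = w k`.
  - Upper case `L p = false`: visibility gives `w (p+1) < w p`, so `w₁ p < w₁ (p+1)` and `w₁ * swap p (p+1) = w`. Let
    `Lf w₁ g₁` (`exists_Lf`, `Fix` from `Lf.fix` and `Fix.mul_swap`); `g = g₁ * s p` by `Lf.step_eq`. Induction:
    `Lf (w₁ * swap i p) (g₁ * tau i d)`. Let `w₂ = w₁ * swap i p`: `w₂ i = w (p+1)`, `w₂ p = w i`, `w₂ (p+1) = w p`; `w i < w (p+1) < w p`,
    so `Lf (w₂ * swap p (p+1)) (g₁ * tau i d * s p)`, and `w₂ * swap p (p+1) = w * swap i (p+1)` because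
    `swap p (p+1) * swap i p * swap p (p+1) = swap i (p+1)`. Finally `g₁ * tau i d * s p = g * ((s p)⁻¹ * tau i d * s p)`.
  - Lower case `L p = true`: visibility gives `w p < w i < w (p+1)`. So `Lf w₁ (g * s p)`; by induction
    `Lf w₂ (g * s p * tau i d)`, `w₂ = w₁ * swap i p`: `w₂ i = w (p+1)`, `w₂ p = w i`, `w₂ (p+1) = w p`. The target is
    `w' = w * swap i (p+1)` with `w' p = w p < w i = w' (p+1)` and `w' * swap p (p+1) = w₂`. Take `Lf w' g'` (`exists_Lf`); then
    `g * s p * tau i d = g' * s p` by `Lf.step_eq`, so `g' = g * (s p * tau i d * (s p)⁻¹)`.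
-/

namespace H42.NC

variable {G : Type*} [Group G] {m : ℕ} {s : ℕ → G}

private theorem tv_conj (w : Equiv.Perm ℕ) {i p : ℕ} (h : i < p) :
    w * Equiv.swap p (p + 1) * Equiv.swap i p * Equiv.swap p (p + 1) =
      w * Equiv.swap i (p + 1) := by
  rw [mul_assoc w, mul_assoc w, Equiv.swap_mul_swap_mul_swap (by omega) (by omega),
    Equiv.swap_comm]

theorem Lf.vis (L : ℕ → Bool) (hs : Artin m s) (i : ℕ) : ∀ (d : ℕ) (w : Equiv.Perm ℕ) (g : G),
    i + d + 1 ≤ m → Lf m s w g → Vis L w i (i + d + 1) →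
    Lf m s (w * Equiv.swap i (i + d + 1)) (g * tau L s i d) := by
  intro d
  induction d with
  | zero =>
    intro w g hm hw hv
    exact Lf.step hw (by omega) hv.2.1
  | succ d ih =>
    intro w g hm hw hv
    have e1 : i + (d + 1) + 1 = (i + d + 1) + 1 := by omega
    rw [e1] at hm hv ⊢
    have htau : tau L s i (d + 1) = if L (i + d + 1) = true then
        s (i + d + 1) * tau L s i d * (s (i + d + 1))⁻¹
        else (s (i + d + 1))⁻¹ * tau L s i d * s (i + d + 1) := rfl
    rw [htau]
    generalize hp : i + d + 1 = p at *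
    have hip : i < p := by omega
    have hpm : p < m := by omega
    obtain ⟨_, hv1, hv2⟩ := hv
    have hne1 : i ≠ p := by omega
    have hne2 : i ≠ p + 1 := by omega
    have hne3 : p ≠ p + 1 := by omega
    have a1 : (w * Equiv.swap p (p + 1)) i = w i := by
      rw [Equiv.Perm.mul_apply, Equiv.swap_apply_of_ne_of_ne hne1 hne2]
    have a2 : (w * Equiv.swap p (p + 1)) p = w (p + 1) := by
      rw [Equiv.Perm.mul_apply, Equiv.swap_apply_left]
    have a3 : (w * Equiv.swap p (p + 1)) (p + 1) = w p := by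
      rw [Equiv.Perm.mul_apply, Equiv.swap_apply_right]
    have hv' : Vis L (⇑(w * Equiv.swap p (p + 1) : Equiv.Perm ℕ)) i p := by
      refine ⟨hip, ?_, ?_⟩
      · rw [a1, a2]
        exact hv1
      · intro k hk1 hk2
        have a4 : (w * Equiv.swap p (p + 1)) k = w k := by
          rw [Equiv.Perm.mul_apply, Equiv.swap_apply_of_ne_of_ne (by omega) (by omega)]
        rw [a1, a2, a4]
        exact hv2 k hk1 (by omega)
    have hfix : Fix (m + 1) w := hw.fix
    by_cases hL : L p = true
    · rw [if_pos hL]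
      have h1 : w p < w i := (hv2 p hip (by omega)).1 hL
      have h2 : Lf m s (w * Equiv.swap p (p + 1)) (g * s p) :=
        Lf.step hw hpm (h1.trans hv1)
      have h3 := ih (w * Equiv.swap p (p + 1)) (g * s p) (by omega) h2 hv'
      obtain ⟨g', hg'⟩ := exists_Lf (m := m) s (w * Equiv.swap i (p + 1))
        (hfix.mul_swap (by omega) (by omega))
      have b1 : (w * Equiv.swap i (p + 1)) p = w p := by
        rw [Equiv.Perm.mul_apply, Equiv.swap_apply_of_ne_of_ne hne1.symm hne3]
      have b2 : (w * Equiv.swap i (p + 1)) (p + 1) = w i := by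
        rw [Equiv.Perm.mul_apply, Equiv.swap_apply_right]
      have h4 : w * Equiv.swap i (p + 1) * Equiv.swap p (p + 1) =
          w * Equiv.swap p (p + 1) * Equiv.swap i p := by
        rw [← tv_conj w hip, mul_assoc _ (Equiv.swap p (p + 1)) (Equiv.swap p (p + 1)),
          Equiv.swap_mul_self, mul_one]
      rw [← h4] at h3
      have h5 := Lf.step_eq hs hg' hpm (by rw [b1, b2]; exact h1) h3
      have h6 : g' = g * (s p * tau L s i d * (s p)⁻¹) := by
        rw [← mul_assoc, ← mul_assoc, h5, mul_inv_cancel_right]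
      rw [← h6]
      exact hg'
    · rw [if_neg hL]
      have hL' : L p = false := by simpa using hL
      have h1 : w (p + 1) < w p := (hv2 p hip (by omega)).2 hL'
      obtain ⟨g₁, hg₁⟩ := exists_Lf (m := m) s (w * Equiv.swap p (p + 1))
        (hfix.mul_swap (by omega) (by omega))
      have h2 : w * Equiv.swap p (p + 1) * Equiv.swap p (p + 1) = w := by
        rw [mul_assoc, Equiv.swap_mul_self, mul_one]
      have h3 : g = g₁ * s p :=
        Lf.step_eq hs hg₁ hpm (by rw [a2, a3]; exact h1) (by rw [h2]; exact hw)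
      have h4 := ih (w * Equiv.swap p (p + 1)) g₁ (by omega) hg₁ hv'
      have b1 : (w * Equiv.swap p (p + 1) * Equiv.swap i p) p = w i := by
        rw [Equiv.Perm.mul_apply, Equiv.swap_apply_right, a1]
      have b2 : (w * Equiv.swap p (p + 1) * Equiv.swap i p) (p + 1) = w p := by
        rw [Equiv.Perm.mul_apply, Equiv.swap_apply_of_ne_of_ne hne2.symm hne3.symm, a3]
      have h5 := Lf.step h4 hpm (by rw [b1, b2]; exact hv1.trans h1)
      rw [tv_conj w hip] at h5
      have h6 : g * ((s p)⁻¹ * tau L s i d * s p) = g₁ * tau L s i d * s p := by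
        rw [h3]
        group
      rw [h6]
      exact h5

end H42.NC
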