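import Pool.Agent.H42.NC.Down
import Pool.Agent.H42.NC.Inv

/-!
# NCW B10: bounded kernel implies the criterion `Cr L n u v`

Let `Bd L n u v`, `Fix n u`, `Fix n v`. Positions: `u⁻¹ z`, `v⁻¹ z` for the value `z < n`.

* `bru`: for all `t p`: `H L n u t p ≤ H L n v t p`. Induction on `t`: `t = 0` equality (`H_zero`); from `t` to `t + 1`
  (for `t < n`, `p ≤ n`): `H_thr`-type lemmas: the difference `H v - H u` changes by `[p ≤ v⁻¹ t] - [p ≤ u⁻¹ t]`; it decreases only if
  `v⁻¹ t < p ≤ u⁻¹ t` and then `down` (with `k = p`) says `0 ≤ Dx L n u v p t p = H v (t+1) p - H u (t+1) p`. For `t ≥ n` nothing changes (no value `t` on positions `< n`),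
  for `p ≥ n` both sides are `0` (`H_ge`).
* `up` : for all `z < n`, `u⁻¹ z < q ≤ p ≤ v⁻¹ z`: `H L n u z q ≤ H L n v z p`. Strong induction on `z`. Let `q*` be the LARGEST
  `q* ∈ (u⁻¹ z, p]` at which `H L n u z` attains its maximum over `(u⁻¹ z, p]`; it suffices to prove the inequality for `q = q*`. If `q* = p`: `bru`. Otherwise
  `H u z (q*+1) < H u z q*`, so `chi L u z q* = 1` (`H_step`, `chi_le_one`), so `L q* = false` and `x := u q* < z`. Apply the definition of `Phi` at `k = q*`
  (`u k = x`): `Phi = [p ≤ v⁻¹ x] t ^ Dx x q* - (1-t) ∑_{z' > x, u⁻¹ z' < q*, p ≤ v⁻¹ z'} t ^ Dx (z'-1) q*`, the term `z' = z` occurs and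
  `Dx L n u v p (z-1) q* = H v z p - H u z q*` (`z ≥ 1` as `x < z`). If `v⁻¹ x < p` the first term is absent, so `(1-t) t ^ Dx (z-1) q* ≤ C` and `exp_nonneg` (with `2 * C`)
  gives the claim. If `p ≤ v⁻¹ x`, then `x` moves from `u⁻¹ x = q* < q* + 1 ≤ p ≤ v⁻¹ x`, so by induction `H u x (q*+1) ≤ H v x p`;
  `H v (x+1) p = H v x p + 1` (`H_thr_of_le`), `H u (x+1) q* = H u x q* + 1`, `H u x q* = H u x (q*+1) + chi L u x q*`, `chi L u x q* = 0` (`chi_U_ge`), so
  `Dx L n u v p x q* = H v x p - H u x (q*+1) ≥ 0` and the first term is `≤ 1` for `t ≤ 1`; again `(1-t) t ^ Dx (z-1) q* ≤ C + 1`.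
  (Instead of the largest maximizer one can do, for fixed `z` and `p`, a downward induction on `q`: if `q = p` use `bru`;
  if `H u z q ≤ H u z (q+1)` use the statement for `q + 1`; otherwise `chi L u z q = 1` and argue as above with `q* = q`.)
* `cr_of_bd`: for positions `x y < n` with `u x = v y =: z`, (so `u⁻¹ z = x`, `v⁻¹ z = y`): first part: `y < q ≤ p ≤ x`:
  `down` with (`p := q`, `k := p`): `0 ≤ H v (z+1) q - H u (z+1) p`, `H v (z+1) q = H v z q` (`H_thr_of_gt`), `H u (z+1) p = H u z p + 1` (`H_thr_of_le`).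
  Second part: `up`.
-/

namespace H42.NC

private theorem up_ai (w : Equiv.Perm ℕ) (z : ℕ) : w (w⁻¹ z) = z := Equiv.apply_symm_apply w z

private theorem up_ia (w : Equiv.Perm ℕ) (z : ℕ) : w⁻¹ (w z) = z := Equiv.symm_apply_apply w z

private theorem up_inv_lt {n : ℕ} {w : Equiv.Perm ℕ} (h : Fix n w) {z : ℕ} (hz : z < n) :
    w⁻¹ z < n := by
  have := (h.lt_iff (w⁻¹ z)).mp (by rw [up_ai]; exact hz)
  exact this

theorem Up_bru {L : ℕ → Bool} {n : ℕ} {u v : Equiv.Perm ℕ} (hu : Fix n u) (hv : Fix n v)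
    (hb : Bd L n u v) (t : ℕ) : ∀ p, H L n u t p ≤ H L n v t p := by
  induction t with
  | zero =>
    intro p
    exact le_of_eq (H_zero 0 (fun k _ => ⟨Nat.zero_le _, Nat.zero_le _⟩) p)
  | succ t ih =>
    intro p
    by_cases hpn : n ≤ p
    · rw [H_ge hpn, H_ge hpn]
    push Not at hpn
    by_cases htn : n ≤ t
    · have h1 : H L n u (t + 1) p = H L n u t p := by
        apply H_thr_of_ne
        intro k _ hk hc
        have := (hu.lt_iff k).mpr hk
        omega
      have h2 : H L n v (t + 1) p = H L n v t p := by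
        apply H_thr_of_ne
        intro k _ hk hc
        have := (hv.lt_iff k).mpr hk
        omega
      rw [h1, h2]
      exact ih p
    push Not at htn
    have hxu : u⁻¹ t < n := up_inv_lt hu htn
    have hxv : v⁻¹ t < n := up_inv_lt hv htn
    have hut : u (u⁻¹ t) = t := up_ai u t
    have hvt : v (v⁻¹ t) = t := up_ai v t
    have hih := ih p
    by_cases h1 : p ≤ u⁻¹ t
    · by_cases h2 : p ≤ v⁻¹ t
      · rw [H_thr_of_le u.injective.injOn hxu hut h1, H_thr_of_le v.injective.injOn hxv hvt h2]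
        linarith
      · push Not at h2
        have h3 := down hu hv hb htn h2 le_rfl h1
        unfold Dx at h3
        linarith
    · push Not at h1
      rw [H_thr_of_gt u.injective.injOn hxu hut h1]
      by_cases h2 : p ≤ v⁻¹ t
      · rw [H_thr_of_le v.injective.injOn hxv hvt h2]
        linarith
      · push Not at h2
        rw [H_thr_of_gt v.injective.injOn hxv hvt h2]
        exact hih

private theorem up_chi {L : ℕ → Bool} {w : ℕ → ℕ} {t k : ℕ} (h : 1 ≤ chi L w t k) :
    L k = false ∧ w k < t := by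
  unfold chi at h
  by_cases h1 : w k < t
  · by_cases h2 : L k = true
    · rw [if_pos h1, if_pos h2] at h
      norm_num at h
    · exact ⟨by simpa using h2, h1⟩
  · rw [if_neg h1] at h
    split_ifs at h <;> norm_num at h

theorem Up_up {L : ℕ → Bool} {n : ℕ} {u v : Equiv.Perm ℕ} (hu : Fix n u) (hv : Fix n v)
    (hb : Bd L n u v) : ∀ z, z < n → ∀ d q p, p - q = d → u⁻¹ z < q → q ≤ p → p ≤ v⁻¹ z →
      H L n u z q ≤ H L n v z p := by
  intro z
  induction z using Nat.strong_induction_on with
  | _ z ihz =>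
  intro hz d
  induction d with
  | zero =>
    intro q p hd h1 h2 h3
    have hqp : q = p := by omega
    subst hqp
    exact Up_bru hu hv hb z q
  | succ d ihd =>
    intro q p hd h1 h2 h3
    have hvz : v⁻¹ z < n := up_inv_lt hv hz
    have hqn : q < n := by omega
    by_cases hle : H L n u z q ≤ H L n u z (q + 1)
    · exact hle.trans (ihd (q + 1) p (by omega) (by omega) (by omega) h3)
    push Not at hle
    have hst := H_step (L := L) (w := u) (t := z) hqn
    obtain ⟨hLq, hxz⟩ := up_chi (L := L) (w := u) (t := z) (k := q) (by omega)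
    obtain ⟨C, hC⟩ := hb p
    have hux : u⁻¹ (u q) = q := up_ia u q
    have hxn : u q < n := (hu.lt_iff q).mpr hqn
    -- the first term
    have hfirst : ∀ t : ℝ, 0 < t → t ≤ 1 →
        (if p ≤ v⁻¹ (u q) then t ^ (Dx L n u v p (u q) q) else 0) ≤ 1 := by
      intro t ht ht1
      split_ifs with hp
      · have hih := ihz (u q) hxz hxn (p - (q + 1)) (q + 1) p rfl (by omega) (by omega) hp
        have e1 : H L n v (u q + 1) p = H L n v (u q) p + 1 :=
          H_thr_of_le v.injective.injOn (up_inv_lt hv hxn) (up_ai v _) hp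
        have e2 : H L n u (u q + 1) q = H L n u (u q) q + 1 :=
          H_thr_of_le u.injective.injOn hqn rfl le_rfl
        have e3 : H L n u (u q) q = chi L u (u q) q + H L n u (u q) (q + 1) := H_step hqn
        have e4 : chi L u (u q) q = 0 := chi_U_ge hLq le_rfl
        have e5 : 0 ≤ Dx L n u v p (u q) q := by
          unfold Dx
          rw [e1, e2, e3, e4]
          linarith
        obtain ⟨m, hm⟩ := Int.eq_ofNat_of_zero_le e5
        rw [hm, zpow_natCast]
        exact pow_le_one₀ ht.le ht1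
      · exact zero_le_one
    have hz1 : z - 1 + 1 = z := by omega
    have hDx : Dx L n u v p (z - 1) q = H L n v z p - H L n u z q := by
      unfold Dx
      rw [hz1]
    have hE : 0 ≤ Dx L n u v p (z - 1) q := by
      apply exp_nonneg (C := 2 * (1 + C))
      intro t ht ht2
      have hPhi := hC t ht (by linarith) q hqn
      unfold Phi at hPhi
      rw [if_pos hqn] at hPhi
      have hsum : t ^ (Dx L n u v p (z - 1) q) ≤
          ∑ z' ∈ (Finset.range n).filter (fun z' => u q < z' ∧ u⁻¹ z' < q ∧ p ≤ v⁻¹ z'),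
            t ^ (Dx L n u v p (z' - 1) q) := by
        apply Finset.single_le_sum (f := fun z' => t ^ (Dx L n u v p (z' - 1) q))
          (fun i _ => zpow_nonneg ht.le _)
        rw [Finset.mem_filter]
        exact ⟨Finset.mem_range.mpr hz, hxz, h1, h3⟩
      have hf := hfirst t ht (by linarith)
      have habs := (abs_le.mp hPhi).1
      have hpos : 0 ≤ t ^ (Dx L n u v p (z - 1) q) := zpow_nonneg ht.le _
      have h4 : (1 - t) * t ^ (Dx L n u v p (z - 1) q) ≤ (1 - t) *
          ∑ z' ∈ (Finset.range n).filter (fun z' => u q < z' ∧ u⁻¹ z' < q ∧ p ≤ v⁻¹ z'),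
            t ^ (Dx L n u v p (z' - 1) q) :=
        mul_le_mul_of_nonneg_left hsum (by linarith)
      have h5 : 1 / 2 * t ^ (Dx L n u v p (z - 1) q) ≤
          (1 - t) * t ^ (Dx L n u v p (z - 1) q) :=
        mul_le_mul_of_nonneg_right (by linarith) hpos
      linarith
    rw [hDx] at hE
    linarith

theorem cr_of_bd {L : ℕ → Bool} {n : ℕ} {u v : Equiv.Perm ℕ} (hu : Fix n u) (hv : Fix n v)
    (hb : Bd L n u v) : Cr L n u v := by
  intro x y hx hy hxy
  have hux : u⁻¹ (u x) = x := up_ia u x
  have hvx : v⁻¹ (u x) = y := by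
    rw [hxy]
    exact up_ia v y
  have hz : u x < n := (hu.lt_iff x).mpr hx
  constructor
  · intro q p h1 h2 h3
    have h4 := down hu hv hb hz (by rw [hvx]; exact h1) h2 (by rw [hux]; exact h3)
    unfold Dx at h4
    rw [H_thr_of_gt v.injective.injOn hy hxy.symm h1,
      H_thr_of_le u.injective.injOn hx rfl h3] at h4
    linarith
  · intro q p h1 h2 h3
    exact Up_up hu hv hb (u x) hz (p - q) q p rfl (by rw [hux]; exact h1) h2
      (by rw [hvx]; exact h3)

end H42.NC
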