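import Pool.Agent.H42.NC.Inv

/-!
# NCW B2: the positive lift is well defined (Matsumoto in type A)

Strong induction on `N = inv (m+1) w`: claim `∀ w g g', inv w = N → Lf w g → Lf w g' → g = g'`.
Case analysis on both `Lf` hypotheses (write them with generalized indices:
`cases`/`induction` on `Lf m s w g` gives either `w = 1`, `g = 1` or `w = w₁ * swap i (i+1)`, `g = g₁ * s i`,
`Lf w₁ g₁`, `w₁ i < w₁ (i+1)`; it may be convenient to first prove an inversion lemma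
`Lf.cases' : Lf m s w g → (w = 1 ∧ g = 1) ∨ ∃ w₁ g₁ i, w = w₁ * swap i (i+1) ∧ g = g₁ * s i ∧ Lf m s w₁ g₁ ∧ i < m ∧
w₁ i < w₁ (i+1)`).
`inv 1 = 0` and `inv_mul_swap` exclude the mixed cases. If both are steps, with `(w₁, g₁, i)`, `(w₂, g₂, j)`:
* `i = j`: `w₁ = w₂` (cancel), so `g₁ = g₂` by induction.
* `i + 1 < j` (or symmetric): `w₃ := w₁ * swap j (j+1) = w₂ * swap i (i+1)` (the two transpositions commute; `w₁ = w * swap i (i+1)`,
  `w₂ = w * swap j (j+1)`). `w₃ j = w₁ (j+1) = w (j+1) < w j = w₁ j = w₃ (j+1)` (as `w₂ j < w₂ (j+1)`, i.e. `w (j+1) < w j`),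
  similarly `w₃ i < w₃ (i+1)`. Take `g₃` with `Lf w₃ g₃` (`exists_Lf`). Then `Lf w₁ (g₃ * s j)`, `Lf w₂ (g₃ * s i)`, so by
  induction `g₁ = g₃ * s j`, `g₂ = g₃ * s i` and `g = g₃ * s j * s i = g₃ * s i * s j = g'` by `Artin.comm`.
* `j = i + 1` (or symmetric): `w i > w (i+1) > w (i+2)`. Let `w₃ = w₁ * swap (i+1) (i+2) * swap i (i+1)`
  `= w₂ * swap i (i+1) * swap (i+1) (i+2)`. With `(w i, w (i+1), w (i+2)) = (a, b, c)`, `a > b > c`:
  `w₃ = (c, b, a)`, and the two chains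
  `(c,b,a) → s i → (b,c,a) → s (i+1) → (b,a,c) = w₁ → s i → (a,b,c)` and
  `(c,b,a) → s (i+1) → (c,a,b) → s i → (a,c,b) = w₂ → s (i+1) → (a,b,c)` are chains of ascents. Take `g₃` with `Lf w₃ g₃`;
  then by induction `g₁ = g₃ * s i * s (i+1)`, `g₂ = g₃ * s (i+1) * s i`, and `Artin.braid`.

`Lf.step_iff`: if `Lf w g`, `i < m`, `w i < w (i+1)` and `Lf (w * swap i (i+1)) g'` then `g' = g * s i` (by uniqueness).
-/

namespace H42.NC

variable {G : Type*} [Group G] {m : ℕ} {s : ℕ → G}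

theorem Lf.cases' {w : Equiv.Perm ℕ} {g : G} (h : Lf m s w g) :
    (w = 1 ∧ g = 1) ∨ ∃ w₁ g₁ i, w = w₁ * Equiv.swap i (i + 1) ∧ g = g₁ * s i ∧
      Lf m s w₁ g₁ ∧ i < m ∧ w₁ i < w₁ (i + 1) := by
  cases h with
  | one => exact Or.inl ⟨rfl, rfl⟩
  | @step w₁ g₁ i h1 h2 h3 => exact Or.inr ⟨w₁, g₁, i, rfl, rfl, h1, h2, h3⟩

private theorem mats_app_left (w : Equiv.Perm ℕ) (i : ℕ) :
    (w * Equiv.swap i (i + 1)) i = w (i + 1) := by
  rw [Equiv.Perm.mul_apply, Equiv.swap_apply_left]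

private theorem mats_app_right (w : Equiv.Perm ℕ) (i : ℕ) :
    (w * Equiv.swap i (i + 1)) (i + 1) = w i := by
  rw [Equiv.Perm.mul_apply, Equiv.swap_apply_right]

private theorem mats_app_ne (w : Equiv.Perm ℕ) {i k : ℕ} (h1 : k ≠ i) (h2 : k ≠ i + 1) :
    (w * Equiv.swap i (i + 1)) k = w k := by
  rw [Equiv.Perm.mul_apply, Equiv.swap_apply_of_ne_of_ne h1 h2]

private theorem mats_cancel (w : Equiv.Perm ℕ) (i : ℕ) :
    w * Equiv.swap i (i + 1) * Equiv.swap i (i + 1) = w := by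
  rw [mul_assoc, Equiv.swap_mul_self, mul_one]

/-- the step in the situation where the descent is at a permutation `w` -/
private theorem mats_down {w w₁ : Equiv.Perm ℕ} {i : ℕ} (h : w = w₁ * Equiv.swap i (i + 1)) :
    w₁ = w * Equiv.swap i (i + 1) := by
  rw [h, mats_cancel]

private theorem mats_far (hs : Artin m s) {N : ℕ}
    (ih : ∀ w : Equiv.Perm ℕ, inv (m + 1) w < N → ∀ g g' : G, Lf m s w g → Lf m s w g' → g = g')
    {w w₁ w₂ : Equiv.Perm ℕ} {g₁ g₂ : G} {i j : ℕ}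
    (hN : inv (m + 1) w = N) (hw₁ : w = w₁ * Equiv.swap i (i + 1))
    (hw₂ : w = w₂ * Equiv.swap j (j + 1)) (h₁ : Lf m s w₁ g₁) (h₂ : Lf m s w₂ g₂)
    (hi : i < m) (hj : j < m) (hl₁ : w₁ i < w₁ (i + 1)) (hl₂ : w₂ j < w₂ (j + 1))
    (hij : i + 1 < j) : g₁ * s i = g₂ * s j := by
  have e₁ : w₁ = w * Equiv.swap i (i + 1) := mats_down hw₁
  have e₂ : w₂ = w * Equiv.swap j (j + 1) := mats_down hw₂
  have hwi : w (i + 1) < w i := by
    rw [e₁, mats_app_left, mats_app_right] at hl₁; exact hl₁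
  have hwj : w (j + 1) < w j := by
    rw [e₂, mats_app_left, mats_app_right] at hl₂; exact hl₂
  have hn₁ : inv (m + 1) w₁ < N := by
    have := inv_mul_swap hi hl₁
    rw [← hw₁, hN] at this; omega
  have hn₂ : inv (m + 1) w₂ < N := by
    have := inv_mul_swap hj hl₂
    rw [← hw₂, hN] at this; omega
  have hcomm : Equiv.swap i (i + 1) * Equiv.swap j (j + 1)
      = Equiv.swap j (j + 1) * Equiv.swap i (i + 1) := by
    have hd : Equiv.Perm.Disjoint (Equiv.swap i (i + 1)) (Equiv.swap j (j + 1)) := by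
      intro x
      by_cases h1 : x = i
      · right; apply Equiv.swap_apply_of_ne_of_ne <;> omega
      · by_cases h2 : x = i + 1
        · right; apply Equiv.swap_apply_of_ne_of_ne <;> omega
        · left; exact Equiv.swap_apply_of_ne_of_ne h1 h2
    exact hd.commute
  set w₃ := w₁ * Equiv.swap j (j + 1) with hw₃
  have hw₃' : w₃ = w₂ * Equiv.swap i (i + 1) := by
    rw [hw₃, e₁, e₂, mul_assoc, mul_assoc, hcomm]
  have hfix : Fix (m + 1) w₃ := h₁.fix.mul_swap (by omega) (by omega)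
  obtain ⟨g₃, hg₃⟩ := exists_Lf s w₃ hfix
  have ha : w₃ j < w₃ (j + 1) := by
    rw [hw₃, mats_app_left, mats_app_right, e₁, mats_app_ne w (by omega) (by omega),
      mats_app_ne w (by omega) (by omega)]
    exact hwj
  have hb : w₃ i < w₃ (i + 1) := by
    rw [hw₃', mats_app_left, mats_app_right, e₂, mats_app_ne w (by omega) (by omega),
      mats_app_ne w (by omega) (by omega)]
    exact hwi
  have h13 : Lf m s w₁ (g₃ * s j) := by
    have := Lf.step hg₃ hj ha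
    rwa [hw₃, mats_cancel] at this
  have h23 : Lf m s w₂ (g₃ * s i) := by
    have := Lf.step hg₃ hi hb
    rwa [hw₃', mats_cancel] at this
  rw [ih w₁ hn₁ _ _ h₁ h13, ih w₂ hn₂ _ _ h₂ h23, mul_assoc, mul_assoc, hs.comm i j hij hj]

private theorem mats_near (hs : Artin m s) {N : ℕ}
    (ih : ∀ w : Equiv.Perm ℕ, inv (m + 1) w < N → ∀ g g' : G, Lf m s w g → Lf m s w g' → g = g')
    {w w₁ w₂ : Equiv.Perm ℕ} {g₁ g₂ : G} {i : ℕ}
    (hN : inv (m + 1) w = N) (hw₁ : w = w₁ * Equiv.swap i (i + 1))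
    (hw₂ : w = w₂ * Equiv.swap (i + 1) (i + 1 + 1)) (h₁ : Lf m s w₁ g₁) (h₂ : Lf m s w₂ g₂)
    (hi : i < m) (hj : i + 1 < m) (hl₁ : w₁ i < w₁ (i + 1))
    (hl₂ : w₂ (i + 1) < w₂ (i + 1 + 1)) : g₁ * s i = g₂ * s (i + 1) := by
  have e₁ : w₁ = w * Equiv.swap i (i + 1) := mats_down hw₁
  have e₂ : w₂ = w * Equiv.swap (i + 1) (i + 1 + 1) := mats_down hw₂
  have hwi : w (i + 1) < w i := by
    rw [e₁, mats_app_left, mats_app_right] at hl₁; exact hl₁
  have hwj : w (i + 1 + 1) < w (i + 1) := by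
    rw [e₂, mats_app_left, mats_app_right] at hl₂; exact hl₂
  have hn₁ : inv (m + 1) w₁ < N := by
    have := inv_mul_swap hi hl₁
    rw [← hw₁, hN] at this; omega
  have hn₂ : inv (m + 1) w₂ < N := by
    have := inv_mul_swap hj hl₂
    rw [← hw₂, hN] at this; omega
  have hbr : Equiv.swap i (i + 1) * Equiv.swap (i + 1) (i + 1 + 1) * Equiv.swap i (i + 1)
      = Equiv.swap (i + 1) (i + 1 + 1) * Equiv.swap i (i + 1) *
        Equiv.swap (i + 1) (i + 1 + 1) := by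
    have a1 : Equiv.swap i (i + 1) * Equiv.swap (i + 1) (i + 1 + 1) * Equiv.swap i (i + 1)
        = Equiv.swap i (i + 1 + 1) := by
      rw [Equiv.swap_comm i (i + 1), Equiv.swap_comm (i + 1) (i + 1 + 1)]
      exact Equiv.swap_mul_swap_mul_swap (by omega) (by omega)
    have a2 : Equiv.swap (i + 1) (i + 1 + 1) * Equiv.swap i (i + 1) *
        Equiv.swap (i + 1) (i + 1 + 1) = Equiv.swap i (i + 1 + 1) := by
      rw [Equiv.swap_comm i (i + 1 + 1)]
      exact Equiv.swap_mul_swap_mul_swap (by omega) (by omega)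
    rw [a1, a2]
  -- the chain through `w₁`
  set u₁ := w₁ * Equiv.swap (i + 1) (i + 1 + 1) with hu₁
  set u₂ := w₂ * Equiv.swap i (i + 1) with hu₂
  set w₃ := u₁ * Equiv.swap i (i + 1) with hw₃
  have hw₃' : w₃ = u₂ * Equiv.swap (i + 1) (i + 1 + 1) := by
    rw [hw₃, hu₁, hu₂, e₁, e₂]
    simp only [mul_assoc]
    simp only [mul_assoc] at hbr
    rw [hbr]
  have v10 : w₁ i = w (i + 1) := by rw [e₁, mats_app_left]
  have v11 : w₁ (i + 1) = w i := by rw [e₁, mats_app_right]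
  have v12 : w₁ (i + 1 + 1) = w (i + 1 + 1) := by rw [e₁, mats_app_ne w (by omega) (by omega)]
  have v20 : w₂ i = w i := by rw [e₂, mats_app_ne w (by omega) (by omega)]
  have v21 : w₂ (i + 1) = w (i + 1 + 1) := by rw [e₂, mats_app_left]
  have v22 : w₂ (i + 1 + 1) = w (i + 1) := by rw [e₂, mats_app_right]
  have x10 : u₁ i = w (i + 1) := by rw [hu₁, mats_app_ne w₁ (by omega) (by omega), v10]
  have x11 : u₁ (i + 1) = w (i + 1 + 1) := by rw [hu₁, mats_app_left, v12]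
  have x12 : u₁ (i + 1 + 1) = w i := by rw [hu₁, mats_app_right, v11]
  have x20 : u₂ i = w (i + 1 + 1) := by rw [hu₂, mats_app_left, v21]
  have x21 : u₂ (i + 1) = w i := by rw [hu₂, mats_app_right, v20]
  have x22 : u₂ (i + 1 + 1) = w (i + 1) := by
    rw [hu₂, mats_app_ne w₂ (by omega) (by omega), v22]
  have y0 : w₃ i = w (i + 1 + 1) := by rw [hw₃, mats_app_left, x11]
  have y1 : w₃ (i + 1) = w (i + 1) := by rw [hw₃, mats_app_right, x10]
  have y2 : w₃ (i + 1 + 1) = w i := by rw [hw₃, mats_app_ne u₁ (by omega) (by omega), x12]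
  have hfix : Fix (m + 1) w₃ :=
    ((h₁.fix.mul_swap (by omega) (by omega)).mul_swap (by omega) (by omega))
  obtain ⟨g₃, hg₃⟩ := exists_Lf s w₃ hfix
  have c1 : Lf m s u₁ (g₃ * s i) := by
    have := Lf.step hg₃ hi (by rw [y0, y1]; exact hwj)
    rwa [hw₃, mats_cancel] at this
  have c2 : Lf m s w₁ (g₃ * s i * s (i + 1)) := by
    have := Lf.step c1 hj (by rw [x11, x12]; omega)
    rwa [hu₁, mats_cancel] at this
  have d1 : Lf m s u₂ (g₃ * s (i + 1)) := by
    have := Lf.step hg₃ hj (by rw [y1, y2]; exact hwi)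
    rwa [hw₃', mats_cancel] at this
  have d2 : Lf m s w₂ (g₃ * s (i + 1) * s i) := by
    have := Lf.step d1 hi (by rw [x20, x21]; omega)
    rwa [hu₂, mats_cancel] at this
  rw [ih w₁ hn₁ _ _ h₁ c2, ih w₂ hn₂ _ _ h₂ d2]
  have hb := hs.braid i hj
  simp only [mul_assoc] at hb ⊢
  rw [hb]

private theorem mats_main (hs : Artin m s) : ∀ (N : ℕ) (w : Equiv.Perm ℕ), inv (m + 1) w = N →
    ∀ g g' : G, Lf m s w g → Lf m s w g' → g = g' := by
  intro N
  induction N using Nat.strong_induction_on with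
  | _ N IH =>
    intro w hN g g' h h'
    have ih : ∀ w : Equiv.Perm ℕ, inv (m + 1) w < N →
        ∀ g g' : G, Lf m s w g → Lf m s w g' → g = g' := fun w hw => IH _ hw w rfl
    rcases h.cases' with ⟨hw, hg⟩ | ⟨w₁, g₁, i, hw₁, hg₁, h₁, hi, hl₁⟩
    · rcases h'.cases' with ⟨_, hg'⟩ | ⟨w₂, g₂, j, hw₂, hg₂, h₂, hj, hl₂⟩
      · rw [hg, hg']
      · exfalso
        have := inv_mul_swap hj hl₂
        rw [← hw₂, hw, inv_one] at this
        omega
    · rcases h'.cases' with ⟨hw, _⟩ | ⟨w₂, g₂, j, hw₂, hg₂, h₂, hj, hl₂⟩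
      · exfalso
        have := inv_mul_swap hi hl₁
        rw [← hw₁, hw, inv_one] at this
        omega
      · rw [hg₁, hg₂]
        rcases lt_trichotomy i j with hij | hij | hij
        · rcases Nat.lt_or_ge (i + 1) j with hf | hf
          · exact mats_far hs ih hN hw₁ hw₂ h₁ h₂ hi hj hl₁ hl₂ hf
          · obtain rfl : j = i + 1 := by omega
            exact mats_near hs ih hN hw₁ hw₂ h₁ h₂ hi hj hl₁ hl₂
        · subst hij
          have hww : w₁ = w₂ := mul_right_cancel (hw₁.symm.trans hw₂)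
          subst hww
          have hn₁ : inv (m + 1) w₁ < N := by
            have := inv_mul_swap hi hl₁
            rw [← hw₁, hN] at this; omega
          rw [ih w₁ hn₁ _ _ h₁ h₂]
        · rcases Nat.lt_or_ge (j + 1) i with hf | hf
          · exact (mats_far hs ih hN hw₂ hw₁ h₂ h₁ hj hi hl₂ hl₁ hf).symm
          · obtain rfl : i = j + 1 := by omega
            exact (mats_near hs ih hN hw₂ hw₁ h₂ h₁ hj hi hl₂ hl₁).symm

theorem Lf.unique (hs : Artin m s) {w : Equiv.Perm ℕ} {g g' : G} (h : Lf m s w g)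
    (h' : Lf m s w g') : g = g' :=
  mats_main hs _ w rfl g g' h h'

theorem Lf.step_eq (hs : Artin m s) {w : Equiv.Perm ℕ} {g g' : G} {i : ℕ} (h : Lf m s w g)
    (hi : i < m) (hlt : w i < w (i + 1)) (h' : Lf m s (w * Equiv.swap i (i + 1)) g') :
    g' = g * s i :=
  Lf.unique hs h' (Lf.step h hi hlt)

end H42.NC
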