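import Pool.Agent.H42.NC.BTop
import Pool.Agent.H42.NC.Mats

/-!
# NCW B12: reduced words in `S_{m+1}` and lifts

* `E m : Perm (Fin (m+1)) →* Perm ℕ`, e.g. `Equiv.Perm.extendDomainHom Fin.equivSubtype` (or by hand):
  `E_apply_lt : (hk : k < m + 1) → E m w k = w ⟨k, hk⟩`, `E_apply_ge : m + 1 ≤ k → E m w k = k`.
* `sg m : ℕ → Braid m` is `sig ⟨k, _⟩` for `k < m`, `1` otherwise. `sg_artin`: the defining relations
  (`PresentedGroup.one_of_mem` or `QuotientGroup.eq`-style: `PresentedGroup.mk rels r = 1` for `r ∈ rels`).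
* Words: for `ω : List (Fin m)`, `E m (ω.map sref).prod = (ω.map (fun i => swap i.val (i.val+1))).prod`.
  - (len) `inv (m+1) (E m (ω.map sref).prod) ≤ ω.length`: reverse induction (`List.reverseRecOn`), `inv (w * s_i) ≤ inv w + 1`: if `w i < w (i+1)` equality by
    `inv_mul_swap`, else `w' = w * s_i` has `w' i < w' (i+1)` and `inv w = inv w' + 1`.
  - (ex) if `Lf m (sg m) w' g` then there is `ω` with `w' = E m (ω.map sref).prod`, `ω.length = inv (m+1) w'`, `g = (ω.map sig).prod` (induction on `Lf`).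
  - (lf) if `ω.length = inv (m+1) (E m (ω.map sref).prod)` then `Lf m (sg m) (E m (ω.map sref).prod) (ω.map sig).prod`: reverse induction;
    `ω = ω' ++ [i]`, `w = w' * s_i`: if `w' (i+1) < w' i` then `inv w' = inv w + 1 = |ω'| + 2`, contradiction with (len); so it is
    an ascent, `inv w' = |ω'|`.
  - `isLift_iff`: `IsLift w b ↔ Lf m (sg m) (E m w) b`. (→) `ω` reduced: by (ex) (with `exists_Lf`, `E m` injective) there is a word of length `inv` for `w`, so `|ω| ≤ inv`, with (len)
    equality, (lf). (←) (ex) gives `ω` of length `inv`; it is reduced by (len) for any other word `ω'`.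
* `isLift_exists`, `isLift_unique`, `reduced_lift`: consequences of `exists_Lf` and `Lf.unique`.
* `exists_E`: `Fix (m+1) w'` implies `w' = E m w` for some `w`.
-/

namespace H42.NC

variable {m : ℕ}

/-- extension to `ℕ` -/
noncomputable def E (m : ℕ) : Equiv.Perm (Fin (m + 1)) →* Equiv.Perm ℕ :=
  Equiv.Perm.extendDomainHom Fin.equivSubtype

/-- generators with natural number indices -/
def sg (m : ℕ) (k : ℕ) : Braid m := if h : k < m then sig ⟨k, h⟩ else 1

theorem E_lt (w : Equiv.Perm (Fin (m + 1))) (k : ℕ) (hk : k < m + 1) :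
    E m w k = (w ⟨k, hk⟩ : ℕ) :=
  Equiv.Perm.extendDomain_apply_subtype w Fin.equivSubtype hk

theorem E_fix (w : Equiv.Perm (Fin (m + 1))) : Fix (m + 1) (E m w) := fun k hk =>
  Equiv.Perm.extendDomain_apply_not_subtype w Fin.equivSubtype (by omega)

theorem E_inj : Function.Injective (E m) := Equiv.Perm.extendDomainHom_injective _

theorem exists_E {w' : Equiv.Perm ℕ} (h : Fix (m + 1) w') : ∃ w, E m w = w' := by
  have h1 : ∀ k : Fin (m + 1), w' k < m + 1 := fun k => (h.lt_iff _).mpr k.2
  have h2 : ∀ k : Fin (m + 1), w'⁻¹ k < m + 1 := fun k => (h.inv'.lt_iff _).mpr k.2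
  refine ⟨⟨fun k => ⟨w' k, h1 k⟩, fun k => ⟨w'⁻¹ k, h2 k⟩, fun k => ?_, fun k => ?_⟩, ?_⟩
  · apply Fin.ext
    show w'⁻¹ (w' k) = k
    exact w'.symm_apply_apply k
  · apply Fin.ext
    show w' (w'⁻¹ k) = k
    exact w'.apply_symm_apply k
  · refine fix_ext (E_fix _) h fun k hk => ?_
    rw [E_lt _ k hk]
    rfl

theorem E_swap (i j : Fin (m + 1)) : E m (Equiv.swap i j) = Equiv.swap (i : ℕ) (j : ℕ) := by
  apply Equiv.ext
  intro k
  by_cases hk : k < m + 1
  · rw [E_lt _ k hk]
    by_cases h1 : k = i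
    · subst h1
      rw [Equiv.swap_apply_left]
      exact (Equiv.swap_apply_left _ _).symm
    · by_cases h2 : k = j
      · subst h2
        rw [Equiv.swap_apply_right]
        exact (Equiv.swap_apply_right _ _).symm
      · rw [Equiv.swap_apply_of_ne_of_ne h1 h2, Equiv.swap_apply_of_ne_of_ne]
        · intro h
          exact h1 (congrArg Fin.val h)
        · intro h
          exact h2 (congrArg Fin.val h)
  · rw [E_fix _ k (by omega), Equiv.swap_apply_of_ne_of_ne]
    · have := i.2
      omega
    · have := j.2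
      omega

private theorem Words_sg {k : ℕ} (h : k < m) : sg m k = sig ⟨k, h⟩ := dif_pos h

private theorem Words_sref (i : Fin m) : E m (sref i) = Equiv.swap (i : ℕ) ((i : ℕ) + 1) := by
  unfold sref
  rw [E_swap]
  rfl

theorem sg_artin : Artin m (sg m) := by
  constructor
  · intro i j hij hj
    have hi : i < m := by omega
    rw [Words_sg hi, Words_sg hj]
    have h := PresentedGroup.mk_eq_mk_of_mul_inv_mem (rels := braidRels m)
      (x := FreeGroup.of (⟨i, hi⟩ : Fin m) * FreeGroup.of ⟨j, hj⟩)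
      (y := FreeGroup.of (⟨j, hj⟩ : Fin m) * FreeGroup.of ⟨i, hi⟩)
      ⟨⟨i, hi⟩, ⟨j, hj⟩, Or.inl ⟨hij, rfl⟩⟩
    rw [map_mul, map_mul] at h
    exact h
  · intro i hi
    have hi' : i < m := by omega
    rw [Words_sg hi, Words_sg hi']
    have h := PresentedGroup.mk_eq_mk_of_mul_inv_mem (rels := braidRels m)
      (x := FreeGroup.of (⟨i, hi'⟩ : Fin m) * FreeGroup.of ⟨i + 1, hi⟩ * FreeGroup.of ⟨i, hi'⟩)
      (y := FreeGroup.of (⟨i + 1, hi⟩ : Fin m) * FreeGroup.of ⟨i, hi'⟩ *
        FreeGroup.of ⟨i + 1, hi⟩)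
      ⟨⟨i, hi'⟩, ⟨i + 1, hi⟩, Or.inr ⟨rfl, rfl⟩⟩
    rw [map_mul, map_mul, map_mul, map_mul] at h
    exact h

private theorem Words_inv_le {w : Equiv.Perm ℕ} {i : ℕ} (hi : i < m) :
    inv (m + 1) (w * Equiv.swap i (i + 1)) ≤ inv (m + 1) w + 1 := by
  rcases lt_trichotomy (w i) (w (i + 1)) with h | h | h
  · exact (inv_mul_swap hi h).le
  · have := w.injective h
    omega
  · have h1 : (w * Equiv.swap i (i + 1)) i < (w * Equiv.swap i (i + 1)) (i + 1) := by
      rw [Equiv.Perm.mul_apply, Equiv.Perm.mul_apply, Equiv.swap_apply_left,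
        Equiv.swap_apply_right]
      exact h
    have h2 := inv_mul_swap hi h1
    rw [mul_assoc, Equiv.swap_mul_self, mul_one] at h2
    omega

private theorem Words_snoc (ω : List (Fin m)) (i : Fin m) :
    E m ((ω ++ [i]).map sref).prod =
      E m (ω.map sref).prod * Equiv.swap (i : ℕ) ((i : ℕ) + 1) := by
  rw [List.map_append, List.prod_append, map_mul, List.map_singleton, List.prod_singleton,
    Words_sref]

private theorem Words_len (ω : List (Fin m)) :
    inv (m + 1) (E m (ω.map sref).prod) ≤ ω.length := by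
  induction ω using List.reverseRecOn with
  | nil =>
    rw [List.map_nil, List.prod_nil, map_one, inv_one]
    exact Nat.zero_le _
  | append_singleton ω i ih =>
    rw [Words_snoc, List.length_append, List.length_singleton]
    exact (Words_inv_le i.2).trans (Nat.add_le_add_right ih 1)

private theorem Words_ex {w' : Equiv.Perm ℕ} {g : Braid m} (h : Lf m (sg m) w' g) :
    ∃ ω : List (Fin m), w' = E m (ω.map sref).prod ∧ ω.length = inv (m + 1) w' ∧
      g = (ω.map sig).prod := by
  induction h with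
  | one => exact ⟨[], by rw [List.map_nil, List.prod_nil, map_one], by rw [inv_one]; rfl, rfl⟩
  | @step w g i hl hi hlt ih =>
    obtain ⟨ω, h1, h2, h3⟩ := ih
    refine ⟨ω ++ [⟨i, hi⟩], ?_, ?_, ?_⟩
    · rw [Words_snoc, ← h1]
    · rw [inv_mul_swap hi hlt, List.length_append, List.length_singleton, h2]
    · rw [List.map_append, List.prod_append, List.map_singleton, List.prod_singleton, ← h3,
        Words_sg hi]

private theorem Words_lf (ω : List (Fin m)) :
    ω.length = inv (m + 1) (E m (ω.map sref).prod) →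
      Lf m (sg m) (E m (ω.map sref).prod) (ω.map sig).prod := by
  induction ω using List.reverseRecOn with
  | nil =>
    intro _
    rw [List.map_nil, List.prod_nil, map_one, List.map_nil, List.prod_nil]
    exact Lf.one
  | append_singleton ω i ih =>
    intro hlen
    rw [Words_snoc, List.length_append, List.length_singleton] at hlen
    have hle := Words_len ω
    rcases lt_trichotomy (E m (ω.map sref).prod i) (E m (ω.map sref).prod (i + 1)) with h | h | h
    · rw [inv_mul_swap i.2 h] at hlen
      have h1 := ih (by omega)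
      have h2 := Lf.step h1 i.2 h
      rw [Words_snoc, List.map_append, List.prod_append, List.map_singleton, List.prod_singleton]
      rw [Words_sg i.2] at h2
      exact h2
    · have := (E m (ω.map sref).prod).injective h
      omega
    · exfalso
      have h1 : (E m (ω.map sref).prod * Equiv.swap (i : ℕ) ((i : ℕ) + 1)) i <
          (E m (ω.map sref).prod * Equiv.swap (i : ℕ) ((i : ℕ) + 1)) (i + 1) := by
        rw [Equiv.Perm.mul_apply, Equiv.Perm.mul_apply, Equiv.swap_apply_left,
          Equiv.swap_apply_right]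
        exact h
      have h2 := inv_mul_swap i.2 h1
      rw [mul_assoc, Equiv.swap_mul_self, mul_one] at h2
      omega

theorem isLift_iff (w : Equiv.Perm (Fin (m + 1))) (b : Braid m) :
    IsLift w b ↔ Lf m (sg m) (E m w) b := by
  constructor
  · rintro ⟨ω, hred, hw, hb⟩
    obtain ⟨g, hg⟩ := exists_Lf (sg m) (E m w) (E_fix w)
    obtain ⟨ω', h1, h2, _⟩ := Words_ex hg
    have h3 : w = (ω'.map sref).prod := E_inj h1
    have h4 := hred ω' (by rw [← h3, hw])
    have h5 := Words_len ω
    rw [hw] at h5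
    have h6 := Words_lf ω (by rw [hw]; omega)
    rw [hw, hb] at h6
    exact h6
  · intro h
    obtain ⟨ω, h1, h2, h3⟩ := Words_ex h
    have h4 : w = (ω.map sref).prod := E_inj h1
    refine ⟨ω, fun ω' hω' => ?_, h4.symm, h3.symm⟩
    have h5 := Words_len ω'
    rw [hω', ← h4] at h5
    omega

theorem isLift_exists (w : Equiv.Perm (Fin (m + 1))) : ∃ b, IsLift w b := by
  obtain ⟨g, hg⟩ := exists_Lf (sg m) (E m w) (E_fix w)
  exact ⟨g, (isLift_iff w g).mpr hg⟩

theorem isLift_unique {w : Equiv.Perm (Fin (m + 1))} {b b' : Braid m} (h : IsLift w b)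
    (h' : IsLift w b') : b = b' :=
  Lf.unique sg_artin ((isLift_iff w b).mp h) ((isLift_iff w b').mp h')

theorem isLift_of_reduced {ω : List (Fin m)} (h : IsReduced ω) :
    IsLift (ω.map sref).prod (ω.map sig).prod := ⟨ω, h, rfl, rfl⟩

end H42.NC
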