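import Pool.Agent.H42.NC.Join
import Pool.Agent.H42.NC.TauVis
import Pool.Agent.H42.NC.TauMem
import Pool.Agent.H42.NC.Refl
import Pool.Agent.H42.NC.GForm
import Pool.Agent.H42.NC.Kern
import Pool.Agent.H42.NC.Up
import Pool.Agent.H42.NC.Words

/-!
# Assembly
-/

namespace H42.NC

open Relation

variable {m : ℕ}

/-- the criterion on permutations of `Fin (m + 1)` -/
def CrE (L : ℕ → Bool) (u v : Equiv.Perm (Fin (m + 1))) : Prop := Cr L (m + 1) (E m u) (E m v)

theorem E_arr (w : Equiv.Perm (Fin (m + 1))) : Arr (m + 1) (Finset.range (m + 1)) (E m w) :=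
  Arr_of_fix (E_fix w)

/-- an arrangement of `range (m + 1)` comes from a permutation of `Fin (m + 1)` -/
theorem exists_perm {J : ℕ → ℕ} (hJ : Arr (m + 1) (Finset.range (m + 1)) J) :
    ∃ w : Equiv.Perm (Fin (m + 1)), ∀ k < m + 1, E m w k = J k := by
  have hlt : ∀ k : Fin (m + 1), J k < m + 1 := fun k => Finset.mem_range.mp (hJ.mem k.2)
  let f : Fin (m + 1) → Fin (m + 1) := fun k => ⟨J k, hlt k⟩
  have hf : Function.Injective f := by
    intro a b hab
    have : J a = J b := by simpa [f] using hab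
    exact Fin.ext (hJ.inj a.2 b.2 this)
  refine ⟨Equiv.ofBijective f ⟨hf, Finite.surjective_of_injective hf⟩, fun k hk => ?_⟩
  rw [E_lt _ _ hk]
  rfl

theorem perm_eq {u v : Equiv.Perm (Fin (m + 1))} (h : ∀ k < m + 1, E m u k = E m v k) :
    u = v := by
  apply E_inj
  exact fix_ext (E_fix u) (E_fix v) h

theorem crE_refl (L : ℕ → Bool) (u : Equiv.Perm (Fin (m + 1))) : CrE L u u := Cr.refl (E_arr u)

theorem crE_trans (L : ℕ → Bool) {u v w : Equiv.Perm (Fin (m + 1))} (h₁ : CrE L u v)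
    (h₂ : CrE L v w) : CrE L u w := Cr.trans (E_arr u) (E_arr v) (E_arr w) h₁ h₂

theorem crE_antisymm (L : ℕ → Bool) {u v : Equiv.Perm (Fin (m + 1))} (h₁ : CrE L u v)
    (h₂ : CrE L v u) : u = v := perm_eq (Cr.antisymm (E_arr u) (E_arr v) h₁ h₂)

theorem crE_join (L : ℕ → Bool) (u v : Equiv.Perm (Fin (m + 1))) :
    ∃ j, CrE L u j ∧ CrE L v j ∧ ∀ w, CrE L u w → CrE L v w → CrE L j w := by
  obtain ⟨J, hJ, h₁, h₂, h₃⟩ := exists_join (L := L) (m + 1) _ _ _ (E_arr u) (E_arr v)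
  obtain ⟨j, hj⟩ := exists_perm hJ
  refine ⟨j, Cr.congr (fun _ _ => rfl) (fun k hk => (hj k hk).symm) h₁,
    Cr.congr (fun _ _ => rfl) (fun k hk => (hj k hk).symm) h₂, fun w hu hv => ?_⟩
  exact Cr.congr (fun k hk => (hj k hk).symm) (fun _ _ => rfl) (h₃ _ (E_arr w) hu hv)

theorem crE_meet (L : ℕ → Bool) (u v : Equiv.Perm (Fin (m + 1))) :
    ∃ j, CrE L j u ∧ CrE L j v ∧ ∀ w, CrE L w u → CrE L w v → CrE L w j := by
  obtain ⟨J, hJ, h₁, h₂, h₃⟩ := exists_meet (L := L) (m + 1) _ _ _ (E_arr u) (E_arr v)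
  obtain ⟨j, hj⟩ := exists_perm hJ
  refine ⟨j, Cr.congr (fun k hk => (hj k hk).symm) (fun _ _ => rfl) h₁,
    Cr.congr (fun k hk => (hj k hk).symm) (fun _ _ => rfl) h₂, fun w hu hv => ?_⟩
  exact Cr.congr (fun _ _ => rfl) (fun k hk => (hj k hk).symm) (h₃ _ (E_arr w) hu hv)

/-- the lattice given by the criterion -/
noncomputable def crLattice (L : ℕ → Bool) (m : ℕ) : Lattice (Equiv.Perm (Fin (m + 1))) where
  le := CrE L
  le_refl := crE_refl L
  le_trans := fun _ _ _ => crE_trans L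
  le_antisymm := fun _ _ => crE_antisymm L
  sup := fun u v => (crE_join L u v).choose
  le_sup_left := fun u v => (crE_join L u v).choose_spec.1
  le_sup_right := fun u v => (crE_join L u v).choose_spec.2.1
  sup_le := fun u v w h₁ h₂ => (crE_join L u v).choose_spec.2.2 w h₁ h₂
  inf := fun u v => (crE_meet L u v).choose
  inf_le_left := fun u v => (crE_meet L u v).choose_spec.1
  inf_le_right := fun u v => (crE_meet L u v).choose_spec.2.1
  le_inf := fun w u v h₁ h₂ => (crE_meet L u v).choose_spec.2.2 w h₁ h₂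

theorem crE_iff_E (L : ℕ → Bool) (i j : ℕ) (hi : i < m + 1) (hj : j < m + 1)
    (u : Equiv.Perm (Fin (m + 1))) :
    E m (u * Equiv.swap ⟨i, hi⟩ ⟨j, hj⟩) = E m u * Equiv.swap i j := by
  rw [map_mul, E_swap]

/-- the labels of a Coxeter word -/
def labF (c : List (Fin m)) : ℕ → Bool := lab (c.map Fin.val)

/-- steps inside the group -/
def WStep (c : List (Fin m)) (x y : Equiv.Perm (Fin (m + 1))) : Prop :=
  ∃ b b', IsLift x b ∧ IsLift y b' ∧ ∃ t ∈ dualGens c, b' = b * t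

theorem map_val_nodup {c : List (Fin m)} (hc : c.Nodup) : (c.map Fin.val).Nodup :=
  hc.map Fin.val_injective

theorem mem_map_val {c : List (Fin m)} (hc' : ∀ i, i ∈ c) (i : ℕ) :
    i ∈ c.map Fin.val ↔ i < m := by
  simp only [List.mem_map]
  constructor
  · rintro ⟨a, _, rfl⟩; exact a.2
  · intro hi; exact ⟨⟨i, hi⟩, hc' _, rfl⟩

theorem map_sg (c : List (Fin m)) : (c.map Fin.val).map (sg m) = c.map sig := by
  rw [List.map_map]
  apply List.map_congr_left
  intro a _
  simp [sg, a.2]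

theorem tau_mem_dual {c : List (Fin m)} (hc : c.Nodup) (hc' : ∀ i, i ∈ c) (i d : ℕ)
    (hid : i + d < m) : tau (labF c) (sg m) i d ∈ dualGens c := by
  obtain ⟨τ, hτ, hmem⟩ := tau_mem sg_artin (map_val_nodup hc) (mem_map_val hc') i d hid
  rw [map_sg] at hτ
  exact ⟨τ, hτ, hmem⟩

/-- a visible exchange is a step -/
theorem vis_step {c : List (Fin m)} (hc : c.Nodup) (hc' : ∀ i, i ∈ c) {i j : ℕ}
    (hi : i < m + 1) (hj : j < m + 1) {u : Equiv.Perm (Fin (m + 1))}
    (hv : Vis (labF c) (E m u) i j) : WStep c u (u * Equiv.swap ⟨i, hi⟩ ⟨j, hj⟩) := by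
  obtain ⟨d, rfl⟩ : ∃ d, j = i + d + 1 := ⟨j - i - 1, by have := hv.1; omega⟩
  obtain ⟨b, hb⟩ := isLift_exists u
  refine ⟨b, b * tau (labF c) (sg m) i d, hb, ?_, _, tau_mem_dual hc hc' i d (by omega), rfl⟩
  rw [isLift_iff, crE_iff_E (labF c)]
  exact Lf.vis (labF c) sg_artin i d _ _ (by omega) ((isLift_iff _ _).mp hb) hv

theorem chain_of_crE {c : List (Fin m)} (hc : c.Nodup) (hc' : ∀ i, i ∈ c)
    (v : Equiv.Perm (Fin (m + 1))) : ∀ u, CrE (labF c) u v → ReflTransGen (WStep c) u v := by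
  letI := crLattice (labF c) m
  haveI : WellFoundedGT (Equiv.Perm (Fin (m + 1))) := Finite.to_wellFoundedGT
  intro u
  induction u using WellFoundedGT.induction with
  | ind u ih =>
    intro huv
    rcases gen (L := labF c) (m + 1) _ _ _ (E_arr u) (E_arr v) huv with h | ⟨i, j, hj, hvis, hcr⟩
    · rw [perm_eq h]
    · have hi : i < m + 1 := by have := hvis.1; omega
      set u' := u * Equiv.swap ⟨i, hi⟩ ⟨j, hj⟩ with hu'
      have hE : E m u' = E m u * Equiv.swap i j := crE_iff_E (labF c) i j hi hj u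
      have hle : CrE (labF c) u u' := by
        unfold CrE
        rw [hE]
        exact Vis.cr (E_arr u) hj hvis
      have hne : u ≠ u' := by
        intro h
        have h1 : E m u i = E m u' i := by rw [← h]
        rw [hE] at h1
        simp only [Equiv.Perm.coe_mul, Function.comp_apply, Equiv.swap_apply_left] at h1
        have := hvis.2.1
        omega
      have hlt : u < u' := lt_of_le_of_ne hle hne
      have hcr' : CrE (labF c) u' v := by
        unfold CrE
        rw [hE]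
        exact hcr
      exact ReflTransGen.head (vis_step hc hc' hi hj hvis) (ih u' hlt hcr')

theorem lift_pos {w : Equiv.Perm (Fin (m + 1))} {b : Braid m} (h : IsLift w b) : b ∈ BPos m := by
  obtain ⟨ω, _, _, rfl⟩ := h
  apply Submonoid.list_prod_mem
  intro x hx
  obtain ⟨i, _, rfl⟩ := List.mem_map.mp hx
  exact Submonoid.subset_closure ⟨i, rfl⟩

theorem pchain_of_chain {c : List (Fin m)} {u v : Equiv.Perm (Fin (m + 1))}
    (h : ReflTransGen (WStep c) u v) {b b' : Braid m} (hb : IsLift u b) (hb' : IsLift v b') :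
    ReflTransGen (PStep c) b b' := by
  induction h generalizing b' with
  | refl => rw [isLift_unique hb hb']
  | tail _ hst ih =>
    obtain ⟨b₁, b₂, h₁, h₂, t, ht, h₃⟩ := hst
    have h4 := isLift_unique h₂ hb'
    subst h4
    exact (ih h₁).tail ⟨lift_pos h₁, lift_pos hb', t, ht, h₃⟩

theorem exists_rep (L : ℕ → Bool) (m : ℕ) :
    ∃ ρ : ℝ → Braid m →* ((ℕ → ℝ) ≃ₗ[ℝ] (ℕ → ℝ)), ∀ t : ℝ, 0 < t → ∀ i < m, ∀ a,
      ρ t (sg m i) a = burF L t i a := by
  have h : ∀ t : ℝ, ∃ φ : Braid m →* ((ℕ → ℝ) ≃ₗ[ℝ] (ℕ → ℝ)), 0 < t → ∀ i < m, ∀ a,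
      φ (sg m i) a = burF L t i a := by
    intro t
    by_cases ht : 0 < t
    · obtain ⟨B, hB, hA⟩ := exists_bur L (ne_of_gt ht)
      have hrel : ∀ r ∈ braidRels m, FreeGroup.lift (fun i : Fin m => B i) r = 1 := by
        rintro r ⟨i, j, h | h⟩
        · rw [h.2]
          simp only [map_mul, map_inv, FreeGroup.lift_apply_of]
          rw [(hA m).comm i j h.1 j.2]
          group
        · rw [h.2]
          simp only [map_mul, map_inv, FreeGroup.lift_apply_of]
          have := (hA m).braid i (by rw [h.1]; exact j.2)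
          rw [h.1] at this
          rw [this]
          group
      refine ⟨PresentedGroup.toGroup hrel, fun _ i hi a => ?_⟩
      have : PresentedGroup.toGroup hrel (sg m i) = B i := by
        unfold sg sig
        rw [dif_pos hi, PresentedGroup.toGroup.of]
      rw [this, hB]
    · exact ⟨1, fun h => absurd h ht⟩
  choose ρ hρ using h
  exact ⟨ρ, hρ⟩

/-- the kernel is the image -/
theorem Lf.kernel (L : ℕ → Bool) {t : ℝ} (ht : 0 < t) {B : ℕ → ((ℕ → ℝ) ≃ₗ[ℝ] (ℕ → ℝ))}
    (hB : ∀ i < m, ∀ a, B i a = burF L t i a) {u v : Equiv.Perm ℕ} (hv : Fix (m + 1) v)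
    {g : (ℕ → ℝ) ≃ₗ[ℝ] (ℕ → ℝ)} (h : Lf m B u g) (p : ℕ) :
    g (Phi L (m + 1) t u v p) = Psi L (m + 1) t v p := by
  induction h with
  | one => rw [Phi_one]; rfl
  | step hw hi hlt ih =>
    rw [LinearEquiv.mul_apply, hB _ hi, Phi_step L ht hw.fix hv hi hlt, ih]

theorem Lf.congr {G : Type*} [Group G] {s s' : ℕ → G} (hs : ∀ i < m, s i = s' i)
    {w : Equiv.Perm ℕ} {g : G} (h : Lf m s w g) : Lf m s' w g := by
  induction h with
  | one => exact Lf.one
  | step _ hi hlt ih => rw [hs _ hi]; exact Lf.step ih hi hlt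

theorem gh_le (L : ℕ → Bool) (n : ℕ) {t : ℝ} (ht : 0 < t) (ht1 : t ≤ 1) (p k : ℕ) :
    |gh L n t p k| ≤ 1 := by
  unfold gh
  split_ifs with h
  · have h0 : ∀ j, 0 ≤ be L t j := by intro j; unfold be; split_ifs <;> linarith
    have h1 : ∀ j, be L t j ≤ 1 := by intro j; unfold be; split_ifs <;> linarith
    rw [abs_of_nonneg (Finset.prod_nonneg (fun j _ => h0 j))]
    exact Finset.prod_le_one (fun j _ => h0 j) (fun j _ => h1 j)
  · simp

theorem crE_of_pchain {c : List (Fin m)} (hc : c.Nodup) (hc' : ∀ i, i ∈ c)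
    {u v : Equiv.Perm (Fin (m + 1))} {b b' : Braid m} (hb : IsLift u b) (hb' : IsLift v b')
    (h : ReflTransGen (PStep c) b b') : CrE (labF c) u v := by
  obtain ⟨ρ, hρ⟩ := exists_rep (labF c) m
  have hop : ∀ b', ReflTransGen (PStep c) b b' → BdOp ρ (b⁻¹ * b') := by
    intro b' h
    induction h with
    | refl => rw [inv_mul_cancel]; exact BdOp.one
    | tail _ hst ih =>
      obtain ⟨_, _, t, ⟨τ, hτ, htτ⟩, rfl⟩ := hst
      rw [← mul_assoc]
      refine ih.mul ?_
      rw [← map_sg] at hτ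
      exact bdOp_of_mem (map_val_nodup hc) (mem_map_val hc') hρ hτ htτ
  obtain ⟨C, hC0, hC⟩ := hop b' h
  apply cr_of_bd (E_fix u) (E_fix v)
  intro p
  refine ⟨C, fun t ht ht1 k _ => ?_⟩
  have hB : ∀ i < m, ∀ a, (fun i => ρ t (sg m i)) i a = burF (labF c) t i a :=
    fun i hi a => hρ t ht i hi a
  obtain ⟨B, hB', hA⟩ := exists_bur (labF c) (ne_of_gt ht)
  have hu : Lf m (fun i => ρ t (sg m i)) (E m u) (ρ t b) := ((isLift_iff _ _).mp hb).map (ρ t)
  have hv : Lf m B (E m v) (ρ t b') := by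
    refine Lf.congr ?_ (((isLift_iff _ _).mp hb').map (ρ t))
    intro i hi
    ext a
    rw [hB', hρ t ht i hi]
  have h1 := Lf.kernel (labF c) ht hB (E_fix v) hu p
  have h2 := gform (labF c) ht hB' hv p
  have h3 : ρ t (b⁻¹ * b') (gh (labF c) (m + 1) t p) = Phi (labF c) (m + 1) t (E m u) (E m v) p := by
    rw [map_mul, LinearEquiv.mul_apply, h2, ← h1, ← LinearEquiv.mul_apply, ← map_mul,
      inv_mul_cancel, map_one]
    rfl
  rw [← h3]
  have := hC t ht ht1 (gh (labF c) (m + 1) t p) 1 (fun k => gh_le _ _ ht ht1 p k) k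
  simpa using this

/-- all three descriptions agree -/
theorem three {c : List (Fin m)} (hc : c.Nodup) (hc' : ∀ i, i ∈ c)
    {u v : Equiv.Perm (Fin (m + 1))} {b b' : Braid m} (hb : IsLift u b) (hb' : IsLift v b') :
    (ReflTransGen (PStep c) b b' ↔ CrE (labF c) u v) ∧
    (ReflTransGen (PStep c) b b' ↔ ReflTransGen (WStep c) u v) := by
  have h1 : ReflTransGen (PStep c) b b' → CrE (labF c) u v := crE_of_pchain hc hc' hb hb'
  have h2 : CrE (labF c) u v → ReflTransGen (WStep c) u v := chain_of_crE hc hc' v u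
  have h3 : ReflTransGen (WStep c) u v → ReflTransGen (PStep c) b b' :=
    fun h => pchain_of_chain h hb hb'
  exact ⟨⟨h1, fun h => h3 (h2 h)⟩, ⟨fun h => h2 (h1 h), h3⟩⟩

end H42.NC
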