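import Pool.Agent.H42.NC.Bruhat

/-!
Module NC-C8 (necessity).  `N = n + 1` positions, `ε = if L n then 1 else 0`.
`nec_up`: `c = u n`; let `x ≤ n` with `w x = c`.  If `x = n`: `c ≤ w n` trivial and no `q`.  If `x < n`: (+) of `Cr` with `y = n`,
`p = n`: for `x < q ≤ n`: `H L N w c q ≤ H L N u c n = chi u c n = 0 - ε` (`u n = c` is not `< c`).  By `H_snoc`
`H L N w c q = H L n w c q + [w n < c] - ε`.  `q = n` gives `[w n < c] ≤ 0`, so `c ≤ w n`; then `H L n w c q ≤ 0`.
`nec_down`: `b = w n`, `u y = b`.  `y = n` trivial.  `y < n`: (-) with `x = n`, `p = n`: for `y < q ≤ n`: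
`H L N w b n + 1 ≤ H L N u b q`, i.e. `1 - ε ≤ H L n u b q + [u n < b] - ε`.  `q = n`: `u n < b`.  Then `0 ≤ H L n u b q`.
-/

namespace H42.NC

variable {L : ℕ → Bool} {n : ℕ} {w u : ℕ → ℕ}

theorem nec_up {V : Finset ℕ} (hw : Arr (n + 1) V w) (hu : Arr (n + 1) V u)
    (hc : Cr L (n + 1) w u) : AvUp L n w (u n) := by
  intro x hx hxw
  rcases Nat.lt_or_ge x n with hlt | hge
  · have key : ∀ q, x < q → q ≤ n →
        H L n w (u n) q + (if w n < u n then (1 : ℤ) else 0) ≤ 0 := by
      intro q hq hqn
      have h1 := (hc x n (by omega) (by omega) hxw).2 q n hq hqn le_rfl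
      rw [hxw, H_snoc hqn, H_snoc le_rfl, H_top] at h1
      unfold chi at h1
      rw [if_neg (lt_irrefl (u n))] at h1
      linarith
    have h2 := key n hlt le_rfl
    rw [H_top] at h2
    have h3 : u n ≤ w n := by
      by_contra hcon
      rw [if_pos (by omega)] at h2
      norm_num at h2
    refine ⟨h3, fun q hq hqn => ?_⟩
    have h4 := key q hq hqn
    rw [if_neg (by omega)] at h4
    linarith
  · have : x = n := by omega
    subst this
    exact ⟨by omega, fun q hq hqn => by omega⟩

theorem nec_down {V : Finset ℕ} (hw : Arr (n + 1) V w) (hu : Arr (n + 1) V u)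
    (hc : Cr L (n + 1) w u) : AvDown L n u (w n) := by
  intro y hy hyu
  rcases Nat.lt_or_ge y n with hlt | hge
  · have key : ∀ q, y < q → q ≤ n →
        1 ≤ H L n u (w n) q + (if u n < w n then (1 : ℤ) else 0) := by
      intro q hq hqn
      have h1 := (hc n y (by omega) (by omega) hyu.symm).1 q n hq hqn le_rfl
      rw [H_snoc hqn, H_snoc le_rfl, H_top] at h1
      unfold chi at h1
      rw [if_neg (lt_irrefl (w n))] at h1
      linarith
    have h2 := key n hlt le_rfl
    rw [H_top] at h2
    have h3 : u n < w n := by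
      by_contra hcon
      rw [if_neg (by omega)] at h2
      norm_num at h2
    refine ⟨h3.le, fun q hq hqn => ?_⟩
    have h4 := key q hq hqn
    rw [if_pos h3] at h4
    linarith
  · have : y = n := by omega
    subst this
    exact ⟨by omega, fun q hq hqn => by omega⟩

/-- an arrangement with last value `c` is available in both directions -/
theorem AvUp_self {V : Finset ℕ} (hw : Arr (n + 1) V w) : AvUp L n w (w n) := by
  intro x hx hxw
  have : x = n := hw.inj (by omega) (by omega) hxw
  subst this
  exact ⟨le_rfl, fun q hq hqn => by omega⟩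

theorem AvDown_self {V : Finset ℕ} (hw : Arr (n + 1) V w) : AvDown L n w (w n) := by
  intro x hx hxw
  have : x = n := hw.inj (by omega) (by omega) hxw
  subst this
  exact ⟨le_rfl, fun q hq hqn => by omega⟩

/-- the smallest value is always available upwards -/
theorem AvUp_min {V : Finset ℕ} (hw : Arr (n + 1) V w) {c : ℕ} (hc : ∀ v ∈ V, c ≤ v) :
    AvUp L n w c := by
  intro x hx hxw
  refine ⟨hc _ (hw.mem (by omega)), fun q hq hqn => ?_⟩
  unfold H
  refine Finset.sum_nonpos fun k hk => ?_
  have hk' := Finset.mem_Ico.mp hk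
  exact chi_le_zero_of_ge (hc _ (hw.mem (by omega)))

end H42.NC
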