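import Pool.Agent.H42.NC.BDefs

/-!
# NCW B5: the twisted Burau representation

`burF L t i a` replaces the pair `(a i, a (i+1)) = (x, y)` by `((1 - t) x + α y, β x)`, `α = al L t i`, `β = be L t i`,
`α β = t ≠ 0`. The inverse replaces `(X, Y)` by `(x, y)` with `x = β⁻¹ Y`, `y = α⁻¹ (X - (1 - t) β⁻¹ Y)`, that is
`f - t⁻¹ • F f • V` with `F a = a (i+1) - β a i`, `V = e (i+1) - α e i`.

* `bur` is the linear equivalence with underlying function `burF` (`LinearEquiv.ofBijective`, or give the inverse explicitly).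
* `bur_artin`: for every `m` the Artin relations: `funext k` and case distinction on
  `k = i, i+1, i+2, j, j+1` (braid relation: on the three coordinates `(x, y, z)` both sides are
  `((1-t) x + (1-t) α y + α α' z, β (1-t) x + t y, β β' x)`, `α, β` for `i`, `α', β'` for `i + 1`, use `α β = t`).
  The group structure is `LinearEquiv.automorphismGroup`: `(f * g) a = f (g a)` (`LinearEquiv.mul_apply`).
-/

namespace H42.NC

theorem al_mul_be (L : ℕ → Bool) (t : ℝ) (i : ℕ) : al L t i * be L t i = t := by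
  unfold al be
  split_ifs <;> simp

/-- the inverse of `burF` -/
private noncomputable def burI (L : ℕ → Bool) (t : ℝ) (i : ℕ) (b : ℕ → ℝ) : ℕ → ℝ := fun k =>
  if k = i then (be L t i)⁻¹ * b (i + 1)
  else if k = i + 1 then (al L t i)⁻¹ * (b i - (1 - t) * ((be L t i)⁻¹ * b (i + 1))) else b k

private theorem al_ne {L : ℕ → Bool} {t : ℝ} (ht : t ≠ 0) (i : ℕ) : al L t i ≠ 0 := by
  intro h
  apply ht
  rw [← al_mul_be L t i, h, zero_mul]

private theorem be_ne {L : ℕ → Bool} {t : ℝ} (ht : t ≠ 0) (i : ℕ) : be L t i ≠ 0 := by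
  intro h
  apply ht
  rw [← al_mul_be L t i, h, mul_zero]

private theorem burF_i (L : ℕ → Bool) (t : ℝ) (i : ℕ) (a : ℕ → ℝ) :
    burF L t i a i = (1 - t) * a i + al L t i * a (i + 1) := by
  simp [burF]

private theorem burF_i1 (L : ℕ → Bool) (t : ℝ) (i : ℕ) (a : ℕ → ℝ) :
    burF L t i a (i + 1) = be L t i * a i := by
  simp [burF]

private theorem burF_ne (L : ℕ → Bool) (t : ℝ) {i k : ℕ} (h1 : k ≠ i) (h2 : k ≠ i + 1)
    (a : ℕ → ℝ) : burF L t i a k = a k := by
  simp [burF, h1, h2]

private noncomputable def burE (L : ℕ → Bool) {t : ℝ} (ht : t ≠ 0) (i : ℕ) :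
    (ℕ → ℝ) ≃ₗ[ℝ] (ℕ → ℝ) where
  toFun := burF L t i
  map_add' a b := by
    funext k
    simp only [burF, Pi.add_apply]
    split_ifs <;> ring
  map_smul' c a := by
    funext k
    simp only [burF, Pi.smul_apply, smul_eq_mul, RingHom.id_apply]
    split_ifs <;> ring
  invFun := burI L t i
  left_inv a := by
    have h1 := al_ne (L := L) ht i
    have h2 := be_ne (L := L) ht i
    funext k
    unfold burI
    rw [burF_i, burF_i1]
    split_ifs with h3 h4
    · subst h3
      field_simp
    · subst h4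
      field_simp
      ring
    · exact burF_ne L t h3 h4 a
  right_inv b := by
    have h1 := al_ne (L := L) ht i
    have h2 := be_ne (L := L) ht i
    funext k
    have e1 : burI L t i b i = (be L t i)⁻¹ * b (i + 1) := by simp [burI]
    have e2 : burI L t i b (i + 1) =
        (al L t i)⁻¹ * (b i - (1 - t) * ((be L t i)⁻¹ * b (i + 1))) := by simp [burI]
    by_cases h3 : k = i
    · subst h3
      rw [burF_i, e1, e2]
      field_simp
      ring
    · by_cases h4 : k = i + 1
      · subst h4
        rw [burF_i1, e1]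
        field_simp
      · rw [burF_ne L t h3 h4]
        simp [burI, h3, h4]

private theorem bur_comm (L : ℕ → Bool) (t : ℝ) {i j : ℕ} (h : i + 1 < j) (a : ℕ → ℝ) :
    burF L t i (burF L t j a) = burF L t j (burF L t i a) := by
  funext k
  by_cases h1 : k = i
  · subst h1
    rw [burF_i, burF_ne L t (i := j) (k := k) (by omega) (by omega),
      burF_ne L t (i := j) (k := k + 1) (by omega) (by omega),
      burF_ne L t (i := j) (k := k) (by omega) (by omega), burF_i]
  by_cases h2 : k = i + 1
  · subst h2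
    rw [burF_i1, burF_ne L t (i := j) (k := i) (by omega) (by omega),
      burF_ne L t (i := j) (k := i + 1) (by omega) (by omega), burF_i1]
  rw [burF_ne L t h1 h2]
  by_cases h3 : k = j
  · subst h3
    rw [burF_i, burF_i, burF_ne L t (i := i) (k := k) (by omega) (by omega),
      burF_ne L t (i := i) (k := k + 1) (by omega) (by omega)]
  by_cases h4 : k = j + 1
  · subst h4
    rw [burF_i1, burF_i1, burF_ne L t (i := i) (k := j) (by omega) (by omega)]
  rw [burF_ne L t h3 h4, burF_ne L t h3 h4, burF_ne L t h1 h2]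

private theorem bur_braid (L : ℕ → Bool) (t : ℝ) (i : ℕ) (a : ℕ → ℝ) :
    burF L t i (burF L t (i + 1) (burF L t i a)) =
      burF L t (i + 1) (burF L t i (burF L t (i + 1) a)) := by
  have e1 := al_mul_be L t i
  have e2 := al_mul_be L t (i + 1)
  have f1 : ∀ b : ℕ → ℝ, burF L t (i + 1) b i = b i := fun b =>
    burF_ne L t (by omega) (by omega) b
  have f2 : ∀ b : ℕ → ℝ, burF L t i b (i + 1 + 1) = b (i + 1 + 1) := fun b =>
    burF_ne L t (by omega) (by omega) b
  funext k
  by_cases h1 : k = i
  · subst h1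
    simp only [burF_i, burF_i1, f1, f2]
    linear_combination ((1 - t) * a k) * e1
  by_cases h2 : k = i + 1
  · subst h2
    simp only [burF_i, burF_i1, f1, f2]
    linear_combination a (i + 1) * e1 - a (i + 1) * e2
  by_cases h3 : k = i + 1 + 1
  · subst h3
    simp only [burF_i1, f1, f2]
  rw [burF_ne L t h1 h2, burF_ne L t h2 h3, burF_ne L t h1 h2, burF_ne L t h2 h3,
    burF_ne L t h1 h2, burF_ne L t h2 h3]

theorem exists_bur (L : ℕ → Bool) {t : ℝ} (ht : t ≠ 0) :
    ∃ B : ℕ → ((ℕ → ℝ) ≃ₗ[ℝ] (ℕ → ℝ)), (∀ i a, B i a = burF L t i a) ∧ ∀ m, Artin m B := by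
  refine ⟨fun i => burE L ht i, fun i a => rfl, fun m => ⟨?_, ?_⟩⟩
  · intro i j hij _
    refine LinearEquiv.ext fun a => ?_
    rw [LinearEquiv.mul_apply, LinearEquiv.mul_apply]
    exact bur_comm L t hij a
  · intro i _
    refine LinearEquiv.ext fun a => ?_
    simp only [LinearEquiv.mul_apply]
    exact bur_braid L t i a

end H42.NC
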