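import Pool.Agent.H42.NC.Bruhat

/-!
Module NC-C2 (partial order).
`Cr.refl`: `w x = w y` gives `x = y`, both ranges empty.
`Cr.trans`: let `v = w x = u' y` be the value; let `y` be its position in `u` and `z` its position in the third
arrangement (called `z`-arrangement `e` below); positions exist by `Arr.pos`/`Arr.mem`.
 (+) `x < q ≤ p ≤ z`, want `H w v q ≤ H e v p`.
   case `p ≤ y`: (+) of `w ≤ u` gives `H w v q ≤ H u v p ≤ H e v p` (bruhat).
   case `y < q`: `H w v q ≤ H u v q ≤ H e v p` by bruhat and (+) of `u ≤ e`.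
   case `q ≤ y < p`: `H w v q ≤ H u v y` ((+) with `p := y`), `H u v (y+1) ≤ H e v p` ((+) with `q := y+1`) and
      `H u v y = chi (y) + H u v (y+1) ≤ H u v (y+1)` because `u y = v` (chi_le_zero_of_ge).
 (-) `z < q ≤ p ≤ x`, want `H w v p + 1 ≤ H e v q`.
   case `y < q`: `H w v p + 1 ≤ H u v q ≤ H e v q`.
   case `p ≤ y`: `H w v p ≤ H u v p`, `H u v p + 1 ≤ H e v q`.
   case `q ≤ y < p`: `H w v p + 1 ≤ H u v (y+1)` ((-) with `q := y+1`), `H u v y + 1 ≤ H e v q` ((-) with `p := y`),
      `H u v (y+1) ≤ H u v y + 1` since `chi ≥ -1`.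
`Cr.antisymm`: by bruhat twice all heights agree, hence `chi w t k = chi u t k` for `k < n` and all `t` (H_step),
so `w k < t ↔ u k < t` for all `t`, so `w k = u k`.
-/

namespace H42.NC

variable {L : ℕ → Bool} {n : ℕ} {w u e : ℕ → ℕ}

theorem Cr.refl {V : Finset ℕ} (hw : Arr n V w) : Cr L n w w := by
  intro x y hx hy hxy
  have h := hw.inj hx hy hxy
  subst h
  exact ⟨fun q p h1 h2 h3 => by omega, fun q p h1 h2 h3 => by omega⟩

theorem Cr.trans {V : Finset ℕ} (hw : Arr n V w) (hu : Arr n V u) (he : Arr n V e)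
    (h1 : Cr L n w u) (h2 : Cr L n u e) : Cr L n w e := by
  intro x z hx hz hxz
  obtain ⟨y, hy, hyv⟩ := hu.pos (hw.mem hx)
  obtain ⟨A1, A2⟩ := h1 x y hx hy hyv.symm
  obtain ⟨B1, B2⟩ := h2 y z hy hz (hyv.trans hxz)
  rw [hyv] at B1 B2
  have b1 := Cr.bruhat hw hu h1 (w x)
  have b2 := Cr.bruhat hu he h2 (w x)
  have hs := H_step (L := L) (w := u) (t := w x) hy
  have hc1 : -1 ≤ chi L u (w x) y := chi_ge_neg_one
  have hc2 : chi L u (w x) y ≤ 0 := chi_le_zero_of_ge hyv.ge
  constructor
  · intro q p hq hqp hp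
    rcases Nat.lt_or_ge y q with hyq | hyq
    · have := A1 q p hyq hqp hp
      have := b2 q
      omega
    · rcases Nat.lt_or_ge y p with hyp | hyp
      · have := A1 (y + 1) p (by omega) (by omega) hp
        have := B1 q y hq hyq le_rfl
        omega
      · have := B1 q p hq hqp hyp
        have := b1 p
        omega
  · intro q p hq hqp hp
    rcases Nat.lt_or_ge y q with hyq | hyq
    · have := B2 q p hyq hqp hp
      have := b1 q
      omega
    · rcases Nat.lt_or_ge y p with hyp | hyp
      · have := A2 q y hq hyq le_rfl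
        have := B2 (y + 1) p (by omega) (by omega) hp
        omega
      · have := A2 q p hq hqp hyp
        have := b2 p
        omega

theorem Cr.antisymm {V : Finset ℕ} (hw : Arr n V w) (hu : Arr n V u)
    (h1 : Cr L n w u) (h2 : Cr L n u w) : ∀ k < n, w k = u k := by
  intro k hk
  have hH : ∀ t p, H L n w t p = H L n u t p := fun t p =>
    le_antisymm (Cr.bruhat hw hu h1 t p) (Cr.bruhat hu hw h2 t p)
  have hchi : ∀ t, chi L w t k = chi L u t k := by
    intro t
    have e1 := H_step (L := L) (w := w) (t := t) hk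
    have e2 := H_step (L := L) (w := u) (t := t) hk
    rw [hH t k, hH t (k + 1)] at e1
    omega
  rcases Nat.lt_trichotomy (w k) (u k) with h | h | h
  · have := hchi (u k)
    unfold chi at this
    rw [if_pos h, if_neg (lt_irrefl (u k))] at this
    omega
  · exact h
  · have := hchi (w k)
    unfold chi at this
    rw [if_pos h, if_neg (lt_irrefl (w k))] at this
    omega

/-- `Cr` only depends on the values at positions `< n` -/
theorem Cr.congr {w' u' : ℕ → ℕ} (hw : ∀ k < n, w k = w' k) (hu : ∀ k < n, u k = u' k)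
    (h : Cr L n w u) : Cr L n w' u' := by
  intro x y hx hy hxy
  have h1 := h x y hx hy (by rw [hw x hx, hu y hy]; exact hxy)
  rw [hw x hx] at h1
  obtain ⟨A, B⟩ := h1
  constructor
  · intro q p hq hqp hp
    rw [← H_congr hw, ← H_congr hu]
    exact A q p hq hqp hp
  · intro q p hq hqp hp
    rw [← H_congr hw, ← H_congr hu]
    exact B q p hq hqp hp

end H42.NC
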