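import Pool.Agent.H42.NC.Step
import Pool.Agent.H42.NC.Dual
import Pool.Agent.H42.NC.Trans
import Pool.Agent.H42.NC.Cover
import Pool.Agent.H42.NC.Nec

namespace H42.NC

variable {L : ℕ → Bool} {n : ℕ} {w u : ℕ → ℕ}

def meas (n : ℕ) (w : ℕ → ℕ) : ℕ := ∑ k ∈ Finset.range n, k * w k

theorem meas_sw {i j : ℕ} (hij : i < j) (hj : j < n) (h : w i < w j) :
    meas n (sw w i j) < meas n w := by
  unfold meas
  have hi : i ∈ Finset.range n := Finset.mem_range.mpr (by omega)
  have hj' : j ∈ (Finset.range n).erase i :=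
    Finset.mem_erase.mpr ⟨by omega, Finset.mem_range.mpr hj⟩
  rw [← Finset.add_sum_erase _ _ hi, ← Finset.add_sum_erase _ _ hj',
    ← Finset.add_sum_erase _ (fun k => k * w k) hi, ← Finset.add_sum_erase _ (fun k => k * w k) hj']
  have h1 : ∑ k ∈ ((Finset.range n).erase i).erase j, k * sw w i j k
      = ∑ k ∈ ((Finset.range n).erase i).erase j, k * w k := by
    refine Finset.sum_congr rfl (fun k hk => ?_)
    have hk1 := Finset.mem_erase.mp hk
    have hk2 := Finset.mem_erase.mp hk1.2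
    rw [sw_ne hk2.1 hk1.1]
  rw [h1, sw_left, sw_right]
  obtain ⟨d, rfl⟩ := Nat.exists_eq_add_of_lt hij
  obtain ⟨e, he⟩ := Nat.exists_eq_add_of_lt h
  rw [he]
  nlinarith

theorem exists_rho {V : Finset ℕ} {c : ℕ} (hcV : c ∈ V) :
    ∀ N w, meas (n + 1) w ≤ N → Arr (n + 1) V w → AvUp L n w c →
      ∃ r, Arr (n + 1) V r ∧ r n = c ∧ Cr L (n + 1) w r ∧
        ∀ u, Arr (n + 1) V u → AvDown L n u c → Cr L (n + 1) w u → Cr L (n + 1) r u := by
  intro N
  induction N with
  | zero =>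
    intro w hN hw hup
    obtain ⟨x, hx, rfl⟩ := hw.pos hcV
    by_cases hxn : x = n
    · subst hxn
      exact ⟨w, hw, rfl, Cr.refl hw, fun u _ _ h => h⟩
    · obtain ⟨i, j, hij, hjn, hvis, _, _⟩ := forced_step hw (by omega : x < n) hup
      have := meas_sw (n := n + 1) hij (by omega) hvis.2.1
      omega
  | succ N ih =>
    intro w hN hw hup
    obtain ⟨x, hx, rfl⟩ := hw.pos hcV
    by_cases hxn : x = n
    · subst hxn
      exact ⟨w, hw, rfl, Cr.refl hw, fun u _ _ h => h⟩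
    · obtain ⟨i, j, hij, hjn, hvis, hav, hall⟩ := forced_step hw (by omega : x < n) hup
      have hm := meas_sw (n := n + 1) hij (by omega) hvis.2.1
      have hw' : Arr (n + 1) V (sw w i j) := hw.sw (by omega) (by omega)
      obtain ⟨r, hr, hrn, hcr, hmin⟩ := ih (sw w i j) (by omega) hw' hav
      refine ⟨r, hr, hrn, ?_, ?_⟩
      · exact Cr.trans hw hw' hr (Vis.cr hw (by omega) hvis) hcr
      · intro u hu hdn hwu
        exact hmin u hu hdn (hall u hu hdn hwu)

theorem exists_rho' {V : Finset ℕ} {c : ℕ} (hcV : c ∈ V) {w : ℕ → ℕ} (hw : Arr (n + 1) V w)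
    (hup : AvUp L n w c) :
    ∃ r, Arr (n + 1) V r ∧ r n = c ∧ Cr L (n + 1) w r ∧
      ∀ u, Arr (n + 1) V u → AvDown L n u c → Cr L (n + 1) w u → Cr L (n + 1) r u :=
  exists_rho hcV _ w le_rfl hw hup

theorem exists_lam {V : Finset ℕ} {c : ℕ} (hcV : c ∈ V) {u : ℕ → ℕ} (hu : Arr (n + 1) V u)
    (hdn : AvDown L n u c) :
    ∃ r, Arr (n + 1) V r ∧ r n = c ∧ Cr L (n + 1) r u ∧
      ∀ w, Arr (n + 1) V w → AvUp L n w c → Cr L (n + 1) w u → Cr L (n + 1) w r := by
  obtain ⟨M, hM⟩ : ∃ M, ∀ v ∈ V, v ≤ M := ⟨V.sup id, fun v hv => Finset.le_sup (f := id) hv⟩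
  set V' := V.image (fun v => M - v) with hV'
  have hM' : ∀ v ∈ V', v ≤ M := by
    intro v hv
    obtain ⟨a, _, rfl⟩ := Finset.mem_image.mp hv
    omega
  have hcV' : M - c ∈ V' := Finset.mem_image_of_mem _ hcV
  have hu' : Arr (n + 1) V' (dual M u) := hu.dual hM
  have hup' : AvUp (dualL L) n (dual M u) (M - c) := (AvUp_dual hM hu hcV).mpr hdn
  obtain ⟨r, hr, hrn, hcr, hmin⟩ := exists_rho' hcV' hu' hup'
  have hVV : V'.image (fun v => M - v) = V := image_image hM
  have hr' : Arr (n + 1) V (dual M r) := by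
    have := hr.dual hM'
    rwa [hVV] at this
  have hrr : ∀ k < n + 1, dual M (dual M r) k = r k := fun k hk => dual_dual_apply hM' hr hk
  refine ⟨dual M r, hr', ?_, ?_, ?_⟩
  · show M - r n = c
    have := hM c hcV
    omega
  · have h1 : Cr (dualL L) (n + 1) (dual M u) (dual M (dual M r)) :=
      Cr.congr (fun _ _ => rfl) (fun k hk => (hrr k hk).symm) hcr
    exact (Cr_dual hM hr' hu).mp h1
  · intro w hw hup hwu
    have hw' : Arr (n + 1) V' (dual M w) := hw.dual hM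
    have h1 : Cr (dualL L) (n + 1) (dual M u) (dual M w) := (Cr_dual hM hw hu).mpr hwu
    have h2 : AvDown (dualL L) n (dual M w) (M - c) := (AvDown_dual hM hw hcV).mpr hup
    have h3 := hmin _ hw' h2 h1
    have h4 : Cr (dualL L) (n + 1) (dual M (dual M r)) (dual M w) :=
      Cr.congr (fun k hk => (hrr k hk).symm) (fun _ _ => rfl) h3
    exact (Cr_dual hM hw hr').mp h4

end H42.NC
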