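import Pool.Agent.H42.NC.CaseA
import Pool.Agent.H42.NC.CaseB

/-!
Module NC-C7 (forced cover).  `c = w x`, `x < n`; `w n > c` by `hup` and injectivity.
Let `l` be the first position `> x` with (`l = n`) or (`l < n`, `L l = true`, `c < w l`) (Nat.find; exists: `n`).
Case A: every `k` with `x < k < l`, `L k = false` has `c < w k`.  (Lower points in `(x, l)` are `< c` by minimality of `l` and injectivity.)
  Let `j` minimise `w` on `{l} ∪ {k ∈ (x, l) : L k = false}` (Finset.exists_min_image).  `caseA`.  The pair does not depend on `u`.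
  AvUp of `w' = sw w x j` for `c`: position of `c` is now `j`.  If `j = n`: `w' n = c`, ranges empty.  Otherwise `w' n = w n` and for
  `j < q ≤ n` the height `H L n w' c q = H L n w c q ≤ 0` (positions `≥ q > j` unchanged, or H_sw: threshold `c` is not `> w x`).
Case B: some `k₀` with `x < k₀ < l`, `L k₀ = false`, `w k₀ < c`.  Then `l < n`: otherwise all lower points of `(x, n)` are `< c` and
  `H L n w c k₀ ≥ 1` (chi at `k₀` is `1`, all other chi in `[k₀, n)` are `≥ 0`), contradicting `hup` (`x < k₀ ≤ n`).  Put `j₁ = l`, and `i₁` = the largest such `k₀`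
  (largest `k ∈ (x, j₁)` with `L k = false`, `w k < c`).  Region hypotheses hold.  `j` minimises `w` on `{j₁} ∪ {k ∈ (i₁, j₁) : L k = false}`,
  `i` maximises `w` on `{i₁} ∪ {k ∈ (i₁, j) : L k = true}`.  `caseB`.
  AvUp of `w' = sw w i j` for `c`: the position is still `x` (`x < i₁ ≤ i < j`), `w' n = w n` (`j ≤ j₁ < n`), and by `H_sw` (with `n`, `j < n`)
  `H L n w' c q = H L n w c q + 1` for `i < q ≤ j`, unchanged otherwise.  For `i < q ≤ j`: `H L n w c q + 1 ≤ 0` because
  `H L n w c i₁ ≤ 0` (hup, `x < i₁`), `H L n w c i₁ = 1 + H L n w c (i₁+1)` and `H L n w c (i₁+1) = H L n w c q` (chi = 0 for points of the region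
  `(i₁, j₁)` at threshold `c`).
-/

namespace H42.NC

variable {L : ℕ → Bool} {n : ℕ} {w u : ℕ → ℕ}

theorem forced_step {V : Finset ℕ} (hw : Arr (n + 1) V w) {x : ℕ} (hx : x < n)
    (hup : AvUp L n w (w x)) :
    ∃ i j, i < j ∧ j ≤ n ∧ Vis L w i j ∧ AvUp L n (sw w i j) (w x) ∧
      ∀ u, Arr (n + 1) V u → AvDown L n u (w x) → Cr L (n + 1) w u →
        Cr L (n + 1) (sw w i j) u := by
  classical
  have hxn' : x < n + 1 := by omega
  have hwn : w x < w n := by
    have h1 := (hup x hx.le rfl).1
    have h2 : w n ≠ w x := fun h => by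
      have := hw.inj (show n < n + 1 by omega) hxn' h
      omega
    omega
  have hne : ∀ k, x < k → k ≤ n → w k ≠ w x := fun k h1 h2 h => by
    have := hw.inj (show k < n + 1 by omega) hxn' h
    omega
  have hex : ∃ l, x < l ∧ (l = n ∨ (L l = true ∧ w x < w l)) := ⟨n, hx, Or.inl rfl⟩
  obtain ⟨l, ⟨hxl, hl⟩, hlmin⟩ : ∃ l, (x < l ∧ (l = n ∨ (L l = true ∧ w x < w l))) ∧
      ∀ k < l, ¬ (x < k ∧ (k = n ∨ (L k = true ∧ w x < w k))) :=
    ⟨Nat.find hex, Nat.find_spec hex, fun k hk => Nat.find_min hex hk⟩
  have hln : l ≤ n := by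
    by_contra h
    exact hlmin n (by omega) ⟨hx, Or.inl rfl⟩
  have hlow : ∀ k, x < k → k < l → L k = true → w k < w x := fun k h1 h2 h3 => by
    have h4 := hne k h1 (by omega)
    by_contra h5
    exact hlmin k h2 ⟨h1, Or.inr ⟨h3, by omega⟩⟩
  have hlL : l < n → L l = true := fun h => by
    rcases hl with h1 | h1
    · omega
    · exact h1.1
  have hlw : w x < w l := by
    rcases hl with h1 | h1
    · rw [h1]; exact hwn
    · exact h1.2
  by_cases hA : ∀ k, x < k → k < l → L k = false → w x < w k
  · -- case A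
    obtain ⟨j, hjS, hjm⟩ := Finset.exists_min_image
      (insert l ((Finset.Ioo x l).filter fun k => L k = false)) w ⟨l, Finset.mem_insert_self _ _⟩
    have hmin' : w j ≤ w l := hjm l (Finset.mem_insert_self _ _)
    have hmin : ∀ k, x < k → k < l → L k = false → w j ≤ w k := fun k h1 h2 h3 =>
      hjm k (Finset.mem_insert_of_mem (Finset.mem_filter.2 ⟨Finset.mem_Ioo.2 ⟨h1, h2⟩, h3⟩))
    have hj : x < j ∧ j ≤ l ∧ (j = l ∨ L j = false) := by
      rcases Finset.mem_insert.1 hjS with h | h
      · rw [h]; exact ⟨hxl, le_rfl, Or.inl rfl⟩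
      · have h1 := Finset.mem_filter.1 h
        have h2 := Finset.mem_Ioo.1 h1.1
        exact ⟨h2.1, h2.2.le, Or.inr h1.2⟩
    obtain ⟨hxj, hjl, hjU⟩ := hj
    have hreg : ∀ k, x < k → k < l → (L k = true → w k < w x) ∧ (L k = false → w x < w k) :=
      fun k h1 h2 => ⟨hlow k h1 h2, hA k h1 h2⟩
    have hvis : Vis L w x j := by
      refine ⟨hxj, ?_, fun k hk1 hk2 => ⟨fun hL => (hreg k hk1 (by omega)).1 hL, fun hL => ?_⟩⟩
      · rcases hjU with h | h
        · rw [h]; exact hlw
        · by_cases h2 : j = l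
          · rw [h2]; exact hlw
          · exact hA j hxj (by omega) h
      · have h1 := hmin k hk1 (by omega) hL
        have h2 : w k ≠ w j := fun h => by
          have := hw.inj (show k < n + 1 by omega) (show j < n + 1 by omega) h
          omega
        omega
    refine ⟨x, j, hxj, by omega, hvis, ?_, fun u hu hdn hc =>
      (caseA hw hu hc hx hwn hup hdn hxl hln hlL hlw hreg hxj hjl hjU hmin hmin').2⟩
    intro x' hx' hx'c
    have hsw := hw.sw hxn' (show j < n + 1 by omega)
    have hxj' : x' = j :=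
      hsw.inj (by omega) (show j < n + 1 by omega) (by rw [hx'c, sw_right])
    by_cases hjn : j = n
    · refine ⟨?_, fun q h1 h2 => by omega⟩
      rw [hjn, sw_right]
    · refine ⟨?_, fun q h1 h2 => ?_⟩
      · rw [sw_ne (by omega) (by omega)]; exact hwn.le
      · rw [H_sw hxj (by omega) hvis.2.1, if_neg (by omega), add_zero]
        exact (hup x hx.le rfl).2 q (by omega) h2
  · -- case B
    push Not at hA
    obtain ⟨k₀, hk1, hk2, hk3, hk4⟩ := hA
    have hk5 := hne k₀ hk1 (by omega)
    have hln' : l < n := by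
      by_contra h
      have hle : l = n := by omega
      have h1 := (hup x hx.le rfl).2 k₀ hk1 (by omega)
      rw [H_step (show k₀ < n by omega), chi_U_lt hk3 (by omega)] at h1
      have h2 : 0 ≤ H L n w (w x) (k₀ + 1) := by
        unfold H
        refine Finset.sum_nonneg fun k hk => ?_
        have hk' := Finset.mem_Ico.1 hk
        cases hL : L k with
        | true => rw [chi_L_lt hL (hlow k (by omega) (by omega) hL)]
        | false =>
          by_cases h3 : w k < w x
          · rw [chi_U_lt hL h3]; norm_num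
          · rw [chi_U_ge hL (by omega)]
      omega
    obtain ⟨i₁, hiS, him⟩ := Finset.exists_max_image
      ((Finset.Ioo x l).filter fun k => L k = false ∧ w k < w x) (fun k => k)
      ⟨k₀, Finset.mem_filter.2 ⟨Finset.mem_Ioo.2 ⟨hk1, hk2⟩, hk3, by omega⟩⟩
    have hi1 := Finset.mem_filter.1 hiS
    have hi2 := Finset.mem_Ioo.1 hi1.1
    obtain ⟨hxi, hil⟩ := hi2
    obtain ⟨hiU, hiw⟩ := hi1.2
    have hreg : ∀ k, i₁ < k → k < l → (L k = true → w k < w x) ∧ (L k = false → w x < w k) := by
      intro k h1 h2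
      refine ⟨hlow k (by omega) h2, fun hL => ?_⟩
      by_contra h3
      have h4 := hne k (by omega) (by omega)
      have h5 := him k (Finset.mem_filter.2 ⟨Finset.mem_Ioo.2 ⟨by omega, h2⟩, hL, by omega⟩)
      omega
    obtain ⟨j, hjS, hjm⟩ := Finset.exists_min_image
      (insert l ((Finset.Ioo i₁ l).filter fun k => L k = false)) w ⟨l, Finset.mem_insert_self _ _⟩
    have hjmin' : w j ≤ w l := hjm l (Finset.mem_insert_self _ _)
    have hjmin : ∀ k, i₁ < k → k < l → L k = false → w j ≤ w k := fun k h1 h2 h3 =>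
      hjm k (Finset.mem_insert_of_mem (Finset.mem_filter.2 ⟨Finset.mem_Ioo.2 ⟨h1, h2⟩, h3⟩))
    have hj : i₁ < j ∧ j ≤ l ∧ (j = l ∨ L j = false) := by
      rcases Finset.mem_insert.1 hjS with h | h
      · rw [h]; exact ⟨hil, le_rfl, Or.inl rfl⟩
      · have h1 := Finset.mem_filter.1 h
        have h2 := Finset.mem_Ioo.1 h1.1
        exact ⟨h2.1, h2.2.le, Or.inr h1.2⟩
    obtain ⟨hij₁, hjl, hjU⟩ := hj
    obtain ⟨i, hiS', himx⟩ := Finset.exists_max_image
      (insert i₁ ((Finset.Ioo i₁ j).filter fun k => L k = true)) w ⟨i₁, Finset.mem_insert_self _ _⟩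
    have himax' : w i₁ ≤ w i := himx i₁ (Finset.mem_insert_self _ _)
    have himax : ∀ k, i₁ < k → k < j → L k = true → w k ≤ w i := fun k h1 h2 h3 =>
      himx k (Finset.mem_insert_of_mem (Finset.mem_filter.2 ⟨Finset.mem_Ioo.2 ⟨h1, h2⟩, h3⟩))
    have hi : i₁ ≤ i ∧ i < j ∧ (i = i₁ ∨ L i = true) := by
      rcases Finset.mem_insert.1 hiS' with h | h
      · rw [h]; exact ⟨le_rfl, hij₁, Or.inl rfl⟩
      · have h1 := Finset.mem_filter.1 h
        have h2 := Finset.mem_Ioo.1 h1.1
        exact ⟨h2.1.le, h2.2, Or.inr h1.2⟩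
    obtain ⟨hi₁i, hij, hiL⟩ := hi
    have hac : w i < w x := by
      rcases hiL with h | h
      · rw [h]; exact hiw
      · by_cases h2 : i = i₁
        · rw [h2]; exact hiw
        · exact (hreg i (by omega) (by omega)).1 h
    have hcb : w x < w j := by
      rcases hjU with h | h
      · rw [h]; exact hlw
      · by_cases h2 : j = l
        · rw [h2]; exact hlw
        · exact (hreg j (by omega) (by omega)).2 h
    have hvis : Vis L w i j := by
      refine ⟨hij, by omega, fun k hk1 hk2 => ⟨fun hL => ?_, fun hL => ?_⟩⟩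
      · have h1 := himax k (by omega) hk2 hL
        have h2 : w k ≠ w i := fun h => by
          have := hw.inj (show k < n + 1 by omega) (show i < n + 1 by omega) h
          omega
        omega
      · have h1 := hjmin k (by omega) (by omega) hL
        have h2 : w k ≠ w j := fun h => by
          have := hw.inj (show k < n + 1 by omega) (show j < n + 1 by omega) h
          omega
        omega
    refine ⟨i, j, hij, by omega, hvis, ?_, fun u hu hdn hc =>
      (caseB hw hu hc hwn hup hdn hxi hiU hiw hil hln' (hlL hln') hlw hreg hij₁ hjl hjU hjmin hjmin'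
        hi₁i hij hiL himax himax').2⟩
    intro x' hx' hx'c
    have hsw := hw.sw (show i < n + 1 by omega) (show j < n + 1 by omega)
    have hxx' : x' = x :=
      hsw.inj (by omega) hxn' (by rw [hx'c, sw_ne (by omega) (by omega)])
    refine ⟨?_, fun q h1 h2 => ?_⟩
    · rw [sw_ne (by omega) (by omega)]; exact hwn.le
    · rw [H_sw hij (by omega) hvis.2.1]
      have h3 := (hup x hx.le rfl).2 q (by omega) h2
      split_ifs with h4
      · have h5 := (hup x hx.le rfl).2 i₁ hxi (by omega)
        rw [H_step (show i₁ < n by omega), chi_U_lt hiU hiw] at h5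
        have h6 : H L n w (w x) (i₁ + 1) = H L n w (w x) q := by
          refine H_const (by omega) h2 fun k hk1 hk2 => ?_
          cases hL : L k with
          | true => exact chi_L_lt hL ((hreg k (by omega) (by omega)).1 hL)
          | false => exact chi_U_ge hL ((hreg k (by omega) (by omega)).2 hL).le
        omega
      · omega

end H42.NC
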