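import Pool.Agent.H42.NC.BDefs

/-!
# NCW B8: the second form of the kernel

For `k < n`, `x = u k`, `D z = Dx L n u v p z k`, `up q = ∑ j ∈ Ico q n, (if L j = true then 0 else 1)`:

`Phi L n t u v p k = t ^ (up p - up k) - (if v⁻¹ x < p then t ^ D x else 0)
   - (1 - t) * ∑ z ∈ (range n).filter (x < z ∧ k < u⁻¹ z ∧ v⁻¹ z < p), t ^ D z`.

Proof: `D z - D (z-1) = [p ≤ v⁻¹ z] - [k ≤ u⁻¹ z]` for `1 ≤ z < n` (`H_thr`, `H_thr_of_le`, `H_thr_of_gt` with
the positions `v⁻¹ z`, `u⁻¹ z < n`). So for `x < z < n` (`u⁻¹ z ≠ k`):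
`t ^ D z - t ^ D (z-1) = - (1-t) t ^ D (z-1)` if `u⁻¹ z < k`, `p ≤ v⁻¹ z`; `= (1-t) t ^ D z` if `k < u⁻¹ z`, `v⁻¹ z < p`; `= 0` otherwise.
Sum over `z ∈ Ico (x+1) n` : the left sides telescope (`Finset.sum_Ico_consecutive`, `Finset.sum_range_succ_sub...`
or `Finset.sum_Ico_sub_...`; or induction) to `t ^ D (n-1) - t ^ D x`, and `D (n-1) = up p - up k`: at threshold `n` every
value is below the threshold: `H L n w n q = ∑ j ∈ Ico q n, (1 - [L j]) = up q`. (`n ≥ 1` since `k < n`.)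
Hence `- (1-t) ∑_{(first kind)} t ^ D (z-1) = t ^ (up p - up k) - t ^ D x - (1-t) ∑_{(second kind)} t ^ D z` and
`[p ≤ v⁻¹ x] t ^ D x - t ^ D x = - [v⁻¹ x < p] t ^ D x`.
-/

namespace H42.NC

/-- number of upper positions `≥ q` -/
def upn (L : ℕ → Bool) (n q : ℕ) : ℤ := ∑ j ∈ Finset.Ico q n, (if L j = true then 0 else 1)

private theorem tl_fix_lt {n : ℕ} {w : Equiv.Perm ℕ} (h : Fix n w) {k : ℕ} (hk : k < n) :
    w k < n := by
  by_contra hc
  have h1 : w (w k) = w k := h (w k) (by omega)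
  have h2 : w k = k := w.injective h1
  omega

private theorem tl_fix_inv {n : ℕ} {w : Equiv.Perm ℕ} (h : Fix n w) : Fix n w⁻¹ := by
  intro k hk
  rw [Equiv.Perm.inv_eq_iff_eq]
  exact (h k hk).symm

private theorem tl_thr (L : ℕ → Bool) {n : ℕ} {w : Equiv.Perm ℕ} (hw : Fix n w) {z : ℕ}
    (hz : z < n) (q : ℕ) :
    H L n w (z + 1) q = H L n w z q + if q ≤ w⁻¹ z then 1 else 0 := by
  have h1 : w⁻¹ z < n := tl_fix_lt (tl_fix_inv hw) hz
  have h2 : w (w⁻¹ z) = z := Equiv.apply_symm_apply w z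
  by_cases hq : q ≤ w⁻¹ z
  · rw [if_pos hq]
    exact H_thr_of_le (w.injective.injOn) h1 h2 hq
  · rw [if_neg hq, add_zero]
    exact H_thr_of_gt (w.injective.injOn) h1 h2 (by omega)

private theorem tl_top (L : ℕ → Bool) {n : ℕ} {w : Equiv.Perm ℕ} (hw : Fix n w) (q : ℕ) :
    H L n w n q = upn L n q := by
  unfold H upn
  refine Finset.sum_congr rfl fun j hj => ?_
  have hj' := (Finset.mem_Ico.1 hj).2
  unfold chi
  rw [if_pos (tl_fix_lt hw hj')]
  split_ifs <;> norm_num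

private theorem tl_tele (f : ℕ → ℝ) (x : ℕ) : ∀ m, x < m →
    ∑ z ∈ Finset.Ico (x + 1) m, (f z - f (z - 1)) = f (m - 1) - f x := by
  intro m hm
  induction m, hm using Nat.le_induction with
  | base => simp
  | succ m hm ih =>
    rw [Finset.sum_Ico_succ_top (by omega), ih]
    have h1 : m + 1 - 1 = m := by omega
    rw [h1]
    ring

private theorem tl_filter (n x : ℕ) (A : ℕ → Prop) [DecidablePred A] (F : ℕ → ℝ)
    [DecidablePred fun z => x < z ∧ A z] :
    ∑ z ∈ (Finset.range n).filter (fun z => x < z ∧ A z), F z =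
      ∑ z ∈ Finset.Ico (x + 1) n, if A z then F z else 0 := by
  rw [← Finset.sum_filter]
  refine Finset.sum_congr ?_ fun _ _ => rfl
  ext z
  simp only [Finset.mem_filter, Finset.mem_range, Finset.mem_Ico]
  constructor
  · rintro ⟨h1, h2, h3⟩
    exact ⟨⟨h2, h1⟩, h3⟩
  · rintro ⟨⟨h1, h2⟩, h3⟩
    exact ⟨h2, h1, h3⟩

theorem Phi_down (L : ℕ → Bool) {n : ℕ} {t : ℝ} (ht : 0 < t) {u v : Equiv.Perm ℕ}
    (hu : Fix n u) (hv : Fix n v) (p k : ℕ) (hk : k < n) :
    Phi L n t u v p k = t ^ (upn L n p - upn L n k)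
      - (if v⁻¹ (u k) < p then t ^ (Dx L n u v p (u k) k) else 0)
      - (1 - t) * ∑ z ∈ (Finset.range n).filter (fun z => u k < z ∧ k < u⁻¹ z ∧ v⁻¹ z < p),
        t ^ (Dx L n u v p z k) := by
  have hx : u k < n := tl_fix_lt hu hk
  have hne : t ≠ 0 := ht.ne'
  unfold Phi
  rw [if_pos hk]
  have hstep : ∀ z ∈ Finset.Ico (u k + 1) n,
      t ^ (Dx L n u v p z k) - t ^ (Dx L n u v p (z - 1) k) =
      (1 - t) * (if k < u⁻¹ z ∧ v⁻¹ z < p then t ^ (Dx L n u v p z k) else 0) -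
      (1 - t) * (if u⁻¹ z < k ∧ p ≤ v⁻¹ z then t ^ (Dx L n u v p (z - 1) k) else 0) := by
    intro z hz
    rw [Finset.mem_Ico] at hz
    have hzk : u⁻¹ z ≠ k := by
      intro h
      rw [Equiv.Perm.inv_eq_iff_eq] at h
      omega
    have hz1 : z - 1 + 1 = z := by omega
    have hD : Dx L n u v p z k = Dx L n u v p (z - 1) k +
        ((if p ≤ v⁻¹ z then 1 else 0) - (if k ≤ u⁻¹ z then 1 else 0)) := by
      unfold Dx
      rw [hz1, tl_thr L hv hz.2, tl_thr L hu hz.2]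
      ring
    by_cases h1 : p ≤ v⁻¹ z
    · by_cases h2 : k ≤ u⁻¹ z
      · rw [if_pos h1, if_pos h2, sub_self, add_zero] at hD
        rw [hD, if_neg (by omega), if_neg (by omega)]
        ring
      · rw [if_pos h1, if_neg h2, sub_zero] at hD
        rw [hD, if_neg (by omega), if_pos ⟨by omega, h1⟩, zpow_add₀ hne, zpow_one]
        ring
    · by_cases h2 : k ≤ u⁻¹ z
      · rw [if_neg h1, if_pos h2, zero_sub] at hD
        have hD' : Dx L n u v p (z - 1) k = Dx L n u v p z k + 1 := by omega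
        rw [hD', if_pos ⟨by omega, by omega⟩, if_neg (by omega), zpow_add₀ hne, zpow_one]
        ring
      · rw [if_neg h1, if_neg h2, sub_self, add_zero] at hD
        rw [hD, if_neg (by omega), if_neg (by omega)]
        ring
  have hsum := tl_tele (fun z => t ^ (Dx L n u v p z k)) (u k) n hx
  rw [Finset.sum_congr rfl hstep, Finset.sum_sub_distrib, ← Finset.mul_sum, ← Finset.mul_sum] at hsum
  have hlast : Dx L n u v p (n - 1) k = upn L n p - upn L n k := by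
    unfold Dx
    have hn1 : n - 1 + 1 = n := by omega
    rw [hn1, tl_top L hv, tl_top L hu]
  rw [hlast] at hsum
  rw [tl_filter n (u k) (fun z => u⁻¹ z < k ∧ p ≤ v⁻¹ z) (fun z => t ^ (Dx L n u v p (z - 1) k)),
    tl_filter n (u k) (fun z => k < u⁻¹ z ∧ v⁻¹ z < p) (fun z => t ^ (Dx L n u v p z k))]
  have hx2 : (if p ≤ v⁻¹ (u k) then t ^ (Dx L n u v p (u k) k) else 0) =
      t ^ (Dx L n u v p (u k) k) - (if v⁻¹ (u k) < p then t ^ (Dx L n u v p (u k) k) else 0) := by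
    by_cases h : p ≤ v⁻¹ (u k)
    · rw [if_pos h, if_neg (by omega), sub_zero]
    · rw [if_neg h, if_pos (by omega), sub_self]
  rw [hx2]
  linarith

theorem upn_le (L : ℕ → Bool) (n : ℕ) {p k : ℕ} (h : p ≤ k) : upn L n k ≤ upn L n p := by
  unfold upn
  refine Finset.sum_le_sum_of_subset_of_nonneg ?_ ?_
  · exact Finset.Ico_subset_Ico_left h
  · intro j _ _
    split_ifs <;> norm_num

end H42.NC
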